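import Pool.Agent.Full.X3.Marks
import Pool.Agent.Full.Geo.LabCyc
import Pool.Agent.Full.Geo.SC
import Pool.Agent.Full.Geo.Slab

/-!
# The choice of the arc

Three marks on the boundary of a domain with a closed row, not in the dead ends: there are two consecutive
marks such that the arc between them is in the lower or in the upper part (`Slab.exists_marksOk`).
`obs_rot`: rotation of the marks in the observable.
-/

set_option autoImplicit false

namespace Full
open Function Finset

namespace Asm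

/-- the third root of unity of the observable -/
lemma exp_third : Complex.exp (2 * Real.pi * Complex.I / 3) ^ 3 = 1 := by
  rw [← Complex.exp_nat_mul, show ((3 : ℕ) : ℂ) * (2 * Real.pi * Complex.I / 3) = 2 * Real.pi * Complex.I by push_cast; ring]
  exact Complex.exp_two_pi_mul_I

lemma norm_exp_third (k : ℕ) : ‖Complex.exp (2 * Real.pi * Complex.I / 3) ^ k‖ = 1 := by
  have h : (2 * Real.pi * Complex.I / 3 : ℂ) = ((2 * Real.pi / 3 : ℝ) : ℂ) * Complex.I := by
    push_cast
    ring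
  rw [norm_pow, h, Complex.norm_exp_ofReal_mul_I, one_pow]

/-- **rotation of the marks** -/
theorem obs_rot {τ : Type*} [DecidableEq τ] (T : Finset τ) (w : Half τ → Half τ) (z : Half τ) (e : Fin 3 → Half τ)
    (s : Fin 3) : obs T w z e = Complex.exp (2 * Real.pi * Complex.I / 3) ^ (s : ℕ) * obs T w z fun j => e (j + s) := by
  have h3 := exp_third
  unfold obs
  generalize Complex.exp (2 * Real.pi * Complex.I / 3) = a at *
  rw [Fin.sum_univ_three, Fin.sum_univ_three]
  generalize hp : (fun x : Half τ => ((Pool.Agent.Helper69.RSW.P T (fun ω => other (mate ω) w z = x) : ℝ) : ℂ)) = p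
  have hp' : ∀ x, ((Pool.Agent.Helper69.RSW.P T (fun ω => other (mate ω) w z = x) : ℝ) : ℂ) = p x := fun x => by
    rw [← hp]
  simp only [hp']
  have h4 : a ^ 4 = a := by
    calc a ^ 4 = a ^ 3 * a := by ring
      _ = a := by rw [h3, one_mul]
  fin_cases s
  · simp
  · show _ = a ^ 1 * (a ^ 0 * p (e (0 + 1)) + a ^ 1 * p (e (1 + 1)) + a ^ 2 * p (e (2 + 1)))
    show a ^ 0 * p (e 0) + a ^ 1 * p (e 1) + a ^ 2 * p (e 2) =
      a ^ 1 * (a ^ 0 * p (e 1) + a ^ 1 * p (e 2) + a ^ 2 * p (e 0))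
    linear_combination (-p (e 0)) * h3
  · show a ^ 0 * p (e 0) + a ^ 1 * p (e 1) + a ^ 2 * p (e 2) =
      a ^ 2 * (a ^ 0 * p (e 2) + a ^ 1 * p (e 0) + a ^ 2 * p (e 1))
    linear_combination (-p (e 0)) * h3 - (p (e 1)) * h4

/-- three integers in cyclic order -/
def CycZ (p : Fin 3 → ℤ) : Prop :=
  (p 0 < p 1 ∧ p 1 < p 2) ∨ (p 1 < p 2 ∧ p 2 < p 0) ∨ (p 2 < p 0 ∧ p 0 < p 1)

/-- **two consecutive marks on one side of `P`** -/
theorem exists_rot {p : Fin 3 → ℤ} (h : CycZ p) (P : ℤ) (hp : ∀ i, p i < P ∨ P < p i) :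
    ∃ s : Fin 3, p (1 + s) < p (2 + s) ∧ (p (2 + s) < P ∨ P < p (1 + s)) ∧
      (p (0 + s) < p (1 + s) ∨ p (2 + s) < p (0 + s)) := by
  have h0 := hp 0
  have h1 := hp 1
  have h2 := hp 2
  have e0 : ∀ i : Fin 3, i + 0 = i := fun i => add_zero i
  have a11 : (1 : Fin 3) + 1 = 2 := rfl
  have a21 : (2 : Fin 3) + 1 = 0 := rfl
  have a01 : (0 : Fin 3) + 1 = 1 := rfl
  have a12 : (1 : Fin 3) + 2 = 0 := rfl
  have a22 : (2 : Fin 3) + 2 = 1 := rfl
  have a02 : (0 : Fin 3) + 2 = 2 := rfl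
  have key : (p 1 < p 2 ∧ (p 2 < P ∨ P < p 1) ∧ (p 0 < p 1 ∨ p 2 < p 0)) ∨
      (p 2 < p 0 ∧ (p 0 < P ∨ P < p 2) ∧ (p 1 < p 2 ∨ p 0 < p 1)) ∨
      (p 0 < p 1 ∧ (p 1 < P ∨ P < p 0) ∧ (p 2 < p 0 ∨ p 1 < p 2)) := by
    unfold CycZ at h
    omega
  rcases key with h | h | h
  · refine ⟨0, ?_⟩
    rw [e0, e0, e0]
    exact h
  · refine ⟨1, ?_⟩
    rw [a11, a21, a01]
    exact h
  · refine ⟨2, ?_⟩
    rw [a12, a22, a02]
    exact h

/-- positions along a cycle which increase by one, except at one point -/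
theorem cycZ_of_step {α : Type*} {ν : α → α} {pos : α → ℤ} {e : Fin 3 → α} {us : α}
    (hstep : ∀ k, k < minimalPeriod ν (e 0) → ν^[k] (e 0) ≠ us → pos (ν^[k + 1] (e 0)) = pos (ν^[k] (e 0)) + 1)
    {a b : ℕ} (ha : 0 < a) (hab : a < b) (hb : b < minimalPeriod ν (e 0)) (h1 : ν^[a] (e 0) = e 1)
    (h2 : ν^[b] (e 0) = e 2) : CycZ fun i => pos (e i) := by
  set N := minimalPeriod ν (e 0) with hN
  have hper : ν^[N] (e 0) = e 0 := iterate_minimalPeriod
  -- positions before the exceptional point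
  have up : ∀ i k, i + k ≤ N → (∀ j, i ≤ j → j < i + k → ν^[j] (e 0) ≠ us) →
      pos (ν^[i + k] (e 0)) = pos (ν^[i] (e 0)) + k := by
    intro i k
    induction k with
    | zero => intro _ _; simp
    | succ k ih =>
      intro h3 h4
      rw [← add_assoc, hstep (i + k) (by omega) (h4 _ (by omega) (by omega)),
        ih (by omega) fun j h5 h6 => h4 j h5 (by omega)]
      push_cast
      ring
  by_cases hex : ∃ i, i < N ∧ ν^[i] (e 0) = us
  · obtain ⟨i, hi, hi'⟩ := hex
    have hne : ∀ j, j < N → j ≠ i → ν^[j] (e 0) ≠ us := by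
      intro j hj hji h5
      apply hji
      exact (iterate_eq_iterate_iff_of_lt_minimalPeriod hj hi).1 (h5.trans hi'.symm)
    have before : ∀ k, k ≤ i → pos (ν^[k] (e 0)) = pos (e 0) + k := by
      intro k hk
      have := up 0 k (by omega) fun j _ h5 => hne j (by omega) (by omega)
      simpa using this
    have after : ∀ k, i < k → k ≤ N → pos (ν^[k] (e 0)) = pos (e 0) + k - N := by
      intro k hk hk'
      have e1 := up k (N - k) (by omega) fun j h5 h6 => hne j (by omega) (by omega)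
      rw [show k + (N - k) = N by omega, hper] at e1
      push_cast [Nat.cast_sub hk'] at e1
      omega
    show (pos (e 0) < pos (e 1) ∧ pos (e 1) < pos (e 2)) ∨ (pos (e 1) < pos (e 2) ∧ pos (e 2) < pos (e 0)) ∨
      (pos (e 2) < pos (e 0) ∧ pos (e 0) < pos (e 1))
    rw [← h1, ← h2]
    rcases Nat.lt_or_ge i a with h5 | h5
    · rw [after a h5 (by omega), after b (by omega) (by omega)]
      omega
    · rcases Nat.lt_or_ge i b with h6 | h6
      · rw [before a h5, after b h6 (by omega)]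
        omega
      · rw [before a h5, before b h6]
        omega
  · exfalso
    have := up 0 N (by omega) fun j _ h5 h6 => hex ⟨j, by omega, h6⟩
    rw [Nat.zero_add, hper] at this
    simp only [iterate_zero, id_eq] at this
    omega

end Asm

namespace Slab
variable {D : Slab} {W : Lab} {a nL nU : ℤ}

/-- `u` is not on the floor or on the ceiling of a dead end of length `a` -/
def OutDead (D : Slab) (a : ℤ) (u : Half ZT) : Prop := ∀ k, 0 ≤ k → k < a →
  u ≠ (.inl (D.l + k, D.b), .S) ∧ u ≠ (.inl (D.r - k, D.b), .S) ∧ u ≠ (.inr (D.r - 1 - k, D.t - 1), .N) ∧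
    u ≠ (.inr (D.l + k, D.t - 1), .N)

/-- position of a wall which is not in the dead ends -/
theorem pos_far (hW : W.Ok D a nL nU) {u : Half ZT} (hu : D.IsW u) (ho : D.OutDead a u) :
    (a ≤ W.pos u ∧ W.pos u < nL - a) ∨ (W.P + a ≤ W.pos u ∧ W.pos u < W.P + nU - a) := by
  obtain ⟨t | t, d⟩ := u
  · left
    obtain ⟨h1, h2⟩ := hW.low t d hu
    constructor
    · by_contra h3
      obtain ⟨f1, f2, -⟩ := hW.floorL _ h1 (not_le.1 h3)
      exact (ho _ h1 (not_le.1 h3)).1 (hW.inj _ _ hu f1 f2.symm)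
    · by_contra h3
      obtain ⟨f1, f2, -⟩ := hW.floorR (nL - 1 - W.pos (.inl t, d)) (by omega) (by omega)
      exact (ho (nL - 1 - W.pos (.inl t, d)) (by omega) (by omega)).2.1 (hW.inj _ _ hu f1 (by rw [f2]; omega))
  · right
    obtain ⟨h1, h2⟩ := hW.up t d hu
    constructor
    · by_contra h3
      obtain ⟨f1, f2, -⟩ := hW.ceilR (W.pos (.inr t, d) - W.P) (by omega) (by omega)
      exact (ho (W.pos (.inr t, d) - W.P) (by omega) (by omega)).2.2.1 (hW.inj _ _ hu f1 (by rw [f2]; omega))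
    · by_contra h3
      obtain ⟨f1, f2, -⟩ := hW.ceilL (W.P + nU - 1 - W.pos (.inr t, d)) (by omega) (by omega)
      exact (ho (W.P + nU - 1 - W.pos (.inr t, d)) (by omega) (by omega)).2.2.2 (hW.inj _ _ hu f1 (by rw [f2]; omega))

/-- **the order of the marks by positions is cyclic** -/
theorem cycZ {x y : ℤ} (hW : W.Ok D a nL nU) (hl : D.l < x) (hr : x < D.r) (hb : D.b < y) (ht : y < D.t)
    {e : Fin 4 → Half ZT} {lab : Half ZT → Fin 4}
    (h : Geo.LabCyc (next (D.go x y)) {u | Bd (D.T y) (D.go x y) u ∧ u ≠ z x y} e lab) :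
    Asm.CycZ fun i : Fin 3 => W.pos (e i.castSucc) := by
  obtain ⟨k1, k2, k3, h1, h2, h3, h4, h5, h6, h7⟩ := h.order
  refine Asm.cycZ_of_step (ν := next (D.go x y)) (us := (.inr (D.l, y), .W)) (fun k _ hne => ?_) h1 h2 (h3.trans h4) h5 h6
  obtain ⟨m1, m2⟩ := h.iter_mem (h.mem 0) k
  rw [iterate_succ_apply']
  exact (hW.step x y hl hr hb ht _ m1 m2 hne).1

/-- **the choice of the arc**: for a rotation of the three marks the part of the boundary between the second and the
third mark is in the lower or in the upper part -/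
theorem exists_marksOk {x y : ℤ} (hW : W.Ok D a nL nU) (ha : 1 ≤ a) (hl : D.l < x) (hr : x < D.r) (hb : D.b < y)
    (ht : y < D.t) {e : Fin 4 → Half ZT} {lab : Half ZT → Fin 4}
    (h : Geo.LabCyc (next (D.go x y)) {u | Bd (D.T y) (D.go x y) u ∧ u ≠ z x y} e lab)
    (hw : ∀ i : Fin 3, D.IsW (e i.castSucc)) (ho : ∀ i : Fin 3, D.OutDead a (e i.castSucc)) :
    ∃ s : Fin 3, MarksOk D W a nL nU fun i => e (i + s).castSucc := by
  have hP := hW.P_eq
  have hf : ∀ i : Fin 3, (a ≤ W.pos (e i.castSucc) ∧ W.pos (e i.castSucc) < nL - a) ∨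
      (W.P + a ≤ W.pos (e i.castSucc) ∧ W.pos (e i.castSucc) < W.P + nU - a) := fun i => pos_far hW (hw i) (ho i)
  obtain ⟨s, h1, h2, h3⟩ := Asm.exists_rot (cycZ hW hl hr hb ht h) W.P fun i => by
    rcases hf i with h4 | h4
    · exact Or.inl (by omega)
    · exact Or.inr (by omega)
  exact ⟨s, fun i => hw _, fun i => hf _, h1, h2, h3⟩

end Slab

namespace Shape
variable {S : Shape} {n : ℕ} {s : S.Q × Bool → ℕ} {m : S.Marks} {σ : Fin 4 → ℕ}

/-- the tile of a mark -/
def mt (m : S.Marks) (n : ℕ) (σ : Fin 4 → ℕ) (j : Fin 4) : ℤ × ℤ := (n * m.x j + σ j, S.fb n (.inl (m.room j)))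

lemma ez_cases (hm : m.Ok) (q : S.Q) (j : Fin 4) :
    m.ez n σ q j = (.inl (mt m n σ j), .S) ∨ m.ez n σ q j = (.inr (mt m n σ j), .S) := by
  unfold Marks.ez Marks.fy Marks.dir mt
  rw [hm.low j]
  simp only [Bool.false_eq_true, if_false]
  split_ifs <;> simp

lemma mt_room (hS : S.Ok) (hs : S.Small n s) (hm : m.Ok) (hσ : ∀ j, 4 * σ j ≤ n) (j : Fin 4) :
    mt m n σ j ∈ S.room n s (.inl (m.room j)) := by
  rw [mem_room]
  have h1 := hm.left j
  have h2 := hm.right j
  have h3 : (n : ℤ) * (S.xl (.inl (m.room j)) + 1) ≤ n * m.x j := mul_le_mul_of_nonneg_left (by omega) (by omega)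
  have h4 : (n : ℤ) * (m.x j + 1) ≤ n * S.xr (.inl (m.room j)) := mul_le_mul_of_nonneg_left (by omega) (by omega)
  have h5 := hs.2 (.inl (m.room j), false)
  have h6 := hσ j
  have h7 := hs.1
  rw [mul_add, mul_one] at h3 h4
  refine ⟨⟨?_, ?_⟩, le_rfl, by have := fb_lt_ft hS h7 (.inl (m.room j)); show S.fb n (.inl (m.room j)) < _; omega⟩
  · show S.fl n s (.inl (m.room j)) ≤ n * m.x j + σ j
    unfold fl
    omega
  · show n * m.x j + σ j < S.fr n s (.inl (m.room j))
    unfold fr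
    omega

/-- **the marks are not in the dead ends** -/
theorem outDead_ez (hS : S.Ok) (hs : S.Small n s) (hm : m.Ok) (hσ : ∀ j, 4 * σ j ≤ n) {A : ℝ} (hA : S.Chan m A)
    {r : S.R} {a : ℤ} (ha : (a : ℝ) + n / 4 ≤ n * (A * (S.yt (.inl r) - S.yb (.inl r)))) (j : Fin 4)
    (haw : S.fl n s (.inl r) + a ≤ S.fr n s (.inl r)) :
    (S.zslab hS hs.two (tree hS) (.inl r)).OutDead a (m.ez n σ (.inl r) j) := by
  intro k hk0 hka
  have hn : (0 : ℝ) < n := by
    have := hs.1
    exact_mod_cast (by omega : 0 < n)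
  have hd : ∀ t, m.ez n σ (.inl r) j = (.inl t, .S) → t = mt m n σ j := by
    intro t h
    rcases ez_cases (n := n) (σ := σ) hm (.inl r) j with h1 | h1
    · rw [h1] at h
      exact (Sum.inl_injective (congrArg Prod.fst h)).symm
    · rw [h1] at h
      exact absurd (congrArg Prod.fst h) (by simp)
  have hN : ∀ t : ZT, m.ez n σ (.inl r) j ≠ (t, .N) := by
    intro t h
    rcases ez_cases (n := n) (σ := σ) hm (.inl r) j with h1 | h1 <;>
    · rw [h1] at h
      exact Dir.noConfusion (congrArg Prod.snd h)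
  have hroom := mt_room hS hs hm hσ j
  have hlr := fl_lt_fr hS hs.two (.inl r)
  have hbt := fb_lt_ft hS hs.1 (.inl r)
  have s1 := hs.2 (.inl r, false)
  have s2 := hσ j
  -- a tile on the floor near the row `r` is not the tile of a mark in another row
  have hr : ∀ i : ℤ, S.fl n s (.inl r) ≤ i → i ≤ S.fr n s (.inl r) → mt m n σ j = (i, S.fb n (.inl r)) → m.room j = r := by
    intro i h1 h2 h3
    rw [h3] at hroom
    have h4 : (min i (S.fr n s (.inl r) - 1), S.fb n (.inl r)) ∈ S.room n s (.inl r) := by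
      rw [mem_room]
      refine ⟨⟨?_, ?_⟩, le_rfl, ?_⟩ <;> simp only <;> omega
    rcases nb_room' hS hs.two h4 hroom (by simp only; omega) (by simp only; omega) (by simp only; omega)
      (by simp only; omega) with h5 | h5 | h5
    · exact (Sum.inl_injective h5).symm
    · exact h5.elim
    · exact h5.elim
  have hka' : (k : ℝ) + 1 ≤ a := by exact_mod_cast hka
  have hk0' : (0 : ℝ) ≤ k := by exact_mod_cast hk0
  have s1' : 4 * (s (.inl r, false) : ℝ) ≤ n := by exact_mod_cast s1
  have s2' : 4 * (σ j : ℝ) ≤ n := by exact_mod_cast s2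
  have s3' : (0 : ℝ) ≤ s (.inl r, true) := by positivity
  have s4' : (0 : ℝ) ≤ σ j := by positivity
  have hC := hA.2 j
  refine ⟨fun h => ?_, fun h => ?_, hN _, hN _⟩
  · have h1 := (hd _ h).symm
    rw [zslab_l, zslab_b] at h1
    have h2 := hr _ (by omega) (by omega) h1
    rw [h2] at hC
    have h3 := congrArg Prod.fst h1
    have h4 : (n * m.x j + σ j : ℝ) = n * S.xl (.inl r) + s (.inl r, false) + k := by
      have : (n * m.x j + σ j : ℤ) = n * S.xl (.inl r) + s (.inl r, false) + k := h3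
      exact_mod_cast this
    have h5 := mul_le_mul_of_nonneg_left hC.1 hn.le
    linarith
  · have h1 := (hd _ h).symm
    rw [zslab_r, zslab_b] at h1
    have h2 := hr _ (by omega) (by omega) h1
    rw [h2] at hC
    have h3 := congrArg Prod.fst h1
    have h4 : (n * m.x j + σ j : ℝ) = n * S.xr (.inl r) + s (.inl r, true) - k := by
      have : (n * m.x j + σ j : ℤ) = n * S.xr (.inl r) + s (.inl r, true) - k := h3
      exact_mod_cast this
    have h5 := mul_le_mul_of_nonneg_left hC.2 hn.le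
    linarith

end Shape

end Full
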