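import Pool.Agent.Full.Asm.Iter

/-!
# FULL, assembly: from the rows of a shape to the slabs of a rectangle

`SlabOK`: the condition of `holo_iter` on one slab.  `SlabsOK`: the condition on one rectangle (there is a partition into
slabs with total error `η`).  `slabsOK_of_rows`: a ladder of rows (engine) and bars (thin) gives a partition.
-/

set_option autoImplicit false

namespace Full

open Complex Set Filter Topology Metric Eng

/-! ### scaling and restriction of engine amplitudes -/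

theorem EngAmp.scale {C₀ κ K δ lam : ℝ} {S S' : Set ℂ} {A : ℂ → ℂ} (h : EngAmp C₀ κ K δ S A) (hl : 0 < lam)
    (hS : ∀ z ∈ S', (lam : ℂ) * z ∈ S) : EngAmp C₀ (κ / lam) K (δ / lam) S' fun z => A (lam * z) := by
  obtain ⟨J, L, i1, i2, i3, i4, N, Tu, Tl, W, O, Iv, x₀, y₀, top, bot, Ru, Rl, hW, hG, hN, hK, hA⟩ := h
  refine ⟨J, L, i1, i2, i3, i4, N, Tu, Tl, W, O, Iv, x₀ / lam, y₀ / lam, top, bot, Ru, Rl, hW, hG, ?_, ?_, ?_⟩
  · rw [← mul_div_assoc]
    gcongr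
  · intro p q h1 h2 h3 h4
    refine hK p q ?_ ?_ h3 h4
    · rw [← mul_div_assoc, div_div, mul_comm lam, ← div_div] at h1
      exact (div_le_div_iff_of_pos_right hl).1 h1
    · rw [← mul_div_assoc, div_div, mul_comm lam, ← div_div] at h2
      exact (div_le_div_iff_of_pos_right hl).1 h2
  · intro z hz
    obtain ⟨a1, a2, a3, a4, a5, a6⟩ := hA _ (hS z hz)
    have er : ((lam : ℂ) * z).re = lam * z.re := by simp
    have ei : ((lam : ℂ) * z).im = lam * z.im := by simp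
    rw [er] at a1 a6
    rw [ei] at a2 a3 a4 a5 a6
    have fx : (z.re - x₀ / lam) / (δ / lam) = (lam * z.re - x₀) / δ := by
      rw [show z.re - x₀ / lam = (lam * z.re - x₀) / lam by field_simp, div_div_div_cancel_right₀ hl.ne']
    have fy : (z.im - y₀ / lam) / (δ / lam) = (lam * z.im - y₀) / δ := by
      rw [show z.im - y₀ / lam = (lam * z.im - y₀) / lam by field_simp, div_div_div_cancel_right₀ hl.ne']
    rw [fx, fy]
    refine ⟨?_, ?_, a3, ?_, ?_, a6⟩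
    · rw [div_le_iff₀ hl]; linarith
    · rw [div_le_iff₀ hl]; linarith
    · rw [← mul_div_assoc]; gcongr
    · rw [← mul_div_assoc]; gcongr

theorem EngMix.scale {C₀ κ K δ lam : ℝ} {S S' : Set ℂ} {A : ℂ → ℂ} (h : EngMix C₀ κ K δ S A) (hl : 0 < lam)
    (hS : ∀ z ∈ S', (lam : ℂ) * z ∈ S) : EngMix C₀ (κ / lam) K (δ / lam) S' fun z => A (lam * z) := by
  obtain ⟨I, s, c, w, As, hw, hs, hA⟩ := h
  exact ⟨I, s, c, w, fun j z => As j (lam * z), hw, fun j hj => (hs j hj).scale hl hS, fun z hz => hA _ (hS z hz)⟩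

/-! ### slabs -/

variable {ι : Type*}

/-- the condition of `holo_iter` on the slab `[a, b] x [u, v]`: thin, or engine amplitudes in the middle -/
def SlabOK (C₀ : ℝ) (l : Filter ι) (F : ι → ℂ → ℂ) (δ : ι → ℝ) (a b u v p : ℝ) : Prop :=
  (v - u ≤ p ∧ ∀ x ∈ Icc a b, ∀ᶠ i in l, ‖F i (x + u * I) - F i (x + v * I)‖ ≤ p) ∨
    ∀ κ > 0, ∃ (K : ι → ℝ) (κ' : ℝ), 0 < κ' ∧ (∀ᶠ i in l, 0 ≤ K i) ∧
      Tendsto (fun i => K i * δ i ^ (1 / 5 : ℝ)) l (𝓝 0) ∧
      ∀ᶠ i in l, ∃ A : ℂ → ℂ,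
        (∀ z ∈ Icc a b ×ℂ Icc (u + κ) (v - κ), ‖F i z - A z‖ ≤ p) ∧
        EngMix C₀ κ' (K i) (δ i) (Icc a b ×ℂ Icc (u + κ) (v - κ)) A

/-- the condition of `holo_iter` on the rectangle `[a, b] x [c, d]` with total error `η` -/
def SlabsOK (C₀ : ℝ) (l : Filter ι) (F : ι → ℂ → ℂ) (δ : ι → ℝ) (a b c d η : ℝ) : Prop :=
  ∃ (n : ℕ) (v : ℕ → ℝ) (p : ℕ → ℝ), v 0 = c ∧ v n = d ∧ (∀ k < n, v k ≤ v (k + 1)) ∧ (∀ k < n, 0 ≤ p k) ∧
    ∑ k ∈ Finset.range n, p k ≤ η ∧ ∀ k < n, SlabOK C₀ l F δ a b (v k) (v (k + 1)) (p k)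

/-- `holo_iter` in terms of `SlabsOK` -/
theorem holo_iter' {H ι : Type*} {l0 : Filter H} {l1 : H → Filter ι} {U : Set ℂ} (hU : IsOpen U) {F : H × ι → ℂ → ℂ}
    {δ : H × ι → ℝ} (hδ0 : ∀ᶠ h in l0, ∀ᶠ i in l1 h, 0 < δ (h, i))
    (hδ : ∀ᶠ h in l0, Tendsto (fun i => δ (h, i)) (l1 h) (𝓝 0))
    (heq : ∀ K ⊆ U, IsCompact K → AEC (iter l0 l1) K F)
    (heq' : ∀ K ⊆ U, IsCompact K → ∀ᶠ h in l0, AEC (l1 h) K fun i => F (h, i))
    (hB : ∀ K ⊆ U, IsCompact K → ∃ B : ℝ, ∀ᶠ h in l0, ∀ᶠ i in l1 h, ∀ z ∈ K, ‖F (h, i) z‖ ≤ B) {C₀ : ℝ} (hC : 1 ≤ C₀)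
    (heng : ∀ a b c d : ℝ, a < b → c < d → Icc a b ×ℂ Icc c d ⊆ U → ∀ η > 0, ∀ᶠ h in l0,
      SlabsOK C₀ (l1 h) (fun i => F (h, i)) (fun i => δ (h, i)) a b c d η)
    {l : Filter (H × ι)} [l.NeBot] (hl : l ≤ iter l0 l1) {G : ℂ → ℂ}
    (hG : ∀ z ∈ U, Tendsto (fun x => F x z) l (𝓝 (G z))) : DifferentiableOn ℂ G U :=
  holo_iter hU hδ0 hδ heq heq' hB hC heng hl hG

section clip

/-- projection to `[c, d]` -/
def clip (c d x : ℝ) : ℝ := max c (min d x)

lemma clip_mem {c d : ℝ} (h : c ≤ d) (x : ℝ) : clip c d x ∈ Icc c d := ⟨le_max_left _ _, max_le h (min_le_left _ _)⟩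

lemma clip_mono {c d x y : ℝ} (h : x ≤ y) : clip c d x ≤ clip c d y := max_le_max le_rfl (min_le_min le_rfl h)

lemma clip_sub {c d x y : ℝ} (h : x ≤ y) : clip c d y - clip c d x ≤ y - x := by
  unfold clip
  have h1 : min d y ≤ min d x + (y - x) := by
    rcases min_cases d x with ⟨e, -⟩ | ⟨e, -⟩
    · rw [e]; have := min_le_left d y; linarith
    · rw [e]; have := min_le_right d y; linarith
  rcases max_cases c (min d y) with ⟨e, -⟩ | ⟨e, -⟩
  · rw [e]; have := le_max_left c (min d x); linarith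
  · rw [e]; have := le_max_right c (min d x); linarith

lemma clip_lo {c d x : ℝ} (h : x ≤ c) (hcd : c ≤ d) : clip c d x = c := by
  unfold clip
  rw [min_eq_right (h.trans hcd), max_eq_left h]

lemma clip_hi {c d x : ℝ} (h : d ≤ x) (hcd : c ≤ d) : clip c d x = d := by
  unfold clip
  rw [min_eq_left h, max_eq_right hcd]

lemma clip_lt {c d x y : ℝ} (h : clip c d x < clip c d y) : x ≤ clip c d x ∧ clip c d y ≤ y := by
  unfold clip at *
  rcases lt_or_ge (min d x) c with h1 | h1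
  · -- clip x = c
    rw [max_eq_left h1.le] at h ⊢
    have h2 : c < min d y := by
      by_contra hcon
      rw [max_eq_left (not_lt.1 hcon)] at h
      exact lt_irrefl _ h
    rw [max_eq_right h2.le]
    refine ⟨?_, min_le_right _ _⟩
    rcases min_lt_iff.1 h1 with h3 | h3
    · exact absurd (h2.trans_le (min_le_left _ _)) (not_lt.2 h3.le)
    · exact h3.le
  · rw [max_eq_right h1] at h ⊢
    have h2 : c ≤ min d y := by
      by_contra hcon
      rw [max_eq_left (not_le.1 hcon).le] at h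
      exact absurd (h1.trans_lt h) (lt_irrefl _)
    rw [max_eq_right h2] at h ⊢
    refine ⟨?_, min_le_right _ _⟩
    rcases le_total d x with h3 | h3
    · rw [min_eq_left h3] at h
      exact absurd (h.trans_le (min_le_left _ _)) (lt_irrefl _)
    · rw [min_eq_right h3]

end clip

/-- a ladder of slabs for a larger interval can be restricted to a smaller one -/
theorem slabsOK_of_ladder {C₀ : ℝ} {l : Filter ι} {F : ι → ℂ → ℂ} {δ : ι → ℝ} {a b c d η : ℝ} (hcd : c ≤ d)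
    {n : ℕ} {w p : ℕ → ℝ} (w0 : w 0 ≤ c) (wn : d ≤ w n) (wmono : ∀ k < n, w k ≤ w (k + 1)) (hp0 : ∀ k < n, 0 ≤ p k)
    (hη : ∑ k ∈ Finset.range n, p k ≤ η)
    (h : ∀ k < n, (w (k + 1) - w k ≤ p k ∧ ∀ᶠ i in l, ∀ x ∈ Icc a b, ∀ u ∈ Icc c d, ∀ v ∈ Icc c d,
        |u - v| ≤ w (k + 1) - w k → ‖F i (x + u * I) - F i (x + v * I)‖ ≤ p k) ∨
      ∀ κ > 0, ∃ (K : ι → ℝ) (κ' : ℝ), 0 < κ' ∧ (∀ᶠ i in l, 0 ≤ K i) ∧
        Tendsto (fun i => K i * δ i ^ (1 / 5 : ℝ)) l (𝓝 0) ∧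
        ∀ᶠ i in l, ∃ A : ℂ → ℂ,
          (∀ z ∈ Icc a b ×ℂ Icc (w k + κ) (w (k + 1) - κ), ‖F i z - A z‖ ≤ p k) ∧
          EngMix C₀ κ' (K i) (δ i) (Icc a b ×ℂ Icc (w k + κ) (w (k + 1) - κ)) A) :
    SlabsOK C₀ l F δ a b c d η := by
  refine ⟨n, fun k => clip c d (w k), p, clip_lo w0 hcd, clip_hi wn hcd, fun k hk => clip_mono (wmono k hk), hp0, hη,
    fun k hk => ?_⟩
  rcases h k hk with ⟨h1, h2⟩ | h1
  · refine Or.inl ⟨(clip_sub (wmono k hk)).trans h1, fun x hx => ?_⟩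
    filter_upwards [h2] with i hi
    refine hi x hx _ (clip_mem hcd _) _ (clip_mem hcd _) ?_
    rw [abs_sub_comm, abs_of_nonneg (sub_nonneg.2 (clip_mono (wmono k hk)))]
    exact clip_sub (wmono k hk)
  · refine Or.inr fun κ hκ => ?_
    obtain ⟨K, κ', h2, h3, h4, h5⟩ := h1 κ hκ
    refine ⟨K, κ', h2, h3, h4, ?_⟩
    filter_upwards [h5] with i hi
    obtain ⟨A, hA1, hA2⟩ := hi
    have hsub : Icc a b ×ℂ Icc (clip c d (w k) + κ) (clip c d (w (k + 1)) - κ) ⊆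
        Icc a b ×ℂ Icc (w k + κ) (w (k + 1) - κ) := by
      intro z hz
      rw [mem_reProdIm] at hz ⊢
      have hlt : clip c d (w k) < clip c d (w (k + 1)) := by linarith [hz.2.1, hz.2.2]
      obtain ⟨q1, q2⟩ := clip_lt hlt
      exact ⟨hz.1, by linarith [hz.2.1], by linarith [hz.2.2]⟩
    refine ⟨A, fun z hz => hA1 z (hsub hz), ?_⟩
    obtain ⟨I, s, cc, ww, As, b1, b2, b3⟩ := hA2
    refine ⟨I, s, cc, ww, As, b1, fun j hj => ?_, fun z hz => b3 z (hsub hz)⟩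
    obtain ⟨J, L, i1, i2, i3, i4, N, Tu, Tl, W, O, Iv, x₀, y₀, top, bot, Ru, Rl, hW, hG, hN, hK, hA⟩ := b2 j hj
    exact ⟨J, L, i1, i2, i3, i4, N, Tu, Tl, W, O, Iv, x₀, y₀, top, bot, Ru, Rl, hW, hG, hN, hK, fun z hz => hA z (hsub hz)⟩

/-- **the slabs of a rectangle** in the coordinates `z / lam` of the coarse polygon: rows with engine amplitudes (error
`p2`) and bars of thickness at most one (modulus `p1` of the function at distance one) -/
theorem slabsOK_of_rows {C₀ p1 p2 lam : ℝ} (hlam : 0 < lam) (hp1 : 0 ≤ p1) (hp2 : 0 ≤ p2) {F : ℕ → ℂ → ℂ}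
    {l : Filter ι} {ν : ι → ℕ} (hν : Tendsto ν l atTop) {a b c d : ℝ} (hcd : c ≤ d)
    (hmod : ∀ ε > 0, ∀ᶠ n : ℕ in atTop, ∀ z ∈ Icc (lam * a) (lam * b) ×ℂ Icc (lam * c) (lam * d),
      ∀ z' ∈ Icc (lam * a) (lam * b) ×ℂ Icc (lam * c) (lam * d), dist z z' ≤ 1 → ‖F n z - F n z'‖ ≤ p1 + ε)
    {N : ℕ} {V : ℕ → ℝ} (V0 : V 0 ≤ lam * c) (Vn : lam * d ≤ V N) (Vmono : ∀ k < N, V k ≤ V (k + 1))
    (h : ∀ k < N, V (k + 1) - V k ≤ 1 ∨ ∀ κ > 0, ∃ (K : ℕ → ℝ) (κ' : ℝ), 0 < κ' ∧ (∀ n, 0 ≤ K n) ∧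
      Tendsto (fun n : ℕ => K n * (1 / (n : ℝ)) ^ (1 / 5 : ℝ)) atTop (𝓝 0) ∧
      ∀ ε > 0, ∀ᶠ n : ℕ in atTop, ∃ A : ℂ → ℂ,
        EngMix C₀ κ' (K n) (1 / n) (Icc (lam * a) (lam * b) ×ℂ Icc (V k + κ) (V (k + 1) - κ)) A ∧
        ∀ z ∈ Icc (lam * a) (lam * b) ×ℂ Icc (V k + κ) (V (k + 1) - κ), ‖F n z - A z‖ ≤ p2 + ε)
    {η : ℝ} (hη : N * (1 / lam + p1 + p2) < η) :
    SlabsOK C₀ l (fun i z => F (ν i) (lam * z)) (fun i => 1 / (lam * ν i)) a b c d η := by
  classical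
  -- the small error
  obtain ⟨ε, hε, hεη⟩ : ∃ ε > 0, N * (1 / lam + p1 + p2 + ε) ≤ η := by
    rcases Nat.eq_zero_or_pos N with rfl | hN
    · exact ⟨1, one_pos, by simpa using hη.le⟩
    · have hN' : (0 : ℝ) < N := by exact_mod_cast hN
      refine ⟨(η - N * (1 / lam + p1 + p2)) / N, by have := sub_pos.2 hη; positivity, ?_⟩
      rw [mul_add, mul_div_cancel₀ _ hN'.ne']
      linarith
  have hs : ∀ z : ℂ, ∀ u v : ℝ, z ∈ Icc a b ×ℂ Icc u v → (lam : ℂ) * z ∈ Icc (lam * a) (lam * b) ×ℂ Icc (lam * u) (lam * v) := by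
    intro z u v hz
    rw [mem_reProdIm] at hz ⊢
    have er : ((lam : ℂ) * z).re = lam * z.re := by simp
    have ei : ((lam : ℂ) * z).im = lam * z.im := by simp
    rw [er, ei]
    exact ⟨⟨by gcongr; exact hz.1.1, by gcongr; exact hz.1.2⟩, by gcongr; exact hz.2.1, by gcongr; exact hz.2.2⟩
  refine slabsOK_of_ladder (n := N) (w := fun k => V k / lam) (p := fun _ => 1 / lam + p1 + p2 + ε) hcd ?_ ?_ ?_ ?_ ?_ ?_
  · rw [div_le_iff₀ hlam]; linarith
  · rw [le_div_iff₀ hlam]; linarith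
  · intro k hk
    have := Vmono k hk
    show V k / lam ≤ V (k + 1) / lam
    gcongr
  · intro k _; positivity
  · rw [Finset.sum_const, Finset.card_range, nsmul_eq_mul]
    exact hεη
  · intro k hk
    rcases h k hk with hth | heng
    · refine Or.inl ⟨?_, ?_⟩
      · show V (k + 1) / lam - V k / lam ≤ _
        rw [← sub_div]
        have : (V (k + 1) - V k) / lam ≤ 1 / lam := by gcongr
        linarith
      · filter_upwards [hν.eventually (hmod ε hε)] with i hi x hx u hu v hv huv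
        have m1 : (lam : ℂ) * (x + u * I) ∈ Icc (lam * a) (lam * b) ×ℂ Icc (lam * c) (lam * d) :=
          hs _ c d (by rw [mem_reProdIm]; simp [hx.1, hx.2, hu.1, hu.2])
        have m2 : (lam : ℂ) * (x + v * I) ∈ Icc (lam * a) (lam * b) ×ℂ Icc (lam * c) (lam * d) :=
          hs _ c d (by rw [mem_reProdIm]; simp [hx.1, hx.2, hv.1, hv.2])
        refine (hi _ m1 _ m2 ?_).trans ?_
        · have e : (lam : ℂ) * (x + u * I) - lam * (x + v * I) = ((lam * (u - v) : ℝ) : ℂ) * I := by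
            push_cast; ring
          rw [dist_eq_norm, e, norm_mul, norm_I, mul_one, norm_real, Real.norm_eq_abs, abs_mul, abs_of_pos hlam]
          have h3 : lam * |u - v| ≤ lam * (V (k + 1) / lam - V k / lam) := by gcongr
          have h4 : lam * (V (k + 1) / lam - V k / lam) = V (k + 1) - V k := by field_simp
          linarith
        · have : 0 < 1 / lam := by positivity
          linarith
    · refine Or.inr fun κ hκ => ?_
      obtain ⟨K, κ', hκ', hK0, hKt, hev⟩ := heng (lam * κ) (by positivity)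
      refine ⟨fun i => K (ν i), κ' / lam, by positivity, Eventually.of_forall fun i => hK0 _, ?_, ?_⟩
      · have h1 : Tendsto (fun i => K (ν i) * (1 / (ν i : ℝ)) ^ (1 / 5 : ℝ)) l (𝓝 0) := hKt.comp hν
        have h2 := h1.mul_const ((1 / lam) ^ (1 / 5 : ℝ))
        rw [zero_mul] at h2
        refine h2.congr fun i => ?_
        rw [mul_assoc, ← Real.mul_rpow (by positivity) (by positivity)]
        congr 2
        rw [one_div_mul_one_div, mul_comm]
      · filter_upwards [hν.eventually (hev ε hε)] with i hi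
        obtain ⟨A, hA1, hA2⟩ := hi
        have hin : ∀ z ∈ Icc a b ×ℂ Icc (V k / lam + κ) (V (k + 1) / lam - κ),
            (lam : ℂ) * z ∈ Icc (lam * a) (lam * b) ×ℂ Icc (V k + lam * κ) (V (k + 1) - lam * κ) := by
          intro z hz
          have := hs _ _ _ hz
          have e1 : lam * (V k / lam + κ) = V k + lam * κ := by field_simp
          have e2 : lam * (V (k + 1) / lam - κ) = V (k + 1) - lam * κ := by field_simp
          rwa [e1, e2] at this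
        refine ⟨fun z => A (lam * z), fun z hz => ?_, ?_⟩
        · refine (hA2 _ (hin z hz)).trans ?_
          have : 0 < 1 / lam := by positivity
          linarith
        · have := hA1.scale hlam hin
          rwa [div_div, mul_comm (ν i : ℝ) lam] at this

end Full
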