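import Pool.Agent.Full.Asm.L7S
import Pool.Agent.Full.Comb.Ana

/-!
# FULL, assembly: the contour sums of the observable of a shape
-/

set_option autoImplicit false

namespace Full

open Complex Set Filter Topology Metric Eng Shape

/-- a Hölder modulus of continuity (up to arbitrarily small errors) gives asymptotic equicontinuity -/
theorem AEC_of_holder {ι : Type*} {l : Filter ι} {K : Set ℂ} {F : ι → ℂ → ℂ} {C c R : ℝ} (hc : 0 < c)
    (hR : 0 < R) (h : ∀ ε > 0, ∀ᶠ i in l, ∀ z ∈ K, ∀ w ∈ K, dist z w ≤ R → ‖F i z - F i w‖ ≤ C * (dist z w / R) ^ c + ε) :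
    AEC l K F := by
  intro ε hε
  have ht : Tendsto (fun x : ℝ => C * x ^ c) (𝓝[≥] 0) (𝓝 0) := by
    have h1 : ContinuousAt (fun x : ℝ => C * x ^ c) 0 :=
      (Real.continuousAt_rpow_const 0 c (Or.inr hc.le)).const_mul C
    have h2 := h1.tendsto
    simp only [Real.zero_rpow hc.ne', mul_zero] at h2
    exact h2.mono_left nhdsWithin_le_nhds
  have hev : ∀ᶠ x in 𝓝[≥] (0 : ℝ), C * x ^ c < ε / 2 := ht.eventually (gt_mem_nhds (by positivity))
  obtain ⟨δ, hδ, hδ'⟩ := mem_nhdsGE_iff_exists_Ico_subset.1 hev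
  have hδ0 : (0 : ℝ) < δ := hδ
  refine ⟨min (δ * R) R, by positivity, ?_⟩
  filter_upwards [h (ε / 2) (by positivity)] with i hi z hz w hw hzw
  have h1 : dist z w < δ * R := hzw.trans_le (min_le_left _ _)
  have h2 : dist z w ≤ R := hzw.le.trans (min_le_right _ _)
  have h3 := hi z hz w hw h2
  have h4 : dist z w / R ∈ Ico (0 : ℝ) δ := ⟨by positivity, by rw [div_lt_iff₀ hR]; exact h1⟩
  have h5 : C * (dist z w / R) ^ c < ε / 2 := hδ' h4
  rw [dist_eq_norm]
  linarith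

/-- the contour sums from the slabs -/
theorem dcont_le_of_slabsOK {ι : Type*} {l : Filter ι} {F : ι → ℂ → ℂ} {δ : ι → ℝ} (hδ0 : ∀ᶠ i in l, 0 < δ i)
    (hδ : Tendsto δ l (𝓝 0)) {a b b' c d : ℝ} (hab : a ≤ b) (hb : b < b') (hcd : c ≤ d)
    (heq : AEC l (Icc a b' ×ℂ Icc c d) F) {B : ℝ} (hB : ∀ᶠ i in l, ∀ z ∈ Icc a b' ×ℂ Icc c d, ‖F i z‖ ≤ B)
    (hB0 : 0 ≤ B) {C₀ : ℝ} (hC : 1 ≤ C₀) {η₁ : ℝ} (h : SlabsOK C₀ l F δ a b' c d η₁) {η : ℝ} (hη : 0 < η) :
    ∀ᶠ i in l, ‖dcont (δ i) (F i) a b c d‖ ≤ 2 * ((b - a) + (d - c) + B) * η₁ + η := by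
  obtain ⟨n, v, p, v0, vn, vmono, hp0, hsum, hk⟩ := h
  have e : b + (b' - b) = b' := by ring
  have key := dcont_le_of_engine (l := l) (F := F) (δ := δ) hδ0 hδ (a := a) (b := b) (c := c) (d := d) (r := b' - b) hab hcd
    (by linarith) (by rw [e]; exact heq) (by rw [e]; exact hB) v0 vn vmono hp0 hC (fun k hkn => by
      rcases hk k hkn with ⟨h1, h2⟩ | h1
      · exact Or.inl ⟨h1, fun x hx => h2 x ⟨hx.1, hx.2.trans hb.le⟩⟩
      · rw [e]; exact Or.inr h1) hη
  filter_upwards [key] with i hi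
  refine hi.trans ?_
  have : 0 ≤ (b - a) + (d - c) + B := by linarith
  gcongr

/-- **the contour sums of the observable of a shape**, in the coordinates `z / lam` of the coarse polygon -/
theorem dcont_le_of_shape (h1 : S1) (h2 : S2) : ∃ C c : ℝ, 0 ≤ C ∧ 0 < c ∧ ∀ (S : Shape), S.Ok →
    ∀ m : S.Marks, m.Ok → ∀ A : ℝ, 1 ≤ A → S.Chan m A → ∀ lam R : ℝ, 0 < lam → 2 ≤ R →
    ∀ a b b' c' d : ℝ, a ≤ b → b < b' → c' ≤ d →
    (∀ z ∈ Icc (lam * a) (lam * b') ×ℂ Icc (lam * c') (lam * d), closedBall z R ⊆ S.dom) →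
    ∀ (N : ℕ) (V : ℕ → ℝ), V 0 ≤ lam * c' → lam * d ≤ V N → (∀ k < N, V k ≤ V (k + 1)) →
    (∀ k < N, V (k + 1) - V k ≤ 1 ∨ ∃ r : S.R, V k = S.yb (.inl r) ∧ V (k + 1) = S.yt (.inl r) ∧
      (S.xl (.inl r) + A * (S.yt (.inl r) - S.yb (.inl r)) ≤ lam * a) ∧
      lam * b' ≤ S.xr (.inl r) - A * (S.yt (.inl r) - S.yb (.inl r))) →
    ∀ η : ℝ, 2 * ((b - a) + (d - c') + 3) *
      (N * (1 / lam + C * (1 / R) ^ c + C * Fintype.card S.R * Real.exp (-(c * A)))) < η →
    ∀ᶠ n : ℕ in atTop, ‖dcont (1 / (lam * n)) (fun z => F m n (lam * z)) a b c' d‖ ≤ η := by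
  obtain ⟨C₀, C, c, hC₀, hC, hc, h⟩ := slabsOK_of_shape h1 h2
  obtain ⟨C2, c2, hc2, h2⟩ := h2
  refine ⟨C, c, hC, hc, ?_⟩
  intro S hS m hm A hA hch lam R hlam hR a b b' c' d hab hb hcd hball N V V0 Vn Vmono hV η hη
  have hR0 : 0 < R := by linarith
  set P := 2 * ((b - a) + (d - c') + 3) with hP
  have hP0 : 0 < P := by rw [hP]; linarith
  set X := N * (1 / lam + C * (1 / R) ^ c + C * Fintype.card S.R * Real.exp (-(c * A))) with hX
  have hgap : 0 < η - P * X := by linarith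
  -- slightly larger error
  have hs := h S hS m hm A hA hch lam R hlam hR (l := atTop) (ν := fun n : ℕ => n) tendsto_id a b' c' d hcd hball N V V0 Vn
    Vmono hV (X + (η - P * X) / (2 * P)) (by
      have : 0 < (η - P * X) / (2 * P) := by positivity
      linarith)
  have hδ0 : ∀ᶠ n : ℕ in atTop, 0 < 1 / (lam * (n : ℝ)) := by
    filter_upwards [eventually_gt_atTop 0] with n hn
    have : (0 : ℝ) < n := by exact_mod_cast hn
    positivity
  have hδ : Tendsto (fun n : ℕ => 1 / (lam * (n : ℝ))) atTop (𝓝 0) :=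
    tendsto_const_nhds.div_atTop (tendsto_natCast_atTop_atTop.const_mul_atTop hlam)
  have hsc : ∀ z ∈ Icc a b' ×ℂ Icc c' d, (lam : ℂ) * z ∈ Icc (lam * a) (lam * b') ×ℂ Icc (lam * c') (lam * d) := by
    intro z hz
    rw [mem_reProdIm] at hz ⊢
    have er : ((lam : ℂ) * z).re = lam * z.re := by simp
    have ei : ((lam : ℂ) * z).im = lam * z.im := by simp
    rw [er, ei]
    exact ⟨⟨by gcongr; exact hz.1.1, by gcongr; exact hz.1.2⟩, by gcongr; exact hz.2.1, by gcongr; exact hz.2.2⟩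
  have haec : AEC atTop (Icc a b' ×ℂ Icc c' d) fun (n : ℕ) z => F m n (lam * z) := by
    refine AEC_of_holder (C := max C2 0) (c := c2) (R := R / 2 / lam) hc2 (by positivity) fun ε hε => ?_
    filter_upwards [h2 S hS m hm R (by linarith) ε hε] with n hn z hz w hw hzw
    have hd : dist ((lam : ℂ) * z) (lam * w) = lam * dist z w := by
      rw [dist_eq_norm, ← mul_sub, norm_mul, norm_real, Real.norm_eq_abs, abs_of_pos hlam, dist_eq_norm]
    have h3 := hn ((lam : ℂ) * z) (lam * w) (hball _ (hsc z hz)) (by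
      rw [hd]; rw [le_div_iff₀ hlam] at hzw; linarith)
    refine h3.trans ?_
    rw [hd]
    have h4 : lam * dist z w / R ≤ dist z w / (R / 2 / lam) := by
      rw [div_div, div_div_eq_mul_div, div_le_div_iff_of_pos_right hR0]
      have : 0 ≤ dist z w := dist_nonneg
      nlinarith
    have h5 : (lam * dist z w / R) ^ c2 ≤ (dist z w / (R / 2 / lam)) ^ c2 :=
      Real.rpow_le_rpow (by positivity) h4 hc2.le
    have h6 : 0 ≤ (lam * dist z w / R) ^ c2 := by positivity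
    have h7 : C2 * (lam * dist z w / R) ^ c2 ≤ max C2 0 * (dist z w / (R / 2 / lam)) ^ c2 :=
      mul_le_mul (le_max_left _ _) h5 h6 (le_max_right _ _)
    linarith
  have key := dcont_le_of_slabsOK (F := fun (n : ℕ) z => F m n (lam * z)) hδ0 hδ hab hb hcd haec (B := 3)
    (Eventually.of_forall fun n z _ => norm_F_le m n _) (by norm_num) hC₀ hs (η := (η - P * X) / 2) (by positivity)
  filter_upwards [key] with n hn
  refine hn.trans (le_of_eq ?_)
  rw [← hP]
  field_simp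
  ring

end Full
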