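import Pool.Agent.Full.Asm.Margin

/-!
# FULL, assembly: discrete contour sums

`dcont t f a b c d` is the discrete contour sum of `f` over the boundary of `[a, b] × [c, d]` with mesh `t`.
It converges to the contour integral for asymptotically equicontinuous families.
-/

set_option autoImplicit false

namespace Full

open Complex Set Filter Topology Metric MeasureTheory intervalIntegral
open scoped Interval

/-- the discrete contour sum -/
noncomputable def dcont (t : ℝ) (f : ℂ → ℂ) (a b c d : ℝ) : ℂ :=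
  t * ∑ j ∈ Finset.range ⌊(b - a) / t⌋₊, f (((a + j * t : ℝ) : ℂ) + (c : ℂ) * I) -
    t * ∑ j ∈ Finset.range ⌊(b - a) / t⌋₊, f (((a + j * t : ℝ) : ℂ) + ((c + ⌊(d - c) / t⌋₊ * t : ℝ) : ℂ) * I) +
    I * (t * ∑ k ∈ Finset.range ⌊(d - c) / t⌋₊, f (((a + ⌊(b - a) / t⌋₊ * t : ℝ) : ℂ) + ((c + k * t : ℝ) : ℂ) * I) -
      t * ∑ k ∈ Finset.range ⌊(d - c) / t⌋₊, f ((a : ℂ) + ((c + k * t : ℝ) : ℂ) * I))

/-- comparison with the contour integral -/
theorem dcont_close {f G : ℂ → ℂ} {a b c d t ε C : ℝ} (hab : a ≤ b) (hcd : c ≤ d) (ht : 0 < t) (hε : 0 ≤ ε)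
    (hGR : ContinuousOn G ([[a, b]] ×ℂ [[c, d]])) (hC : ∀ z ∈ [[a, b]] ×ℂ [[c, d]], ‖G z‖ ≤ C)
    (hω : ∀ z ∈ [[a, b]] ×ℂ [[c, d]], ∀ w ∈ [[a, b]] ×ℂ [[c, d]], dist z w ≤ t → ‖G z - G w‖ ≤ ε)
    (hf : ∀ z ∈ [[a, b]] ×ℂ [[c, d]], ‖f z - G z‖ ≤ ε) :
    ‖dcont t f a b c d - bint G a b c d‖ ≤ 6 * ε * ((b - a) + (d - c)) + 4 * C * t := by
  have hC0 : 0 ≤ C := (norm_nonneg _).trans (hC _ (mem_rect left_mem_uIcc left_mem_uIcc))
  set M := ⌊(b - a) / t⌋₊ with hM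
  set M' := ⌊(d - c) / t⌋₊ with hM'
  have hba : 0 ≤ (b - a) / t := div_nonneg (by linarith) ht.le
  have hdc : 0 ≤ (d - c) / t := div_nonneg (by linarith) ht.le
  have m1 : (M : ℝ) * t ≤ b - a := by
    have := Nat.floor_le hba
    rwa [le_div_iff₀ ht] at this
  have m2 : b - a ≤ ((M : ℝ) + 1) * t := by
    have := (Nat.lt_floor_add_one ((b - a) / t)).le
    rwa [div_le_iff₀ ht] at this
  have m3 : (M' : ℝ) * t ≤ d - c := by
    have := Nat.floor_le hdc
    rwa [le_div_iff₀ ht] at this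
  have m4 : d - c ≤ ((M' : ℝ) + 1) * t := by
    have := (Nat.lt_floor_add_one ((d - c) / t)).le
    rwa [div_le_iff₀ ht] at this
  have inx : ∀ j : ℕ, j ≤ M → a + j * t ∈ [[a, b]] := by
    intro j hj
    have h5 : (j : ℝ) * t ≤ M * t := by
      have : (j : ℝ) ≤ M := by exact_mod_cast hj
      gcongr
    rw [uIcc_of_le hab]
    constructor
    · have : 0 ≤ (j : ℝ) * t := by positivity
      linarith
    · linarith
  have iny : ∀ k : ℕ, k ≤ M' → c + k * t ∈ [[c, d]] := by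
    intro j hj
    have h5 : (j : ℝ) * t ≤ M' * t := by
      have : (j : ℝ) ≤ M' := by exact_mod_cast hj
      gcongr
    rw [uIcc_of_le hcd]
    constructor
    · have : 0 ≤ (j : ℝ) * t := by positivity
      linarith
    · linarith
  have bd : ∀ z ∈ [[a, b]] ×ℂ [[c, d]], ∀ w ∈ [[a, b]] ×ℂ [[c, d]], dist z w ≤ t → ‖f z - G w‖ ≤ 2 * ε := by
    intro z hz w hw hzw
    have q1 := hf z hz
    have q2 := hω z hz w hw hzw
    calc ‖f z - G w‖ = ‖(f z - G z) + (G z - G w)‖ := by congr 1; ring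
      _ ≤ ε + ε := (norm_add_le _ _).trans (add_le_add q1 q2)
      _ = 2 * ε := by ring
  have icc1 : Icc a b = [[a, b]] := (uIcc_of_le hab).symm
  have icc2 : Icc c d = [[c, d]] := (uIcc_of_le hcd).symm
  have dx : ∀ x x' : ℝ, ∀ y : ℝ, dist ((x : ℂ) + y * I) ((x' : ℂ) + y * I) = |x - x'| := by
    intro x x' y
    rw [dist_eq_norm, add_sub_add_right_eq_sub, ← ofReal_sub, Complex.norm_real, Real.norm_eq_abs]
  have dy : ∀ x : ℝ, ∀ y y' : ℝ, dist ((x : ℂ) + y * I) ((x : ℂ) + y' * I) = |y - y'| := by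
    intro x y y'
    rw [dist_eq_norm, add_sub_add_left_eq_sub, ← sub_mul, ← ofReal_sub, norm_mul, norm_I, mul_one,
      Complex.norm_real, Real.norm_eq_abs]
  have hω' : ∀ z ∈ [[a, b]] ×ℂ [[c, d]], ∀ w ∈ [[a, b]] ×ℂ [[c, d]], dist z w ≤ t → ‖G z - G w‖ ≤ 2 * ε / 2 := by
    intro z hz w hw hzw
    have := hω z hz w hw hzw
    linarith
  have hor : ∀ y ∈ [[c, d]], ∀ y' ∈ [[c, d]], |y' - y| ≤ t →
      ‖t * ∑ j ∈ Finset.range M, f (((a + j * t : ℝ) : ℂ) + (y' : ℂ) * I) - ∫ x in a..b, G (x + y * I)‖ ≤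
        (b - a) * (2 * ε + 2 * ε / 2) + C * t := by
    intro y hy y' hy' hyy
    refine row_sum (g := fun x => G (x + y * I)) (φ := fun x => f (x + y' * I)) ht (by linarith)
      (by linarith) (by linarith) ?_ ?_ ?_ ?_
    · rw [icc1]; exact hor_cont hGR hy
    · intro x hx x' hx' hxx
      rw [icc1] at hx hx'
      exact hω' _ (mem_rect hx hy) _ (mem_rect hx' hy) (by rw [dx]; exact hxx)
    · intro x hx
      rw [icc1] at hx
      exact hC _ (mem_rect hx hy)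
    · intro j hj
      exact bd _ (mem_rect (inx j hj.le) hy') _ (mem_rect (inx j hj.le) hy) (by rw [dy]; exact hyy)
  have ver : ∀ x ∈ [[a, b]], ∀ x' ∈ [[a, b]], |x' - x| ≤ t →
      ‖t * ∑ k ∈ Finset.range M', f ((x' : ℂ) + ((c + k * t : ℝ) : ℂ) * I) - ∫ y in c..d, G (x + y * I)‖ ≤
        (d - c) * (2 * ε + 2 * ε / 2) + C * t := by
    intro x hx x' hx' hxx
    refine row_sum (g := fun y => G (x + y * I)) (φ := fun y => f (x' + y * I)) ht (by linarith)
      (by linarith) (by linarith) ?_ ?_ ?_ ?_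
    · rw [icc2]; exact ver_cont hGR hx
    · intro y hy y' hy' hyy
      rw [icc2] at hy hy'
      exact hω' _ (mem_rect hx hy) _ (mem_rect hx hy') (by rw [dy]; exact hyy)
    · intro y hy
      rw [icc2] at hy
      exact hC _ (mem_rect hx hy)
    · intro j hj
      exact bd _ (mem_rect hx' (iny j hj.le)) _ (mem_rect hx (iny j hj.le)) (by rw [dx]; exact hxx)
  have q1 := hor c left_mem_uIcc c left_mem_uIcc (by simpa using ht.le)
  have q2 := hor d right_mem_uIcc (c + M' * t) (iny M' le_rfl) (by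
    rw [abs_sub_comm, abs_of_nonneg (by linarith)]; linarith)
  have q3 := ver b right_mem_uIcc (a + M * t) (inx M le_rfl) (by
    rw [abs_sub_comm, abs_of_nonneg (by linarith)]; linarith)
  have q4 := ver a left_mem_uIcc a left_mem_uIcc (by simpa using ht.le)
  have e : dcont t f a b c d - bint G a b c d =
      (t * ∑ j ∈ Finset.range M, f (((a + j * t : ℝ) : ℂ) + (c : ℂ) * I) - ∫ x in a..b, G (x + c * I)) -
      (t * ∑ j ∈ Finset.range M, f (((a + j * t : ℝ) : ℂ) + ((c + M' * t : ℝ) : ℂ) * I) - ∫ x in a..b, G (x + d * I)) +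
      I * (t * ∑ k ∈ Finset.range M', f (((a + M * t : ℝ) : ℂ) + ((c + k * t : ℝ) : ℂ) * I) - ∫ y in c..d, G (b + y * I)) -
      I * (t * ∑ k ∈ Finset.range M', f ((a : ℂ) + ((c + k * t : ℝ) : ℂ) * I) - ∫ y in c..d, G (a + y * I)) := by
    rw [bint, dcont]; ring
  rw [e]
  have n1 : ∀ x y z u : ℂ, ‖x - y + I * z - I * u‖ ≤ ‖x‖ + ‖y‖ + ‖z‖ + ‖u‖ := by
    intro x y z u
    calc ‖x - y + I * z - I * u‖ ≤ ‖x - y + I * z‖ + ‖I * u‖ := norm_sub_le _ _
      _ ≤ ‖x - y‖ + ‖I * z‖ + ‖I * u‖ := by gcongr; exact norm_add_le _ _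
      _ ≤ ‖x‖ + ‖y‖ + ‖I * z‖ + ‖I * u‖ := by gcongr; exact norm_sub_le _ _
      _ = _ := by rw [norm_mul, norm_mul, norm_I, one_mul, one_mul]
  refine (n1 _ _ _ _).trans ?_
  linarith

/-- the discrete contour sums converge to the contour integral -/
theorem dcont_tendsto {ι : Type*} {l : Filter ι} {F : ι → ℂ → ℂ} {δ : ι → ℝ} (hδ0 : ∀ᶠ i in l, 0 < δ i)
    (hδ : Tendsto δ l (𝓝 0)) {G : ℂ → ℂ} {a b c d : ℝ} (hab : a ≤ b) (hcd : c ≤ d)
    (heq : AEC l ([[a, b]] ×ℂ [[c, d]]) F) (hG : ∀ z ∈ [[a, b]] ×ℂ [[c, d]], Tendsto (fun i => F i z) l (𝓝 (G z)))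
    (hGR : ContinuousOn G ([[a, b]] ×ℂ [[c, d]])) : Tendsto (fun i => dcont (δ i) (F i) a b c d) l (𝓝 (bint G a b c d)) := by
  have hK : IsCompact ([[a, b]] ×ℂ [[c, d]]) := isCompact_uIcc.reProdIm isCompact_uIcc
  obtain ⟨C, hC⟩ := hK.exists_bound_of_continuousOn hGR
  have hC0 : 0 ≤ C := (norm_nonneg _).trans (hC _ (mem_rect left_mem_uIcc left_mem_uIcc))
  rw [Metric.tendsto_nhds]
  intro η hη
  set L := (b - a) + (d - c) with hL
  have hL0 : 0 ≤ L := by linarith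
  set ε := η / (24 * (L + 1)) with hε
  have hε0 : 0 < ε := by positivity
  have hunif := unif_of_AEC hK heq (fun z hz => hG z hz) hGR hε0
  obtain ⟨δ', hδ', h'⟩ : ∃ δ' > 0, ∀ z ∈ [[a, b]] ×ℂ [[c, d]], ∀ w ∈ [[a, b]] ×ℂ [[c, d]], dist z w < δ' →
      dist (G z) (G w) < ε := by
    have := hK.uniformContinuousOn_of_continuous hGR
    rw [Metric.uniformContinuousOn_iff] at this
    obtain ⟨δ', hδ', h'⟩ := this ε hε0
    exact ⟨δ', hδ', fun z hz w hw hzw => h' z hz w hw hzw⟩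
  have hsmall : ∀ᶠ i in l, δ i < min δ' (η / (16 * (C + 1))) := by
    have : 0 < min δ' (η / (16 * (C + 1))) := by positivity
    exact hδ.eventually (gt_mem_nhds this)
  filter_upwards [hδ0, hunif, hsmall] with i h1 h2 h3
  rw [dist_eq_norm]
  have ht1 : δ i < δ' := h3.trans_le (min_le_left _ _)
  have ht2 : δ i < η / (16 * (C + 1)) := h3.trans_le (min_le_right _ _)
  refine (dcont_close hab hcd h1 hε0.le hGR hC (fun z hz w hw hzw => ?_) h2).trans_lt ?_
  · rw [← dist_eq_norm]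
    exact (h' z hz w hw (hzw.trans_lt ht1)).le
  · have hCt : 4 * C * δ i ≤ η / 4 := by
      have : (C + 1) * δ i ≤ η / 16 := by
        rw [lt_div_iff₀ (by positivity)] at ht2
        linarith
      nlinarith
    have hεL : 6 * ε * L ≤ η / 4 := by
      rw [hε]
      calc 6 * (η / (24 * (L + 1))) * L = η / 4 * (L / (L + 1)) := by field_simp; ring
        _ ≤ η / 4 * 1 := by
          have : L / (L + 1) ≤ 1 := (div_le_one (by positivity)).2 (by linarith)
          gcongr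
        _ = η / 4 := by ring
    rw [← hL]
    linarith

/-- **small discrete contour sums imply holomorphy** -/
theorem holo_of_dcont {ι : Type*} {l : Filter ι} [l.NeBot] {U : Set ℂ} (hU : IsOpen U) {F : ι → ℂ → ℂ}
    {δ : ι → ℝ} (hδ0 : ∀ᶠ i in l, 0 < δ i) (hδ : Tendsto δ l (𝓝 0))
    (heq : ∀ K ⊆ U, IsCompact K → AEC l K F) {G : ℂ → ℂ}
    (hG : ∀ z ∈ U, Tendsto (fun i => F i z) l (𝓝 (G z)))
    (h : ∀ a b c d : ℝ, a < b → c < d → Icc a b ×ℂ Icc c d ⊆ U → ∀ η > 0, ∃ᶠ i in l, ‖dcont (δ i) (F i) a b c d‖ ≤ η) :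
    DifferentiableOn ℂ G U := by
  have hGc := contOn_of_AEC hU heq hG
  refine holo_of_bint hU hGc fun a b c d hab hcd hR => ?_
  rcases hab.eq_or_lt with rfl | hab'
  · rw [bint]; simp
  rcases hcd.eq_or_lt with rfl | hcd'
  · rw [bint]; simp
  have hK : IsCompact ([[a, b]] ×ℂ [[c, d]]) := isCompact_uIcc.reProdIm isCompact_uIcc
  have key := dcont_tendsto hδ0 hδ hab hcd (heq _ hR hK) (fun z hz => hG z (hR hz)) (hGc.mono hR)
  rw [← norm_eq_zero]
  refine le_antisymm (le_of_forall_pos_le_add fun η hη => ?_) (norm_nonneg _)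
  rw [zero_add]
  have h1 := h a b c d hab' hcd' (by rw [← uIcc_of_le hab, ← uIcc_of_le hcd]; exact hR) (η / 2) (by positivity)
  have h2 : ∀ᶠ i in l, dist (dcont (δ i) (F i) a b c d) (bint G a b c d) < η / 2 :=
    Metric.tendsto_nhds.1 key _ (by positivity)
  obtain ⟨i, h3, h4⟩ := (h1.and_eventually h2).exists
  rw [dist_eq_norm] at h4
  calc ‖bint G a b c d‖ = ‖dcont (δ i) (F i) a b c d - (dcont (δ i) (F i) a b c d - bint G a b c d)‖ := by congr 1; ring
    _ ≤ η / 2 + η / 2 := (norm_sub_le _ _).trans (add_le_add h3 h4.le)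
    _ = η := by ring

end Full
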