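import Pool.Agent.Full.Asm.Margin
import Pool.Agent.Full.Eng.CR

/-!
# FULL, assembly: engine amplitudes on slabs imply holomorphy

`EngAmp C₀ κ K δ S A`: on the set `S` the function `A` is an amplitude `O T_u(π/6)^a W_x T_l(π/6)^b I` with at least `κ/δ`
rows above and below and `K` a bound for the product of the norms of the two environments.  `EngMix`: a constant plus a
finite mixture of such amplitudes.
-/

set_option autoImplicit false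

namespace Full

open Complex Set Filter Topology Metric Matrix Eng

open scoped Matrix.Norms.L2Operator Interval

/-- on `S` the function `A` is an amplitude of the engine -/
def EngAmp (C₀ κ K δ : ℝ) (S : Set ℂ) (A : ℂ → ℂ) : Prop :=
  ∃ (J L : Type) (_ : Fintype J) (_ : Fintype L) (_ : DecidableEq J) (_ : DecidableEq L) (N : ℕ)
    (Tu : ℂ → Matrix J J ℂ) (Tl : ℂ → Matrix L L ℂ) (W : Matrix J L ℂ) (O : Matrix Unit J ℂ) (Iv : Matrix L Unit ℂ)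
    (x₀ y₀ : ℝ) (top bot : ℕ),
    Row N Tu ∧ Row N Tl ∧ ‖W‖ ≤ C₀ ∧
    (∀ u : ℂ, |u.re - Real.pi / 6| = Real.pi / 6 → ‖W * Tl u - Tu u * W‖ ≤ C₀ * min 1 (Real.exp (-u.im))) ∧
    κ ≤ N * δ ∧
    (∀ p q : ℕ, κ / 4 ≤ p * δ → κ / 4 ≤ q * δ → p ≤ top → q ≤ top + bot →
      ‖O * Tu ((Real.pi / 6 : ℝ) : ℂ) ^ p‖ * ‖Tl ((Real.pi / 6 : ℝ) : ℂ) ^ q * Iv‖ ≤ K) ∧
    ∀ z ∈ S, x₀ ≤ z.re ∧ y₀ ≤ z.im ∧ ⌊(z.im - y₀) / δ⌋₊ ≤ top ∧ κ ≤ (top - ⌊(z.im - y₀) / δ⌋₊ : ℝ) * δ ∧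
      κ ≤ (bot + ⌊(z.im - y₀) / δ⌋₊ : ℝ) * δ ∧
      A z = Fo Tu Tl W O Iv ⌊(z.re - x₀) / δ⌋₊ (top - ⌊(z.im - y₀) / δ⌋₊) (bot + ⌊(z.im - y₀) / δ⌋₊) () ()

/-- the average over two neighbouring columns -/
noncomputable def avg2 (δ : ℝ) (A : ℂ → ℂ) (z : ℂ) : ℂ := 1 / 2 * (A z + A (z + δ))

lemma norm_entry_unit {P Q : Type*} [Fintype P] [Fintype Q] [DecidableEq P] [DecidableEq Q] (A : Matrix P Q ℂ) (i : P) (j : Q) : ‖A i j‖ ≤ ‖A‖ :=
  norm_entry A i j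

/-- **the discrete Cauchy-Riemann equation for amplitudes** -/
theorem EngAmp.cr {C₀ κ K δ : ℝ} {S : Set ℂ} {A : ℂ → ℂ} (h : EngAmp C₀ κ K δ S A) (hC : 1 ≤ C₀) (hδ : 0 < δ)
    (hκ : 160 * δ ≤ κ) {z : ℂ} (h0 : z ∈ S) (h1 : z + δ ∈ S) (h2 : z + δ + δ ∈ S) (h3 : z + δ * I ∈ S)
    (h4 : z + δ * I + δ ∈ S) :
    ‖avg2 δ A (z + δ * I) - avg2 δ A z - I * (avg2 δ A (z + δ) - avg2 δ A z)‖ ≤
      K * (Ce (2 * C₀) * (160 * (δ / κ)) ^ (6 / 5 : ℝ)) := by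
  obtain ⟨J, L, _, _, _, _, N, Tu, Tl, W, O, Iv, x₀, y₀, top, bot, Ru, Rl, hW, hG, hN, hK, hA⟩ := h
  obtain ⟨a1, a2, a3, a4, a5, a6⟩ := hA z h0
  obtain ⟨-, -, -, -, -, b6⟩ := hA _ h1
  obtain ⟨-, -, -, -, -, c6⟩ := hA _ h2
  obtain ⟨-, -, d3, d4, -, d6⟩ := hA _ h3
  obtain ⟨-, -, -, -, -, e6⟩ := hA _ h4
  have hκ0 : 0 < κ := by linarith
  have hx0 : 0 ≤ (z.re - x₀) / δ := div_nonneg (by linarith) hδ.le
  have hy0 : 0 ≤ (z.im - y₀) / δ := div_nonneg (by linarith) hδ.le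
  set x := ⌊(z.re - x₀) / δ⌋₊ with hx
  set y := ⌊(z.im - y₀) / δ⌋₊ with hy
  have fx1 : ⌊((z + δ).re - x₀) / δ⌋₊ = x + 1 := by
    rw [hx, ← Nat.floor_add_one hx0]
    congr 1
    rw [add_re, ofReal_re]
    field_simp
    ring
  have fx2 : ⌊((z + δ + δ).re - x₀) / δ⌋₊ = x + 2 := by
    have : x + 2 = ⌊(z.re - x₀) / δ + 1 + 1⌋₊ := by
      rw [Nat.floor_add_one (by linarith), Nat.floor_add_one hx0]
    rw [this]
    congr 1
    rw [add_re, add_re, ofReal_re]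
    field_simp
    ring
  have fx3 : ⌊((z + δ * I).re - x₀) / δ⌋₊ = x := by
    rw [hx]; simp
  have fx4 : ⌊((z + δ * I + δ).re - x₀) / δ⌋₊ = x + 1 := by
    rw [← fx1]
    congr 2
    simp
  have fy1 : ⌊((z + δ).im - y₀) / δ⌋₊ = y := by
    rw [hy]; simp
  have fy2 : ⌊((z + δ + δ).im - y₀) / δ⌋₊ = y := by
    rw [hy]; simp
  have fy3 : ⌊((z + δ * I).im - y₀) / δ⌋₊ = y + 1 := by
    rw [hy, ← Nat.floor_add_one hy0]
    congr 1
    simp
    field_simp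
    ring
  have fy4 : ⌊((z + δ * I + δ).im - y₀) / δ⌋₊ = y + 1 := by
    rw [← fy3]
    congr 2
    simp
  rw [fx1, fy1] at b6
  rw [fx2, fy2] at c6
  rw [fx3, fy3] at d6
  rw [fy3] at d3 d4
  rw [fx4, fy4] at e6
  push_cast at d4
  -- the number of rows
  set m := ⌊κ / (80 * δ)⌋₊ with hm
  have hq : 0 ≤ κ / (80 * δ) := by positivity
  have m1 : (m : ℝ) * (80 * δ) ≤ κ := by
    have := Nat.floor_le hq
    rwa [le_div_iff₀ (by positivity)] at this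
  have m2 : κ ≤ (m + 1 : ℝ) * (80 * δ) := by
    have := (Nat.lt_floor_add_one (κ / (80 * δ))).le
    rwa [div_le_iff₀ (by positivity)] at this
  have m3 : κ ≤ (m : ℝ) * (160 * δ) := by nlinarith
  have m4 : 1 ≤ m := by
    by_contra hcon
    have : m = 0 := by omega
    rw [this] at m3
    simp at m3
    linarith
  have m5 : 20 * m ≤ N := by
    have : (20 * m : ℝ) * δ ≤ N * δ := by linarith
    have := le_of_mul_le_mul_right this hδ
    exact_mod_cast this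
  -- rows above
  have ht : y + 1 ≤ top := d3
  set a := top - (y + 1) with ha
  have ha' : top - y = a + 1 := by omega
  have haR : (a : ℝ) = top - (y + 1) := by rw [ha, Nat.cast_sub ht]; push_cast; ring
  have n1 : 20 * m ≤ a := by
    have : (20 * m : ℝ) * δ ≤ a * δ := by rw [haR]; linarith
    have := le_of_mul_le_mul_right this hδ
    exact_mod_cast this
  obtain ⟨p, hp⟩ : ∃ p, a = p + 20 * m := ⟨a - 20 * m, by omega⟩
  have hpR : (p : ℝ) = a - 20 * m := by rw [hp]; push_cast; ring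
  -- rows below
  set b := bot + y with hb
  have hbR : (b : ℝ) = bot + y := by rw [hb]; push_cast; ring
  have n2 : 20 * m ≤ b := by
    have : (20 * m : ℝ) * δ ≤ b * δ := by rw [hbR]; linarith
    have := le_of_mul_le_mul_right this hδ
    exact_mod_cast this
  obtain ⟨q, hq'⟩ : ∃ q, b = 20 * m + q := ⟨b - 20 * m, by omega⟩
  have hqR : (q : ℝ) = b - 20 * m := by rw [hq']; push_cast; ring
  have key := Eng.cr Ru Rl hC hW hG m4 m5 O Iv x p q a b hp hq'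
  have hK' := hK p q (by rw [hpR, haR]; nlinarith) (by rw [hqR, hbR]; nlinarith) (by omega) (by omega)
  have hb1 : bot + (y + 1) = b + 1 := by omega
  rw [ha'] at a6 b6 c6
  rw [hb1] at d6 e6
  have e : avg2 δ A (z + δ * I) - avg2 δ A z - I * (avg2 δ A (z + δ) - avg2 δ A z) =
      (Fbar Tu Tl W O Iv x a (b + 1) - Fbar Tu Tl W O Iv x (a + 1) b -
      I • (Fbar Tu Tl W O Iv (x + 1) (a + 1) b - Fbar Tu Tl W O Iv x (a + 1) b)) () () := by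
    unfold avg2 Fbar
    rw [a6, b6, c6, d6, e6]
    simp only [Matrix.sub_apply, Matrix.smul_apply, Matrix.add_apply, smul_eq_mul]
  rw [e]
  refine (norm_entry_unit _ _ _).trans (key.trans ?_)
  have hCe : 0 ≤ Ce (2 * C₀) := Ce_nonneg (by linarith)
  have hm0 : (0 : ℝ) < m := by exact_mod_cast m4
  have hmp : (m : ℝ) ^ (-(6 / 5) : ℝ) ≤ (160 * (δ / κ)) ^ (6 / 5 : ℝ) := by
    rw [Real.rpow_neg hm0.le, ← Real.inv_rpow hm0.le]
    apply Real.rpow_le_rpow (by positivity) _ (by norm_num)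
    rw [inv_eq_one_div, div_le_iff₀ hm0]
    rw [show 160 * (δ / κ) * m = (m * (160 * δ)) / κ by ring, le_div_iff₀ hκ0, one_mul]
    exact m3
  have hx1 := norm_nonneg (O * Tu ((Real.pi / 6 : ℝ) : ℂ) ^ p)
  have hx2 := norm_nonneg (Tl ((Real.pi / 6 : ℝ) : ℂ) ^ q * Iv)
  calc ‖O * Tu ((Real.pi / 6 : ℝ) : ℂ) ^ p‖ * (Ce (2 * C₀) * (m : ℝ) ^ (-(6 / 5) : ℝ)) *
        ‖Tl ((Real.pi / 6 : ℝ) : ℂ) ^ q * Iv‖ =
      (‖O * Tu ((Real.pi / 6 : ℝ) : ℂ) ^ p‖ * ‖Tl ((Real.pi / 6 : ℝ) : ℂ) ^ q * Iv‖) *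
        (Ce (2 * C₀) * (m : ℝ) ^ (-(6 / 5) : ℝ)) := by ring
    _ ≤ K * (Ce (2 * C₀) * (160 * (δ / κ)) ^ (6 / 5 : ℝ)) := by
        have hK0 : 0 ≤ K := (mul_nonneg hx1 hx2).trans hK'
        have hm' : 0 ≤ (m : ℝ) ^ (-(6 / 5) : ℝ) := by positivity
        gcongr

/-- on `S` the function `A` is a constant plus a finite mixture of amplitudes of the engine -/
def EngMix (C₀ κ K δ : ℝ) (S : Set ℂ) (A : ℂ → ℂ) : Prop :=
  ∃ (I : Type) (s : Finset I) (c : ℂ) (w : I → ℂ) (As : I → ℂ → ℂ), ∑ j ∈ s, ‖w j‖ ≤ 1 ∧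
    (∀ j ∈ s, EngAmp C₀ κ K δ S (As j)) ∧ ∀ z ∈ S, A z = c + ∑ j ∈ s, w j * As j z

lemma EngAmp.mix {C₀ κ K δ : ℝ} {S : Set ℂ} {A : ℂ → ℂ} (h : EngAmp C₀ κ K δ S A) : EngMix C₀ κ K δ S A :=
  ⟨Unit, {()}, 0, fun _ => 1, fun _ => A, by simp, fun _ _ => h, by simp⟩

theorem EngMix.cr {C₀ κ K δ : ℝ} {S : Set ℂ} {A : ℂ → ℂ} (h : EngMix C₀ κ K δ S A) (hC : 1 ≤ C₀) (hK : 0 ≤ K) (hδ : 0 < δ)
    (hκ : 160 * δ ≤ κ) {z : ℂ} (h0 : z ∈ S) (h1 : z + δ ∈ S) (h2 : z + δ + δ ∈ S) (h3 : z + δ * I ∈ S)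
    (h4 : z + δ * I + δ ∈ S) :
    ‖avg2 δ A (z + δ * I) - avg2 δ A z - I * (avg2 δ A (z + δ) - avg2 δ A z)‖ ≤
      K * (Ce (2 * C₀) * (160 * (δ / κ)) ^ (6 / 5 : ℝ)) := by
  obtain ⟨ι', s, c, w, As, hw, hs, hA⟩ := h
  have hκ0 : 0 < κ := by linarith
  have hCe : 0 ≤ Ce (2 * C₀) := Ce_nonneg (by linarith)
  have e : avg2 δ A (z + δ * I) - avg2 δ A z - I * (avg2 δ A (z + δ) - avg2 δ A z) =
      ∑ j ∈ s, w j * (avg2 δ (As j) (z + δ * I) - avg2 δ (As j) z - I * (avg2 δ (As j) (z + δ) - avg2 δ (As j) z)) := by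
    unfold avg2
    rw [hA _ h0, hA _ h1, hA _ h2, hA _ h3, hA _ h4]
    simp only [mul_sub, Finset.sum_sub_distrib, mul_add, Finset.sum_add_distrib, Finset.mul_sum]
    have e1 : ∀ f : ι' → ℂ, ∑ j ∈ s, w j * (1 / 2 * f j) = ∑ j ∈ s, 1 / 2 * (w j * f j) := fun f =>
      Finset.sum_congr rfl fun _ _ => by ring
    have e2 : ∀ f : ι' → ℂ, ∑ j ∈ s, w j * (I * (1 / 2 * f j)) = ∑ j ∈ s, I * (1 / 2 * (w j * f j)) := fun f =>
      Finset.sum_congr rfl fun _ _ => by ring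
    simp only [e1, e2]
    ring
  rw [e]
  calc ‖∑ j ∈ s, w j * (avg2 δ (As j) (z + δ * I) - avg2 δ (As j) z - I * (avg2 δ (As j) (z + δ) - avg2 δ (As j) z))‖
      ≤ ∑ j ∈ s, ‖w j‖ * (K * (Ce (2 * C₀) * (160 * (δ / κ)) ^ (6 / 5 : ℝ))) := by
        refine (norm_sum_le _ _).trans (Finset.sum_le_sum fun j hj => ?_)
        rw [norm_mul]
        exact mul_le_mul_of_nonneg_left ((hs j hj).cr hC hδ hκ h0 h1 h2 h3 h4) (norm_nonneg _)
    _ = (∑ j ∈ s, ‖w j‖) * (K * (Ce (2 * C₀) * (160 * (δ / κ)) ^ (6 / 5 : ℝ))) := by rw [Finset.sum_mul]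
    _ ≤ 1 * (K * (Ce (2 * C₀) * (160 * (δ / κ)) ^ (6 / 5 : ℝ))) := by gcongr
    _ = _ := one_mul _

/-- **Contour integrals from engine amplitudes**, one rectangle.  On each slab: either a thin slab, or engine amplitudes. -/
theorem bint_le_of_engine {ι : Type*} {l : Filter ι} [l.NeBot] {F : ι → ℂ → ℂ} {δ : ι → ℝ} (hδ0 : ∀ᶠ i in l, 0 < δ i)
    (hδ : Tendsto δ l (𝓝 0)) {G : ℂ → ℂ} {a b c d r : ℝ} (hab : a ≤ b) (hcd : c ≤ d) (hr : 0 < r)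
    (heq : AEC l (Icc a (b + r) ×ℂ Icc c d) F)
    (hG : ∀ z ∈ Icc a (b + r) ×ℂ Icc c d, Tendsto (fun i => F i z) l (𝓝 (G z)))
    (hGR : ContinuousOn G (Icc a (b + r) ×ℂ Icc c d)) {n : ℕ} {v p : ℕ → ℝ} (v0 : v 0 = c) (vn : v n = d)
    (vmono : ∀ k < n, v k ≤ v (k + 1)) (hp0 : ∀ k < n, 0 ≤ p k) {C₀ : ℝ} (hC : 1 ≤ C₀)
    {B : ℝ} (hB : ∀ z ∈ Icc a (b + r) ×ℂ Icc c d, ‖G z‖ ≤ B)
    (hk : ∀ k < n, (v (k + 1) - v k ≤ p k ∧ ∀ x ∈ Icc a b, ∃ᶠ i in l, ‖F i (x + v k * I) - F i (x + v (k + 1) * I)‖ ≤ p k) ∨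
      ∀ κ > 0, ∃ (K : ι → ℝ) (κ' : ℝ), 0 < κ' ∧ (∀ᶠ i in l, 0 ≤ K i) ∧
        Tendsto (fun i => K i * δ i ^ (1 / 5 : ℝ)) l (𝓝 0) ∧
        ∃ᶠ i in l, ∃ A : ℂ → ℂ,
          (∀ z ∈ Icc a (b + r) ×ℂ Icc (v k + κ) (v (k + 1) - κ), ‖F i z - A z‖ ≤ p k) ∧
          EngMix C₀ κ' (K i) (δ i) (Icc a (b + r) ×ℂ Icc (v k + κ) (v (k + 1) - κ)) A) :
    ‖bint G a b c d‖ ≤ 2 * ((b - a) + (d - c) + B) * ∑ k ∈ Finset.range n, p k := by
  have hRR : [[a, b]] ×ℂ [[c, d]] ⊆ Icc a (b + r) ×ℂ Icc c d := by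
    rw [uIcc_of_le hab, uIcc_of_le hcd]
    intro z hz
    rw [mem_reProdIm] at hz ⊢
    exact ⟨⟨hz.1.1, by linarith [hz.1.2]⟩, hz.2⟩
  refine le_of_forall_pos_le_add fun η hη => ?_
  have hB0 : 0 ≤ B := (norm_nonneg _).trans (hB _ (hRR (mem_rect left_mem_uIcc left_mem_uIcc)))
  set L := (b - a) + (d - c) + B with hL
  have hL0 : 0 ≤ L := by linarith
  have hs0 : 0 < η / (2 * (L + 1) * (n + 1)) := by positivity
  set s := η / (2 * (L + 1) * (n + 1)) with hs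
  have key : ‖bint G a b c d‖ ≤ 2 * L * ∑ k ∈ Finset.range n, (p k + s) := by
    refine bint_le_of_slabs (l := l) (F := F) (δ := δ) hδ0 hδ hab hcd (heq.mono le_rfl hRR) (fun z hz => hG z (hRR hz))
      (hGR.mono hRR) v0 vn vmono (fun k hk => by have := hp0 k hk; positivity) (fun z hz => hB z (hRR hz)) ?_
    have vle : ∀ k ≤ n, ∀ j ≤ k, v j ≤ v k := by
      intro k hk
      induction k with
      | zero => intro j hj; rw [Nat.le_zero.1 hj]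
      | succ k ih =>
        intro j hj
        rcases Nat.lt_or_ge k j with h1 | h1
        · have : j = k + 1 := by omega
          rw [this]
        · exact (ih (by omega) j h1).trans (vmono k (by omega))
    have vI : ∀ k ≤ n, v k ∈ Icc c d := fun k hk => ⟨v0 ▸ vle k hk 0 (Nat.zero_le _), vn ▸ vle n le_rfl k hk⟩
    intro k hkn
    rcases hk k hkn with ⟨hth1, hth2⟩ | hk
    · refine Or.inl ⟨by linarith, fun x hx => ?_⟩
      have hx' : x ∈ Icc a (b + r) := ⟨hx.1, by linarith [hx.2]⟩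
      have m1 : ((x : ℂ) + v k * I) ∈ Icc a (b + r) ×ℂ Icc c d := by
        rw [mem_reProdIm]; simpa using ⟨hx', vI k hkn.le⟩
      have m2 : ((x : ℂ) + v (k + 1) * I) ∈ Icc a (b + r) ×ℂ Icc c d := by
        rw [mem_reProdIm]; simpa using ⟨hx', vI (k + 1) hkn⟩
      have ht : Tendsto (fun i => ‖F i (x + v k * I) - F i (x + v (k + 1) * I)‖) l
          (𝓝 ‖G (x + v k * I) - G (x + v (k + 1) * I)‖) := ((hG _ m1).sub (hG _ m2)).norm
      have := le_of_tendsto_of_frequently ht (hth2 x hx)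
      linarith
    refine Or.inr fun κ hκ ε hε => ?_
    obtain ⟨K, κ', hκ', hK0, hKt, hfr⟩ := hk κ hκ
    obtain ⟨ρ, hρ, haec⟩ := heq s hs0
    have hd1 : ∀ᶠ i in l, δ i < min (min ρ (κ' / 160)) (r / 2) := by
      have : 0 < min (min ρ (κ' / 160)) (r / 2) := by positivity
      exact hδ.eventually (gt_mem_nhds this)
    have hCe : 0 ≤ Ce (2 * C₀) := Ce_nonneg (by linarith)
    -- the error
    set c1 := Ce (2 * C₀) * (160 / κ') ^ (6 / 5 : ℝ) with hc1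
    have hc10 : 0 ≤ c1 := by positivity
    have hd2 : ∀ᶠ i in l, K i * δ i ^ (1 / 5 : ℝ) * c1 ≤ ε := by
      have h1 : Tendsto (fun i => K i * δ i ^ (1 / 5 : ℝ) * c1) l (𝓝 0) := by
        simpa using hKt.mul_const c1
      exact h1.eventually (ge_mem_nhds hε)
    refine (hfr.and_eventually (hδ0.and (haec.and (hd1.and (hd2.and hK0))))).mono ?_
    rintro i ⟨⟨A, hA1, hA2⟩, hi0, hi1, hi2, hi3, hiK⟩
    have hi4 : δ i < ρ := hi2.trans_le ((min_le_left _ _).trans (min_le_left _ _))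
    have hi5 : δ i < κ' / 160 := hi2.trans_le ((min_le_left _ _).trans (min_le_right _ _))
    have hi6 : δ i < r / 2 := hi2.trans_le (min_le_right _ _)
    have hvk := vI k hkn.le
    have hvk1 := vI (k + 1) hkn
    set S := Icc a b ×ℂ Icc (v k + κ) (v (k + 1) - κ) with hS
    set S' := Icc a (b + r) ×ℂ Icc (v k + κ) (v (k + 1) - κ) with hS'
    have hSS : S ⊆ S' := by
      intro z hz
      rw [hS, mem_reProdIm] at hz
      rw [hS', mem_reProdIm]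
      exact ⟨⟨hz.1.1, by linarith [hz.1.2]⟩, hz.2⟩
    have hSR : S' ⊆ Icc a (b + r) ×ℂ Icc c d := by
      intro z hz
      rw [hS', mem_reProdIm] at hz
      rw [mem_reProdIm]
      exact ⟨hz.1, by linarith [hz.2.1, hvk.1], by linarith [hz.2.2, hvk1.2]⟩
    have hadd : ∀ z ∈ S, z + δ i ∈ S' := by
      intro z hz
      rw [hS, mem_reProdIm] at hz
      rw [hS', mem_reProdIm]
      refine ⟨⟨by simp; linarith [hz.1.1], by simp; linarith [hz.1.2]⟩, by simpa using hz.2⟩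
    refine ⟨avg2 (δ i) A, fun z hz => ?_, fun z hz hz1 hz2 => ?_⟩
    · have q1 := hA1 z (hSS hz)
      have q2 := hA1 _ (hadd z hz)
      have q3 := hi1 z (hSR (hSS hz)) (z + δ i) (hSR (hadd z hz)) (by
        rw [dist_eq_norm, sub_add_cancel_left, norm_neg, Complex.norm_real, Real.norm_eq_abs, abs_of_pos hi0]
        exact hi4)
      rw [dist_eq_norm] at q3
      have e : F i z - avg2 (δ i) A z = 1 / 2 * (F i z - A z) + 1 / 2 * ((F i z - F i (z + δ i)) + (F i (z + δ i) - A (z + δ i))) := by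
        unfold avg2; ring
      rw [e]
      have hn : ‖(1 / 2 : ℂ)‖ = 1 / 2 := by simp
      calc ‖1 / 2 * (F i z - A z) + 1 / 2 * ((F i z - F i (z + δ i)) + (F i (z + δ i) - A (z + δ i)))‖
          ≤ 1 / 2 * ‖F i z - A z‖ + 1 / 2 * (‖F i z - F i (z + δ i)‖ + ‖F i (z + δ i) - A (z + δ i)‖) := by
            refine (norm_add_le _ _).trans ?_
            rw [norm_mul, norm_mul, hn]
            gcongr
            exact norm_add_le _ _
        _ ≤ 1 / 2 * p k + 1 / 2 * (s + p k) := by gcongr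
        _ ≤ p k + s := by linarith
    · have key := hA2.cr hC hiK hi0 (by linarith) (hSS hz) (hadd z hz) (hadd _ hz1) (hSS hz2) (hadd _ hz2)
      refine key.trans ?_
      have e1 : (160 * (δ i / κ')) ^ (6 / 5 : ℝ) = (160 / κ') ^ (6 / 5 : ℝ) * (δ i ^ (1 / 5 : ℝ) * δ i) := by
        rw [show 160 * (δ i / κ') = (160 / κ') * δ i by ring, Real.mul_rpow (by positivity) hi0.le]
        congr 1
        rw [← Real.rpow_add_one hi0.ne']
        norm_num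
      rw [e1]
      calc K i * (Ce (2 * C₀) * ((160 / κ') ^ (6 / 5 : ℝ) * (δ i ^ (1 / 5 : ℝ) * δ i))) =
          (K i * δ i ^ (1 / 5 : ℝ) * c1) * δ i := by rw [hc1]; ring
        _ ≤ ε * δ i := by gcongr
  refine key.trans ?_
  rw [Finset.sum_add_distrib, Finset.sum_const, Finset.card_range, nsmul_eq_mul, mul_add]
  gcongr
  calc 2 * L * (n * s) ≤ 2 * (L + 1) * ((n + 1) * s) := by gcongr <;> linarith
    _ = η := by rw [hs]; field_simp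

/-- rectangles in open sets can be enlarged to the right -/
lemma enlarge {U : Set ℂ} (hU : IsOpen U) {a b c d : ℝ} (hab : a ≤ b) (hR : Icc a b ×ℂ Icc c d ⊆ U) :
    ∃ r > 0, Icc a (b + r) ×ℂ Icc c d ⊆ U := by
  have hK : IsCompact (Icc a b ×ℂ Icc c d) := isCompact_Icc.reProdIm isCompact_Icc
  obtain ⟨r, hr, hr'⟩ := hK.exists_thickening_subset_open hU hR
  refine ⟨r / 2, by positivity, fun z hz => hr' ?_⟩
  rw [mem_reProdIm] at hz
  rw [Metric.mem_thickening_iff]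
  rcases le_total z.re b with h1 | h1
  · exact ⟨z, by rw [mem_reProdIm]; exact ⟨⟨hz.1.1, h1⟩, hz.2⟩, by rw [dist_self]; exact hr⟩
  · refine ⟨(b : ℂ) + z.im * I, by rw [mem_reProdIm]; simp [hab, hz.2.1, hz.2.2], ?_⟩
    have : z - ((b : ℂ) + z.im * I) = ((z.re - b : ℝ) : ℂ) := by
      apply Complex.ext <;> simp
    rw [dist_eq_norm, this, Complex.norm_real, Real.norm_eq_abs, abs_of_nonneg (by linarith)]
    linarith [hz.1.2]

/-- **HOLOMORPHY FROM ENGINE AMPLITUDES.** -/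
theorem holo_of_engine {ι : Type*} {l : Filter ι} [l.NeBot] {U : Set ℂ} (hU : IsOpen U) {F : ι → ℂ → ℂ}
    {δ : ι → ℝ} (hδ0 : ∀ᶠ i in l, 0 < δ i) (hδ : Tendsto δ l (𝓝 0))
    (heq : ∀ K ⊆ U, IsCompact K → AEC l K F) {G : ℂ → ℂ}
    (hG : ∀ z ∈ U, Tendsto (fun i => F i z) l (𝓝 (G z))) {C₀ : ℝ} (hC : 1 ≤ C₀)
    (h : ∀ a b c d : ℝ, a < b → c < d → Icc a b ×ℂ Icc c d ⊆ U → ∀ η > 0, ∃ (n : ℕ) (v : ℕ → ℝ) (p : ℕ → ℝ),
      v 0 = c ∧ v n = d ∧ (∀ k < n, v k ≤ v (k + 1)) ∧ (∀ k < n, 0 ≤ p k) ∧ ∑ k ∈ Finset.range n, p k ≤ η ∧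
      ∀ k < n, (v (k + 1) - v k ≤ p k ∧
          ∀ x ∈ Icc a b, ∃ᶠ i in l, ‖F i (x + v k * I) - F i (x + v (k + 1) * I)‖ ≤ p k) ∨
        ∀ κ > 0, ∃ (K : ι → ℝ) (κ' : ℝ), 0 < κ' ∧ (∀ᶠ i in l, 0 ≤ K i) ∧
        Tendsto (fun i => K i * δ i ^ (1 / 5 : ℝ)) l (𝓝 0) ∧
        ∃ᶠ i in l, ∃ A : ℂ → ℂ,
          (∀ z ∈ Icc a b ×ℂ Icc (v k + κ) (v (k + 1) - κ), ‖F i z - A z‖ ≤ p k) ∧
          EngMix C₀ κ' (K i) (δ i) (Icc a b ×ℂ Icc (v k + κ) (v (k + 1) - κ)) A) : DifferentiableOn ℂ G U := by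
  have hGc := contOn_of_AEC hU heq hG
  refine holo_of_bint hU hGc fun a b c d hab hcd hR => ?_
  rcases hab.eq_or_lt with rfl | hab'
  · rw [bint]; simp
  rcases hcd.eq_or_lt with rfl | hcd'
  · rw [bint]; simp
  have hL1 : 0 < (b - a) + (d - c) := by linarith
  rw [uIcc_of_le hab, uIcc_of_le hcd] at hR
  obtain ⟨r, hr, hr'⟩ := enlarge hU hab hR
  have hK : IsCompact (Icc a (b + r) ×ℂ Icc c d) := isCompact_Icc.reProdIm isCompact_Icc
  obtain ⟨B, hB⟩ := hK.exists_bound_of_continuousOn (hGc.mono hr')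
  have hB0 : 0 ≤ B := (norm_nonneg _).trans (hB ((a : ℂ) + c * I) (by
    rw [mem_reProdIm]; simp; exact ⟨by linarith, by linarith⟩))
  rw [← norm_eq_zero]
  refine le_antisymm (le_of_forall_pos_le_add fun η hη => ?_) (norm_nonneg _)
  rw [zero_add]
  obtain ⟨n, v, p, v0, vn, vmono, hp0, hsum, hdisc⟩ := h a (b + r) c d (by linarith) hcd' hr'
    (η / (2 * ((b - a) + (d - c) + B))) (by positivity)
  have key := bint_le_of_engine hδ0 hδ hab hcd hr (heq _ hr' hK) (fun z hz => hG z (hr' hz)) (hGc.mono hr') v0 vn vmono hp0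
    hC hB (fun k hk => by
      rcases hdisc k hk with ⟨h1, h2⟩ | h1
      · exact Or.inl ⟨h1, fun x hx => h2 x ⟨hx.1, by linarith [hx.2]⟩⟩
      · exact Or.inr h1)
  calc ‖bint G a b c d‖ ≤ 2 * ((b - a) + (d - c) + B) * ∑ k ∈ Finset.range n, p k := key
    _ ≤ 2 * ((b - a) + (d - c) + B) * (η / (2 * ((b - a) + (d - c) + B))) := by gcongr
    _ = η := by field_simp

end Full
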