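import Pool.Agent.Full.Asm.Iter
import Pool.Agent.Full.End.Lim
import Pool.Agent.Full.End.Ori

/-!
# FULL, assembly: from observables to `Q1tame`

`q` is a tame quadrilateral, `D = q '' sqo`.  Marks: `q 0`, `q 1`, `q (1 + i)` with the values `vert 0`, `vert 1`,
`vert 2` of the observable; fourth mark `q i`, where the observable takes the value `cv p`, `p` the crossing
probability.  The index of the observables is `(h, ε)`, `ε` the mesh, `h` the coarse parameter (polygon, bars, ..).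

`q1tame_of_appr`: if every positively oriented tame quadrilateral has observables for lower and for upper
approximations, then `Q1tame` holds.
-/

set_option autoImplicit false

namespace Full

open Complex Set Filter Topology Metric ComplexConjugate H47Perc

/-- the three boundary arcs -/
def arcs (q : ℂ → ℂ) : ℕ → Set ℂ
  | 0 => q '' sqR
  | 1 => q '' (sqT ∪ sqL)
  | 2 => q '' sqB
  | _ => ∅

/-- the value of the observable at the fourth mark -/
noncomputable def cv (p : ℝ) : ℂ := (p : ℂ) * vert 2 + (1 - (p : ℂ)) * vert 0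

/-- the filter of the small meshes -/
def mesh : Filter ℝ := 𝓝[>] 0

instance : mesh.NeBot := by unfold mesh; infer_instance

/-- positive orientation -/
def Pos (q : ℂ → ℂ) : Prop := ∃ m : ℤ, 0 < m ∧ POri q m

/-- observables for `q`: `F (h, ε) z` for the point `z`, `p (h, ε)` the crossing probability -/
structure Appr (q : ℂ → ℂ) {H : Type} (l0 : Filter H) (F : H × ℝ → ℂ → ℂ) (p : H × ℝ → ℝ) : Prop where
  sol : AsySol (iter l0 fun _ => mesh) (q '' sqo) (arcs q) F
  mark : ∀ η : ℝ, 0 < η → ∃ δ > 0, ∀ z ∈ q '' sqo, dist z (q I) < δ →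
    ∀ᶠ i in iter l0 fun _ => mesh, dist (F i z) (cv (p i)) ≤ η

/-- all sets of vertices near the domain -/
def Near1 (q : ℂ → ℂ) (ε : ℝ) (S : Finset (ℤ × ℤ)) : Prop :=
  ∀ z : ℤ × ℤ, infDist (pos ε z) (q '' sq) ≤ ε → z ∈ S

/-- lower bounds of the crossing probability -/
def Lower (q : ℂ → ℂ) {H : Type} (l0 : Filter H) (p : H × ℝ → ℝ) : Prop :=
  ∀ η : ℝ, 0 < η → ∀ᶠ i in iter l0 fun _ => mesh, ∀ S : Finset (ℤ × ℤ), Near1 q i.2 S →
    p i ≤ perc half S (Crossed i.2 q) + η

/-- upper bounds of the crossing probability -/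
def Upper (q : ℂ → ℂ) {H : Type} (l0 : Filter H) (p : H × ℝ → ℝ) : Prop :=
  ∀ η : ℝ, 0 < η → ∀ᶠ i in iter l0 fun _ => mesh, ∀ S : Finset (ℤ × ℤ), Near1 q i.2 S →
    perc half S (Crossed i.2 q) ≤ p i + η

/-- `q` has lower and upper approximations with observables -/
def HasAppr (q : ℂ → ℂ) : Prop :=
  (∃ (H : Type) (l0 : Filter H) (F : H × ℝ → ℂ → ℂ) (p : H × ℝ → ℝ), l0.NeBot ∧ Appr q l0 F p ∧ Lower q l0 p) ∧
  (∃ (H : Type) (l0 : Filter H) (F : H × ℝ → ℂ → ℂ) (p : H × ℝ → ℝ), l0.NeBot ∧ Appr q l0 F p ∧ Upper q l0 p)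

/-- the Cardy value of `q` -/
def CardyVal (q : ℂ → ℂ) (L : ℝ) : Prop :=
  ∃ G : ℂ → ℂ, LSol (q '' sqo) (arcs q) G ∧ Tendsto G (𝓝[q '' sqo] (q I)) (𝓝 (cv L))

/-! ### the unit square -/

lemma sqo_subset : sqo ⊆ sq := fun _ h => ⟨h.1.le, h.2.1.le, h.2.2.1.le, h.2.2.2.le⟩

lemma sq_subset_closure : sq ⊆ closure sqo := by
  intro w hw
  rw [mem_closure_iff_seq_limit]
  have hc : ((1 : ℂ) / 2 + I / 2) ∈ sqo := by
    have e1 : ((1 : ℂ) / 2 + I / 2).re = 1 / 2 := by simp
    have e2 : ((1 : ℂ) / 2 + I / 2).im = 1 / 2 := by simp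
    refine ⟨?_, ?_, ?_, ?_⟩
    · rw [e1]; norm_num
    · rw [e1]; norm_num
    · rw [e2]; norm_num
    · rw [e2]; norm_num
  set c : ℂ := (1 : ℂ) / 2 + I / 2 with hcdef
  refine ⟨fun n => w + ((1 / ((n : ℝ) + 1) : ℝ) : ℂ) * (c - w), fun n => ?_, ?_⟩
  · have h1 : 0 < 1 / ((n : ℝ) + 1) := by positivity
    have h2 : 1 / ((n : ℝ) + 1) ≤ 1 := by
      rw [div_le_one (by positivity)]
      linarith [(Nat.cast_nonneg n : (0 : ℝ) ≤ n)]
    set s := 1 / ((n : ℝ) + 1) with hs
    have e1 : (w + (s : ℂ) * (c - w)).re = (1 - s) * w.re + s * c.re := by simp; ring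
    have e2 : (w + (s : ℂ) * (c - w)).im = (1 - s) * w.im + s * c.im := by simp; ring
    have h3 : 0 ≤ 1 - s := by linarith
    refine ⟨?_, ?_, ?_, ?_⟩
    · rw [e1]; have := mul_nonneg h3 hw.1; have := mul_pos h1 hc.1; linarith
    · rw [e1]
      have := mul_le_mul_of_nonneg_left hw.2.1 h3
      have := mul_lt_mul_of_pos_left hc.2.1 h1
      linarith
    · rw [e2]; have := mul_nonneg h3 hw.2.2.1; have := mul_pos h1 hc.2.2.1; linarith
    · rw [e2]
      have := mul_le_mul_of_nonneg_left hw.2.2.2 h3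
      have := mul_lt_mul_of_pos_left hc.2.2.2 h1
      linarith
  · have h1 : Tendsto (fun n : ℕ => ((1 / ((n : ℝ) + 1) : ℝ) : ℂ)) atTop (𝓝 ((0 : ℝ) : ℂ)) :=
      (continuous_ofReal.tendsto _).comp tendsto_one_div_add_atTop_nhds_zero_nat
    have h2 := (h1.mul_const (c - w)).const_add w
    simpa using h2

lemma preconn_sqo : IsPreconnected sqo := by
  have hconv : Convex ℝ sqo := by
    intro z hz w hw a b ha hb hab
    have e1 : (a • z + b • w).re = a * z.re + b * w.re := by simp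
    have e2 : (a • z + b • w).im = a * z.im + b * w.im := by simp
    have hb' : b = 1 - a := by linarith
    subst hb'
    rcases eq_or_lt_of_le ha with h0 | h0
    · rw [← h0]; simpa using hw
    · refine ⟨?_, ?_, ?_, ?_⟩
      · rw [e1]; have := mul_pos h0 hz.1; have := mul_nonneg hb hw.1.le; linarith
      · rw [e1]
        have := mul_lt_mul_of_pos_left hz.2.1 h0
        have := mul_le_mul_of_nonneg_left hw.2.1.le hb
        linarith
      · rw [e2]; have := mul_pos h0 hz.2.2.1; have := mul_nonneg hb hw.2.2.1.le; linarith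
      · rw [e2]
        have := mul_lt_mul_of_pos_left hz.2.2.2 h0
        have := mul_le_mul_of_nonneg_left hw.2.2.2.le hb
        linarith
  exact hconv.isPreconnected

lemma closure_quad {q : ℂ → ℂ} (hq : IsTame q) : closure (q '' sqo) = q '' sq := by
  refine Subset.antisymm ?_ ?_
  · exact closure_minimal (image_mono sqo_subset) (isCompact_sq.image hq.cont).isClosed
  · exact (image_mono sq_subset_closure).trans (image_closure_subset_closure_image hq.cont)

lemma bdd_quad {q : ℂ → ℂ} (hq : IsTame q) : Bornology.IsBounded (q '' sqo) :=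
  (isCompact_sq.image hq.cont).isBounded.subset (image_mono sqo_subset)

lemma frontier_quad {q : ℂ → ℂ} (hq : IsTame q) : frontier (q '' sqo) ⊆ ⋃ j, arcs q j := by
  rw [hq.isQuad.isOpen.frontier_eq, closure_quad hq]
  rintro _ ⟨⟨w, hw, rfl⟩, hn⟩
  have hwn : w ∉ sqo := fun h => hn (mem_image_of_mem q h)
  rw [mem_iUnion]
  by_cases h1 : w.re = 1
  · exact ⟨0, mem_image_of_mem q ⟨hw, h1⟩⟩
  by_cases h2 : w.im = 1
  · exact ⟨1, mem_image_of_mem q (Or.inl ⟨hw, h2⟩)⟩
  by_cases h3 : w.re = 0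
  · exact ⟨1, mem_image_of_mem q (Or.inr ⟨hw, h3⟩)⟩
  by_cases h4 : w.im = 0
  · exact ⟨2, mem_image_of_mem q ⟨hw, h4⟩⟩
  exact absurd ⟨lt_of_le_of_ne hw.1 (Ne.symm h3), lt_of_le_of_ne hw.2.1 h1,
    lt_of_le_of_ne hw.2.2.1 (Ne.symm h4), lt_of_le_of_ne hw.2.2.2 h2⟩ hwn

lemma one_I_mem : (1 + I : ℂ) ∈ sq := by
  refine ⟨?_, ?_, ?_, ?_⟩ <;> simp

lemma I_mem : (I : ℂ) ∈ sq := by
  refine ⟨?_, ?_, ?_, ?_⟩ <;> simp

lemma arcs_subset {q : ℂ → ℂ} (j : ℕ) : arcs q j ⊆ q '' sq := by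
  match j with
  | 0 => exact image_mono fun w hw => hw.1
  | 1 => exact image_mono fun w hw => hw.elim (fun h => h.1) (fun h => h.1)
  | 2 => exact image_mono fun w hw => hw.1
  | _ + 3 => exact empty_subset _

lemma corner_mem_zero (q : ℂ → ℂ) : q (1 + I) ∈ arcs q 0 :=
  mem_image_of_mem q ⟨one_I_mem, by simp⟩

lemma corner_mem_one (q : ℂ → ℂ) : q (1 + I) ∈ arcs q 1 :=
  mem_image_of_mem q (Or.inl ⟨one_I_mem, by simp⟩)

lemma cv_inj {a b : ℝ} (h : cv a = cv b) : a = b := by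
  have h1 : vert 2 ≠ vert 0 := by
    intro h0
    have h2 : tau ^ 2 = 1 := by
      have : vert 2 = tau ^ 2 := rfl
      rw [← this, h0]
      simp [vert]
    have h3 : tau = 1 := by
      have h4 := tau_cube
      rw [pow_succ, h2, one_mul] at h4
      exact h4
    exact tau_ne_one h3
  have h2 : ((a : ℂ) - b) * (vert 2 - vert 0) = 0 := by
    unfold cv at h
    linear_combination h
  rcases mul_eq_zero.1 h2 with h3 | h3
  · exact_mod_cast sub_eq_zero.1 h3
  · exact absurd (sub_eq_zero.1 h3) h1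

/-- `p ↦ cv p` is proper -/
lemma abs_sub_le_cv (a b : ℝ) : |a - b| ≤ dist (cv a) (cv b) := by
  have h1 : cv a - cv b = ((a - b : ℝ) : ℂ) * (vert 2 - vert 0) := by
    unfold cv
    push_cast
    ring
  have h2 : 1 ≤ ‖vert 2 - vert 0‖ := by
    have h3 : (vert 2 - vert 0).re = -(3 / 2) := by
      have h4 : tau ^ 2 = -tau - 1 := by linear_combination tau_sq_add
      have h5 : vert 2 - vert 0 = -tau - 2 := by
        simp only [vert, pow_zero]
        rw [h4]; ring
      rw [h5]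
      unfold tau
      simp
      norm_num
    have h6 := abs_re_le_norm (vert 2 - vert 0)
    rw [h3] at h6
    have h7 : |(-(3 / 2) : ℝ)| = 3 / 2 := by rw [abs_neg, abs_of_pos (by norm_num)]
    rw [h7] at h6
    linarith
  rw [dist_eq_norm, h1, norm_mul, Complex.norm_real, Real.norm_eq_abs]
  nlinarith [abs_nonneg (a - b)]

lemma continuous_cv : Continuous cv := by
  unfold cv
  fun_prop

/-! ### the limit of one family -/

/-- a limit of values `cv (p i)` is a value `cv L` -/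
lemma exists_cv_limit {ι : Type*} {l : Filter ι} [l.NeBot] {p : ι → ℝ} {w : ℂ}
    (h : Tendsto (fun i => cv (p i)) l (𝓝 w)) : ∃ L : ℝ, w = cv L ∧ Tendsto p l (𝓝 L) := by
  have hcau : Cauchy (map p l) := by
    have h1 : Cauchy (map (fun i => cv (p i)) l) := h.cauchy_map
    rw [Metric.cauchy_iff] at h1 ⊢
    refine ⟨h1.1.of_map.map _, fun ε hε => ?_⟩
    obtain ⟨t, ht, h2⟩ := h1.2 ε hε
    refine ⟨p '' {i | cv (p i) ∈ t}, image_mem_map ht, ?_⟩
    rintro _ ⟨i, hi, rfl⟩ _ ⟨j, hj, rfl⟩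
    rw [Real.dist_eq]
    exact (abs_sub_le_cv _ _).trans_lt (h2 _ hi _ hj)
  obtain ⟨L, hL⟩ := CompleteSpace.complete hcau
  refine ⟨L, ?_, hL⟩
  exact tendsto_nhds_unique h ((continuous_cv.tendsto L).comp hL)

theorem Appr.exists_val {q : ℂ → ℂ} (hq : IsTame q) {H : Type} {l0 : Filter H} [l0.NeBot]
    {F : H × ℝ → ℂ → ℂ} {p : H × ℝ → ℝ} (h : Appr q l0 F p) :
    ∃ L : ℝ, CardyVal q L ∧ Tendsto p (iter l0 fun _ => mesh) (𝓝 L) := by
  have hcl := closure_quad hq
  obtain ⟨G, hG, hlim⟩ := h.sol.exists_limit hq.isQuad.isOpen (preconn_sqo.image q hq.cont.continuousOn)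
    (bdd_quad hq) (frontier_quad hq) (z0 := q (1 + I)) (j0 := 0)
    (by rw [hcl]; exact mem_image_of_mem q one_I_mem) (corner_mem_zero q) (corner_mem_one q)
  obtain ⟨w, hw1, hw2⟩ := tendsto_mark (p := fun i => cv (p i)) hlim (x := q I)
    (by rw [hcl]; exact mem_image_of_mem q I_mem) h.mark
  obtain ⟨L, rfl, hL⟩ := exists_cv_limit hw2
  exact ⟨L, ⟨G, hG, hw1⟩, hL⟩

/-! ### uniqueness and conformal invariance of the Cardy value -/

theorem CardyVal.eq_of_conf {q f : ℂ → ℂ} (hq : IsTame q) (hd : DifferentiableOn ℂ f (range q))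
    {L L' : ℝ} (h : CardyVal q L) (h' : CardyVal (f ∘ q) L') : L = L' := by
  obtain ⟨G, hG, hw⟩ := h
  obtain ⟨G', hG', hw'⟩ := h'
  have hcl := closure_quad hq
  have hfc : ContinuousOn f (closure (q '' sqo)) := by
    rw [hcl]
    exact hd.continuousOn.mono (image_subset_range _ _)
  have hmaps : MapsTo f (q '' sqo) ((f ∘ q) '' sqo) := by
    rintro _ ⟨w, hw, rfl⟩
    exact ⟨w, hw, rfl⟩
  have harc : ∀ j, MapsTo f (arcs q j) (arcs (f ∘ q) j) := by
    intro j
    match j with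
    | 0 => rintro _ ⟨w, hw, rfl⟩; exact ⟨w, hw, rfl⟩
    | 1 => rintro _ ⟨w, hw, rfl⟩; exact ⟨w, hw, rfl⟩
    | 2 => rintro _ ⟨w, hw, rfl⟩; exact ⟨w, hw, rfl⟩
    | _ + 3 => exact fun x hx => hx.elim
  have h1 : LSol (q '' sqo) (arcs q) (G' ∘ f) :=
    hG'.comp hfc (hd.mono (image_subset_range _ _)) hmaps harc
      fun j => by rw [hcl]; exact arcs_subset j
  have heq : EqOn G (G' ∘ f) (q '' sqo) :=
    LSol.unique hq.isQuad.isOpen (preconn_sqo.image q hq.cont.continuousOn)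
      (bdd_quad hq) (frontier_quad hq) hG h1 (z0 := q (1 + I)) (j0 := 0)
      (by rw [hcl]; exact mem_image_of_mem q one_I_mem) (corner_mem_zero q) (corner_mem_one q)
  have hx : q I ∈ closure (q '' sqo) := by rw [hcl]; exact mem_image_of_mem q I_mem
  have hne : (𝓝[q '' sqo] (q I)).NeBot := mem_closure_iff_nhdsWithin_neBot.1 hx
  have h2 : Tendsto f (𝓝[q '' sqo] (q I)) (𝓝[(f ∘ q) '' sqo] ((f ∘ q) I)) := by
    refine tendsto_nhdsWithin_iff.2 ⟨?_, ?_⟩
    · exact (hfc (q I) hx).mono_left (nhdsWithin_mono _ subset_closure)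
    · filter_upwards [self_mem_nhdsWithin] with z hz
      exact hmaps hz
  have h3 : Tendsto G (𝓝[q '' sqo] (q I)) (𝓝 (cv L')) := by
    refine (hw'.comp h2).congr' ?_
    filter_upwards [self_mem_nhdsWithin] with z hz
    exact (heq hz).symm
  exact cv_inj (tendsto_nhds_unique hw h3)

theorem CardyVal.unique {q : ℂ → ℂ} (hq : IsTame q) {L L' : ℝ} (h : CardyVal q L)
    (h' : CardyVal q L') : L = L' :=
  CardyVal.eq_of_conf hq (f := id) differentiableOn_id h h'

lemma iter_exists {H : Type} {l0 : Filter H} [l0.NeBot] {P : H × ℝ → Prop}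
    (h : ∀ᶠ i in iter l0 fun _ => mesh, P i) : ∃ x : H, ∃ ε₀ : ℝ, 0 < ε₀ ∧ ∀ ε : ℝ, 0 < ε → ε < ε₀ → P (x, ε) := by
  rw [eventually_iter] at h
  obtain ⟨x, hx⟩ := h.exists
  unfold mesh at hx
  rw [eventually_nhdsWithin_iff, Metric.eventually_nhds_iff] at hx
  obtain ⟨r, hr, hx⟩ := hx
  refine ⟨x, r, hr, fun ε h0 h1 => hx (by rw [Real.dist_eq, sub_zero, abs_of_pos h0]; exact h1) h0⟩

/-- the crossing probability of a quadrilateral with approximations converges to the Cardy value -/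
theorem HasAppr.tends {q : ℂ → ℂ} (hq : IsTame q) (h : HasAppr q) : ∃ L : ℝ, CardyVal q L ∧ Tends q L := by
  obtain ⟨⟨H, l0, F, p, hne, ha, hlow⟩, ⟨H', l0', F', p', hne', ha', hup⟩⟩ := h
  obtain ⟨L, hL, hp⟩ := ha.exists_val hq
  obtain ⟨L', hL', hp'⟩ := ha'.exists_val hq
  have hLL : L = L' := hL.unique hq hL'
  subst hLL
  refine ⟨L, hL, fun δ hδ => ?_⟩
  obtain ⟨x, ε₀, h0, h1⟩ := iter_exists ((Metric.tendsto_nhds.1 hp (δ / 2) (by positivity)).and
    (hlow (δ / 3) (by positivity)))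
  obtain ⟨x', ε₁, h0', h1'⟩ := iter_exists ((Metric.tendsto_nhds.1 hp' (δ / 2) (by positivity)).and
    (hup (δ / 3) (by positivity)))
  refine ⟨min ε₀ ε₁, lt_min h0 h0', fun ε hε hlt S hS => ?_⟩
  obtain ⟨a1, a2⟩ := h1 ε hε (hlt.trans_le (min_le_left _ _))
  obtain ⟨b1, b2⟩ := h1' ε hε (hlt.trans_le (min_le_right _ _))
  have a3 := a2 S hS
  have b3 := b2 S hS
  rw [Real.dist_eq, abs_lt] at a1 b1
  simp only at a3 b3
  rw [abs_lt]
  constructor <;> linarith

/-! ### tame maps: composition and reflection -/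

theorem IsTame.conf {q f : ℂ → ℂ} (hq : IsTame q) (hf : InjOn f (range q))
    (hd : DifferentiableOn ℂ f (range q)) : IsTame (f ∘ q) := by
  have hro : IsOpen (range q) := hq.isOpenMap.isOpen_range
  refine ⟨?_, ?_, ?_⟩
  · rw [continuous_iff_continuousAt]
    intro x
    exact ((hd.differentiableAt (hro.mem_nhds (mem_range_self x))).continuousAt).comp hq.cont.continuousAt
  · exact fun x y hxy => hq.inj (hf (mem_range_self x) (mem_range_self y) hxy)
  · have han : AnalyticOnNhd ℂ f (range q) := hd.analyticOnNhd hro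
    have hpre : IsPreconnected (range q) := isPreconnected_range hq.cont
    rcases han.is_constant_or_isOpen hpre with ⟨w, hw⟩ | hopen
    · exfalso
      have h1 : f (q 0) = f (q 1) := by
        rw [hw _ (mem_range_self 0), hw _ (mem_range_self 1)]
      have h2 := hq.inj (hf (mem_range_self _) (mem_range_self _) h1)
      norm_num at h2
    · intro U hU
      rw [image_comp]
      exact hopen _ (image_subset_range _ _) (hq.isOpenMap _ hU)

/-- the reflection of the unit square -/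
noncomputable def mir (z : ℂ) : ℂ := conj z + I

lemma mir_mir (z : ℂ) : mir (mir z) = z := by
  simp [mir]

lemma continuous_mir' : Continuous mir := by
  unfold mir
  fun_prop

lemma mir_injective : Function.Injective mir := fun z w h => by
  rw [← mir_mir z, h, mir_mir]

lemma mir_image (s : Set ℂ) : mir '' s = mir ⁻¹' s := by
  ext z
  constructor
  · rintro ⟨w, hw, rfl⟩
    rw [mem_preimage, mir_mir]; exact hw
  · intro h
    exact ⟨mir z, h, mir_mir z⟩

lemma isOpenMap_mir : IsOpenMap mir := fun U hU => by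
  rw [mir_image]
  exact hU.preimage continuous_mir'

lemma mir_re (z : ℂ) : (mir z).re = z.re := by simp [mir]

lemma mir_im (z : ℂ) : (mir z).im = 1 - z.im := by simp [mir]; ring

lemma mir_sq : mir '' sq = sq := by
  rw [mir_image]
  ext z
  simp only [mem_preimage, sq, mem_setOf_eq, mir_re, mir_im]
  constructor
  · rintro ⟨h1, h2, h3, h4⟩
    exact ⟨h1, h2, by linarith, by linarith⟩
  · rintro ⟨h1, h2, h3, h4⟩
    exact ⟨h1, h2, by linarith, by linarith⟩

lemma mir_sqL : mir '' sqL = sqL := by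
  have h := mir_sq
  rw [mir_image] at h ⊢
  ext z
  have h1 : z ∈ mir ⁻¹' sq ↔ z ∈ sq := by rw [h]
  simp only [mem_preimage, sqL, mem_setOf_eq, mir_re] at h1 ⊢
  rw [h1]

lemma mir_sqR : mir '' sqR = sqR := by
  have h := mir_sq
  rw [mir_image] at h ⊢
  ext z
  have h1 : z ∈ mir ⁻¹' sq ↔ z ∈ sq := by rw [h]
  simp only [mem_preimage, sqR, mem_setOf_eq, mir_re] at h1 ⊢
  rw [h1]

lemma IsTame.mir {q : ℂ → ℂ} (hq : IsTame q) : IsTame (q ∘ mir) :=
  ⟨hq.cont.comp continuous_mir', hq.inj.comp mir_injective, hq.isOpenMap.comp isOpenMap_mir⟩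

lemma range_mir {q : ℂ → ℂ} : range (q ∘ mir) = range q := by
  have hs : Function.Surjective mir := fun z => ⟨mir z, mir_mir z⟩
  rw [hs.range_comp]

lemma tends_mir {q : ℂ → ℂ} {L : ℝ} (h : Tends (q ∘ mir) L) : Tends q L := by
  have h1 : (q ∘ mir) '' sq = q '' sq := by rw [image_comp, mir_sq]
  have h2 : (q ∘ mir) '' sqL = q '' sqL := by rw [image_comp, mir_sqL]
  have h3 : (q ∘ mir) '' sqR = q '' sqR := by rw [image_comp, mir_sqR]
  have h4 : ∀ ε : ℝ, Crossed ε (q ∘ mir) = Crossed ε q := by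
    intro ε
    funext ω
    unfold Crossed
    rw [h1, h2, h3]
  intro δ hδ
  obtain ⟨ε₀, h0, h5⟩ := h δ hδ
  refine ⟨ε₀, h0, fun ε hε hlt S hS => ?_⟩
  have h6 := h5 ε hε hlt S (by rw [h1]; exact hS)
  rw [h4] at h6
  exact h6

lemma ori_mir {q : ℂ → ℂ} (hq : IsTame q) {m : ℤ} (h : POri q m) : POri (q ∘ mir) (-m) := by
  have h1 : POri (fun z => q (conj z)) (-m) := h.reverse
  have h2 : POri ((fun z => q (conj z)) ∘ rect 0 1 1) (-m) := by
    have : (fun z => q (conj z)) ∘ rect 0 1 1 = fun z => q (conj z) := by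
      funext z
      show q (conj (rect 0 1 1 z)) = q (conj z)
      congr 2
      apply Complex.ext <;> simp [rect]
    rw [this]
    exact h1
  have hc : Continuous fun z => q (conj z) := hq.cont.comp continuous_conj
  have hi : Function.Injective fun z => q (conj z) :=
    hq.inj.comp (starRingEnd ℂ).injective
  have h3 := POri.rect hc hi (o := 0) (o' := -I) one_pos one_pos one_pos one_pos h2
  have h4 : (fun z => q (conj z)) ∘ rect (-I) 1 1 = q ∘ mir := by
    funext z
    show q (conj (rect (-I) 1 1 z)) = q (mir z)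
    congr 1
    apply Complex.ext
    · simp [rect, mir]
    · simp only [rect, mir, conj_im, add_im, I_im, neg_im]; ring
  rw [h4] at h3
  exact h3

/-! ### the theorem -/

lemma tame_of_pos (hyp : ∀ q : ℂ → ℂ, IsTame q → Pos q → HasAppr q) {q : ℂ → ℂ} (hq : IsTame q) (hp : Pos q) :
    ∃ L : ℝ, Tends q L ∧
      ∀ f : ℂ → ℂ, InjOn f (range q) → DifferentiableOn ℂ f (range q) → Tends (f ∘ q) L := by
  obtain ⟨L, hL, ht⟩ := (hyp q hq hp).tends hq
  refine ⟨L, ht, fun f hf hd => ?_⟩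
  have hq' := hq.conf hf hd
  have hp' : Pos (f ∘ q) := by
    obtain ⟨m, hm, ho⟩ := hp
    exact ⟨m, hm, ho.conf hq.cont hq.inj hq.isOpenMap hf hd⟩
  obtain ⟨L', hL', ht'⟩ := (hyp _ hq' hp').tends hq'
  rw [hL.eq_of_conf hq hd hL']
  exact ht'

/-- **`Q1tame` from observables.** -/
theorem q1tame_of_appr (hyp : ∀ q : ℂ → ℂ, IsTame q → Pos q → HasAppr q) : Q1tame := by
  intro q hq
  obtain ⟨m, hm, ho⟩ := exists_ori hq.cont hq.inj
  rcases lt_trichotomy 0 m with h0 | h0 | h0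
  · exact tame_of_pos hyp hq ⟨m, h0, ho⟩
  · rw [← h0] at hm
    exact absurd hm (by decide)
  · obtain ⟨L, h1, h2⟩ := tame_of_pos hyp hq.mir ⟨-m, by omega, ori_mir hq ho⟩
    rw [range_mir] at h2
    exact ⟨L, tends_mir h1, fun f hf hd => tends_mir (h2 f hf hd)⟩

end Full
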