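import Pool.Agent.Full.Asm.Dcont
import Pool.Agent.Full.Asm.Engine

/-!
# FULL, assembly: iterated limits

The index is a pair `(h, i)`: `h` is the coarse parameter (polygon, size of the bars, ...), `i` the mesh.  For fixed `h` the
limit of mesh zero is only approximately holomorphic.  The filter `iter l0 l1`: `s` is large iff for eventually all
`h`, for eventually all `i`, `(h, i) ∈ s`.
-/

set_option autoImplicit false

namespace Full

open Complex Set Filter Topology Metric MeasureTheory intervalIntegral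
open scoped Interval

section filter

variable {H ι : Type*}

/-- the iterated filter -/
def iter (l0 : Filter H) (l1 : H → Filter ι) : Filter (H × ι) := l0.bind fun h => (l1 h).map (Prod.mk h)

lemma mem_iter {l0 : Filter H} {l1 : H → Filter ι} {s : Set (H × ι)} :
    s ∈ iter l0 l1 ↔ ∀ᶠ h in l0, ∀ᶠ i in l1 h, (h, i) ∈ s := Iff.rfl

lemma eventually_iter {l0 : Filter H} {l1 : H → Filter ι} {p : H × ι → Prop} :
    (∀ᶠ x in iter l0 l1, p x) ↔ ∀ᶠ h in l0, ∀ᶠ i in l1 h, p (h, i) := Iff.rfl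

instance iter_neBot {l0 : Filter H} {l1 : H → Filter ι} [l0.NeBot] [∀ h, (l1 h).NeBot] : (iter l0 l1).NeBot := by
  refine ⟨fun h0 => ?_⟩
  have h1 : (∅ : Set (H × ι)) ∈ iter l0 l1 := by rw [h0]; exact mem_bot
  rw [mem_iter] at h1
  obtain ⟨h, hh⟩ := h1.exists
  obtain ⟨i, hi⟩ := hh.exists
  exact hi

lemma tendsto_iter {l0 : Filter H} {l1 : H → Filter ι} {δ : H × ι → ℝ} {x : ℝ}
    (h : ∀ᶠ h in l0, Tendsto (fun i => δ (h, i)) (l1 h) (𝓝 x)) : Tendsto δ (iter l0 l1) (𝓝 x) := by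
  intro s hs
  rw [Filter.mem_map, mem_iter]
  filter_upwards [h] with a ha
  exact ha hs

end filter

/-- **the discrete contour sums for a fixed coarse parameter** -/
theorem dcont_le_of_engine {ι : Type*} {l : Filter ι} {F : ι → ℂ → ℂ} {δ : ι → ℝ} (hδ0 : ∀ᶠ i in l, 0 < δ i)
    (hδ : Tendsto δ l (𝓝 0)) {a b c d r : ℝ} (hab : a ≤ b) (hcd : c ≤ d) (hr : 0 < r)
    (heq : AEC l (Icc a (b + r) ×ℂ Icc c d) F) {B : ℝ} (hB : ∀ᶠ i in l, ∀ z ∈ Icc a (b + r) ×ℂ Icc c d, ‖F i z‖ ≤ B)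
    {n : ℕ} {v p : ℕ → ℝ} (v0 : v 0 = c) (vn : v n = d)
    (vmono : ∀ k < n, v k ≤ v (k + 1)) (hp0 : ∀ k < n, 0 ≤ p k) {C₀ : ℝ} (hC : 1 ≤ C₀)
    (hk : ∀ k < n, (v (k + 1) - v k ≤ p k ∧ ∀ x ∈ Icc a b, ∀ᶠ i in l, ‖F i (x + v k * I) - F i (x + v (k + 1) * I)‖ ≤ p k) ∨
      ∀ κ > 0, ∃ (K : ι → ℝ) (κ' : ℝ), 0 < κ' ∧ (∀ᶠ i in l, 0 ≤ K i) ∧
        Tendsto (fun i => K i * δ i ^ (1 / 5 : ℝ)) l (𝓝 0) ∧
        ∀ᶠ i in l, ∃ A : ℂ → ℂ,
          (∀ z ∈ Icc a (b + r) ×ℂ Icc (v k + κ) (v (k + 1) - κ), ‖F i z - A z‖ ≤ p k) ∧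
          EngMix C₀ κ' (K i) (δ i) (Icc a (b + r) ×ℂ Icc (v k + κ) (v (k + 1) - κ)) A) {η : ℝ} (hη : 0 < η) :
    ∀ᶠ i in l, ‖dcont (δ i) (F i) a b c d‖ ≤ 2 * ((b - a) + (d - c) + B) * ∑ k ∈ Finset.range n, p k + η := by
  by_contra hcon
  rw [Filter.not_eventually] at hcon
  set X := 2 * ((b - a) + (d - c) + B) * ∑ k ∈ Finset.range n, p k with hX
  have hne : (l ⊓ 𝓟 {i | ¬ ‖dcont (δ i) (F i) a b c d‖ ≤ X + η}).NeBot := by
    rw [← frequently_mem_iff_neBot]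
    exact hcon
  let V : Ultrafilter ι := Ultrafilter.of (l ⊓ 𝓟 {i | ¬ ‖dcont (δ i) (F i) a b c d‖ ≤ X + η})
  have hV : (V : Filter ι) ≤ l ⊓ 𝓟 {i | ¬ ‖dcont (δ i) (F i) a b c d‖ ≤ X + η} := Ultrafilter.of_le _
  have hVl : (V : Filter ι) ≤ l := hV.trans inf_le_left
  have hVb : ∀ᶠ i in (V : Filter ι), ¬ ‖dcont (δ i) (F i) a b c d‖ ≤ X + η := by
    have := hV.trans inf_le_right
    rwa [le_principal_iff] at this
  set R := Icc a (b + r) ×ℂ Icc c d with hR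
  -- the limit along the ultrafilter
  have hlim : ∀ z : ℂ, ∃ x : ℂ, z ∈ R → Tendsto (fun i => F i z) V (𝓝 x) := by
    intro z
    by_cases hz : z ∈ R
    · obtain ⟨x, -, hx⟩ := (isCompact_closedBall (0 : ℂ) B).ultrafilter_le_nhds (V.map fun i => F i z)
        (le_principal_iff.2 (Filter.mem_map.2 (by
          filter_upwards [hVl hB] with i hi
          simpa using hi z hz)))
      exact ⟨x, fun _ => hx⟩
    · exact ⟨0, fun h => absurd h hz⟩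
  choose G hG using hlim
  have heqV : AEC (V : Filter ι) R F := heq.mono hVl le_rfl
  have hGR : ContinuousOn G R := cont_of_AEC heqV fun z hz => hG z hz
  have hRR : [[a, b]] ×ℂ [[c, d]] ⊆ R := by
    rw [uIcc_of_le hab, uIcc_of_le hcd, hR]
    intro z hz
    rw [mem_reProdIm] at hz ⊢
    exact ⟨⟨hz.1.1, by linarith [hz.1.2]⟩, hz.2⟩
  have hGB : ∀ z ∈ R, ‖G z‖ ≤ B := fun z hz => le_of_tendsto (hG z hz).norm (by
    filter_upwards [hVl hB] with i hi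
    exact hi z hz)
  have key : ‖bint G a b c d‖ ≤ X :=
    bint_le_of_engine (l := (V : Filter ι)) (hVl hδ0) (hδ.mono_left hVl) hab hcd hr heqV (fun z hz => hG z hz) hGR
      v0 vn vmono hp0 hC hGB fun k hkn => by
        rcases hk k hkn with ⟨h1, h2⟩ | hk
        · exact Or.inl ⟨h1, fun x hx => (show ∀ᶠ i in (V : Filter ι), _ from hVl (h2 x hx)).frequently⟩
        refine Or.inr fun κ hκ => ?_
        obtain ⟨K, κ', h1, h2, h3, h4⟩ := hk κ hκ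
        exact ⟨K, κ', h1, hVl h2, h3.mono_left hVl, (show ∀ᶠ i in (V : Filter ι), _ from hVl h4).frequently⟩
  have ht := dcont_tendsto (l := (V : Filter ι)) (hVl hδ0) (hδ.mono_left hVl) hab hcd (heqV.mono le_rfl hRR)
    (fun z hz => hG z (hRR hz)) (hGR.mono hRR)
  have h1 : Tendsto (fun i => ‖dcont (δ i) (F i) a b c d‖) V (𝓝 ‖bint G a b c d‖) := ht.norm
  have h2 : X + η ≤ ‖bint G a b c d‖ := ge_of_tendsto h1 (by
    filter_upwards [hVb] with i hi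
    exact (not_le.1 hi).le)
  linarith

/-- **HOLOMORPHY IN THE ITERATED LIMIT.**  Every limit along a filter `l ≤ iter l0 l1` (for example an ultrafilter) is
holomorphic. -/
theorem holo_iter {H ι : Type*} {l0 : Filter H} {l1 : H → Filter ι} {U : Set ℂ} (hU : IsOpen U) {F : H × ι → ℂ → ℂ}
    {δ : H × ι → ℝ} (hδ0 : ∀ᶠ h in l0, ∀ᶠ i in l1 h, 0 < δ (h, i))
    (hδ : ∀ᶠ h in l0, Tendsto (fun i => δ (h, i)) (l1 h) (𝓝 0))
    (heq : ∀ K ⊆ U, IsCompact K → AEC (iter l0 l1) K F)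
    (heq' : ∀ K ⊆ U, IsCompact K → ∀ᶠ h in l0, AEC (l1 h) K fun i => F (h, i))
    (hB : ∀ K ⊆ U, IsCompact K → ∃ B : ℝ, ∀ᶠ h in l0, ∀ᶠ i in l1 h, ∀ z ∈ K, ‖F (h, i) z‖ ≤ B) {C₀ : ℝ} (hC : 1 ≤ C₀)
    (heng : ∀ a b c d : ℝ, a < b → c < d → Icc a b ×ℂ Icc c d ⊆ U → ∀ η > 0, ∀ᶠ h in l0,
      ∃ (n : ℕ) (v : ℕ → ℝ) (p : ℕ → ℝ), v 0 = c ∧ v n = d ∧ (∀ k < n, v k ≤ v (k + 1)) ∧ (∀ k < n, 0 ≤ p k) ∧
      ∑ k ∈ Finset.range n, p k ≤ η ∧
      ∀ k < n, (v (k + 1) - v k ≤ p k ∧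
          ∀ x ∈ Icc a b, ∀ᶠ i in l1 h, ‖F (h, i) (x + v k * I) - F (h, i) (x + v (k + 1) * I)‖ ≤ p k) ∨
        ∀ κ > 0, ∃ (K : ι → ℝ) (κ' : ℝ), 0 < κ' ∧ (∀ᶠ i in l1 h, 0 ≤ K i) ∧
        Tendsto (fun i => K i * δ (h, i) ^ (1 / 5 : ℝ)) (l1 h) (𝓝 0) ∧
        ∀ᶠ i in l1 h, ∃ A : ℂ → ℂ,
          (∀ z ∈ Icc a b ×ℂ Icc (v k + κ) (v (k + 1) - κ), ‖F (h, i) z - A z‖ ≤ p k) ∧
          EngMix C₀ κ' (K i) (δ (h, i)) (Icc a b ×ℂ Icc (v k + κ) (v (k + 1) - κ)) A)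
    {l : Filter (H × ι)} [l.NeBot] (hl : l ≤ iter l0 l1) {G : ℂ → ℂ}
    (hG : ∀ z ∈ U, Tendsto (fun x => F x z) l (𝓝 (G z))) : DifferentiableOn ℂ G U := by
  have h0 : ∀ᶠ x in iter l0 l1, 0 < δ x := eventually_iter.2 hδ0
  refine holo_of_dcont (l := l) hU (hl h0) ((tendsto_iter hδ).mono_left hl) (fun K hK hKc => (heq K hK hKc).mono hl le_rfl) hG
    fun a b c d hab hcd hR η hη => ?_
  obtain ⟨r, hr, hr'⟩ := enlarge hU hab.le hR
  have hK : IsCompact (Icc a (b + r) ×ℂ Icc c d) := isCompact_Icc.reProdIm isCompact_Icc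
  set L := (b - a) + (d - c) with hL
  have hL0 : 0 < L := by linarith
  obtain ⟨B, hB'⟩ := hB _ hr' hK
  set B' := max B 0 with hB'def
  have hB'0 : 0 ≤ B' := le_max_right _ _
  replace hB' : ∀ᶠ h in l0, ∀ᶠ i in l1 h, ∀ z ∈ Icc a (b + r) ×ℂ Icc c d, ‖F (h, i) z‖ ≤ B' := by
    filter_upwards [hB'] with h hh
    filter_upwards [hh] with i hi z hz
    exact (hi z hz).trans (le_max_left _ _)
  have key : ∀ᶠ x in iter l0 l1, ‖dcont (δ x) (F x) a b c d‖ ≤ η := by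
    rw [eventually_iter]
    filter_upwards [hδ0, hδ, heq' _ hr' hK, hB', heng a (b + r) c d (by linarith) hcd hr' (η / (4 * (L + B'))) (by positivity)] with
      h g1 g2 g3 g4 g5
    obtain ⟨n, v, p, v0, vn, vmono, hp0, hsum, hk⟩ := g5
    have := dcont_le_of_engine (l := l1 h) (F := fun i => F (h, i)) (δ := fun i => δ (h, i)) g1 g2 hab.le hcd.le hr g3 g4
      v0 vn vmono hp0 hC (fun k hkn => (hk k hkn).imp (fun ⟨h1, h2⟩ => ⟨h1, fun x hx => h2 x ⟨hx.1, by linarith [hx.2]⟩⟩) id)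
      (η := η / 2) (by positivity)
    filter_upwards [this] with i hi
    refine hi.trans ?_
    calc 2 * ((b - a) + (d - c) + B') * ∑ k ∈ Finset.range n, p k + η / 2 ≤ 2 * (L + B') * (η / (4 * (L + B'))) + η / 2 := by
          rw [← hL]
          gcongr
      _ = η := by field_simp; ring
  exact (show ∀ᶠ x in l, _ from hl key).frequently

end Full
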