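import Pool.Agent.Full.Asm.L7
import Pool.Agent.Full.Def.Stat

/-!
# FULL, assembly: the slabs of a rectangle of a shape
-/

set_option autoImplicit false

namespace Full

open Complex Set Filter Topology Metric Eng Shape

/-- **(S1) and (S2) give the slabs** of every rectangle of a shape which has a ladder of rows and bars -/
theorem slabsOK_of_shape (h1 : S1) (h2 : S2) : ∃ C₀ C c : ℝ, 1 ≤ C₀ ∧ 0 ≤ C ∧ 0 < c ∧ ∀ (S : Shape), S.Ok →
    ∀ m : S.Marks, m.Ok → ∀ A : ℝ, 1 ≤ A → S.Chan m A → ∀ lam R : ℝ, 0 < lam → 2 ≤ R →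
    ∀ {ι : Type} {l : Filter ι} {ν : ι → ℕ}, Tendsto ν l atTop → ∀ a b c' d : ℝ, c' ≤ d →
    (∀ z ∈ Icc (lam * a) (lam * b) ×ℂ Icc (lam * c') (lam * d), closedBall z R ⊆ S.dom) →
    ∀ (N : ℕ) (V : ℕ → ℝ), V 0 ≤ lam * c' → lam * d ≤ V N → (∀ k < N, V k ≤ V (k + 1)) →
    (∀ k < N, V (k + 1) - V k ≤ 1 ∨ ∃ r : S.R, V k = S.yb (.inl r) ∧ V (k + 1) = S.yt (.inl r) ∧
      (S.xl (.inl r) + A * (S.yt (.inl r) - S.yb (.inl r)) ≤ lam * a) ∧
      lam * b ≤ S.xr (.inl r) - A * (S.yt (.inl r) - S.yb (.inl r))) →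
    ∀ η : ℝ, N * (1 / lam + C * (1 / R) ^ c + C * Fintype.card S.R * Real.exp (-(c * A))) < η →
    SlabsOK C₀ l (fun i z => F m (ν i) (lam * z)) (fun i => 1 / (lam * ν i)) a b c' d η := by
  obtain ⟨C₀, C1, c1, hC₀, hc1, h1⟩ := h1
  obtain ⟨C2, c2, hc2, h2⟩ := h2
  set C := max (max C1 C2) 0 with hC
  have hC0 : 0 ≤ C := le_max_right _ _
  have hCC1 : C1 ≤ C := (le_max_left _ _).trans (le_max_left _ _)
  have hCC2 : C2 ≤ C := (le_max_right _ _).trans (le_max_left _ _)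
  set c := min c1 c2 with hc
  have hc0 : 0 < c := lt_min hc1 hc2
  refine ⟨C₀, C, c, hC₀, hC0, hc0, ?_⟩
  intro S hS m hm A hA hch lam R hlam hR ι l ν hν a b c' d hcd hball N V V0 Vn Vmono hV η hη
  have hR0 : 0 < R := by linarith
  refine slabsOK_of_rows (p1 := C * (1 / R) ^ c) (p2 := C * Fintype.card S.R * Real.exp (-(c * A))) hlam (by positivity)
    (by positivity) hν hcd ?_ V0 Vn Vmono ?_ hη
  · intro ε hε
    filter_upwards [h2 S hS m hm R (by linarith) ε hε] with n hn z hz z' hz' hzz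
    refine (hn z z' (hball z hz) (by linarith)).trans ?_
    have hd0 : 0 ≤ dist z z' / R := by positivity
    have hd1 : dist z z' / R ≤ 1 / R := by gcongr
    have hd2 : (dist z z' / R) ^ c2 ≤ (1 / R) ^ c := by
      calc (dist z z' / R) ^ c2 ≤ (1 / R) ^ c2 := Real.rpow_le_rpow hd0 hd1 hc2.le
        _ ≤ (1 / R) ^ c := Real.rpow_le_rpow_of_exponent_ge (by positivity) (by rw [div_le_one hR0]; linarith) (min_le_right _ _)
    have : C2 * (dist z z' / R) ^ c2 ≤ C * (1 / R) ^ c := by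
      calc C2 * (dist z z' / R) ^ c2 ≤ C * (dist z z' / R) ^ c2 := by gcongr
        _ ≤ C * (1 / R) ^ c := by gcongr
    linarith
  · intro k hk
    rcases hV k hk with h3 | ⟨r, e1, e2, e3, e4⟩
    · exact Or.inl h3
    refine Or.inr fun κ hκ => ?_
    obtain ⟨K, κ', g1, g2, g3, g4⟩ := h1 S hS m hm A hA hch r κ hκ
    refine ⟨K, κ', g1, g2, g3, fun ε hε => ?_⟩
    have hsub : Icc (lam * a) (lam * b) ×ℂ Icc (V k + κ) (V (k + 1) - κ) ⊆ S.mid r A κ := by
      intro z hz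
      rw [mem_reProdIm] at hz
      rw [e1, e2] at hz
      exact ⟨⟨by linarith [hz.1.1], by linarith [hz.1.2]⟩, hz.2.1, hz.2.2⟩
    filter_upwards [g4 ε hε] with n hn
    obtain ⟨A', q1, q2⟩ := hn
    refine ⟨A', ?_, fun z hz => (q2 z (hsub hz)).trans ?_⟩
    · obtain ⟨I, s, cc, ww, As, b1, b2, b3⟩ := q1
      refine ⟨I, s, cc, ww, As, b1, fun j hj => ?_, fun z hz => b3 z (hsub hz)⟩
      obtain ⟨J, L, i1, i2, i3, i4, N, Tu, Tl, W, O, Iv, x₀, y₀, top, bot, Ru, Rl, hW, hG, hN, hK, hA⟩ := b2 j hj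
      exact ⟨J, L, i1, i2, i3, i4, N, Tu, Tl, W, O, Iv, x₀, y₀, top, bot, Ru, Rl, hW, hG, hN, hK, fun z hz => hA z (hsub hz)⟩
    · have e5 : C1 * Fintype.card S.R * Real.exp (-(c1 * A)) ≤ C * Fintype.card S.R * Real.exp (-(c * A)) := by
        have h5 : c * A ≤ c1 * A := mul_le_mul_of_nonneg_right (min_le_left _ _) (by linarith)
        have h6 : Real.exp (-(c1 * A)) ≤ Real.exp (-(c * A)) := Real.exp_le_exp.2 (by linarith)
        have h7 : C1 * (Fintype.card S.R : ℝ) ≤ C * Fintype.card S.R := by gcongr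
        have h8 : 0 ≤ C * (Fintype.card S.R : ℝ) := by positivity
        calc C1 * Fintype.card S.R * Real.exp (-(c1 * A)) ≤ C * Fintype.card S.R * Real.exp (-(c1 * A)) := by gcongr
          _ ≤ _ := by gcongr
      linarith

end Full
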