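import Pool.Agent.Full.Asm.S1Stat
import Pool.Agent.Full.Asm.Arc
import Pool.Agent.Full.Geo.Conn
import Pool.Agent.Full.Geo.GoOk
import Pool.Agent.Full.Loc1.ShapeGood

/-!
# The geometry of the row of a shape
-/

set_option autoImplicit false

namespace Full

open Function Relation Filter Shape

namespace Shape
variable {S : Shape} {n : ℕ} {s : S.Q × Bool → ℕ}

/-- the slab of a room is unique -/
theorem IsSlab.eq (hS : S.Ok) (hs : S.Small2 n s) {q : S.Q} {D : Slab} (h : IsSlab n s q D) :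
    D = S.zslab hS hs (tree hS) q := by
  obtain ⟨L, U, l, r, b, t, h1, h2, h3⟩ := D
  obtain ⟨e1, e2, e3, e4, e5, e6⟩ := h
  simp only at e1 e2 e3 e4 e5 e6
  subst e1 e2 e3 e4 e5 e6
  rfl

end Shape

/-- vertical gluings do not see whether the row is closed -/
lemma Slab.gc_of_S {D : Slab} {x y : ℤ} (t : ZT) : D.gc x y (t, .S) = D.go x y (t, .S) := rfl

/-- **the labels of the walls of the row** (statement) -/
def LabStat : Prop := ∀ (S : Shape) (hS : S.Ok) (n : ℕ) (s : S.Q × Bool → ℕ) (hs : S.Small n s) (r : S.R) (a : ℤ),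
  8 ≤ a → (S.zslab hS hs.two (Shape.tree hS) (.inl r)).DeadEnd a → S.fl n s (.inl r) + a ≤ S.fr n s (.inl r) - a →
    ∃ (W : Lab) (nL nU : ℤ), W.Ok (S.zslab hS hs.two (Shape.tree hS) (.inl r)) a nL nU ∧
      ∀ x y, S.In n s (.inl r) x y → ∀ u, Bd (S.zT n s (.inl r) y) ((S.zslab hS hs.two (Shape.tree hS) (.inl r)).gc x y) u ∧
        u ≠ Shape.zz x y ↔ (S.zslab hS hs.two (Shape.tree hS) (.inl r)).IsW u

/-- **the labels of the boundary of the domains with the end `z`** (statement) -/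
def LabZStat : Prop := ∀ (S : Shape), S.Ok → ∀ m : S.Marks, m.Ok → ∀ (n : ℕ) (s : S.Q × Bool → ℕ), S.Small n s →
  ∀ σ : Fin 4 → ℕ, (∀ j, 4 * σ j ≤ n) → ∀ (q : S.Q) (x y : ℤ), S.In n s q x y → ∃ lab : Half ZT → Fin 4,
    Geo.LabCyc (next (S.zg n s q x y)) {u | Bd (S.zT n s q y) (S.zg n s q x y) u ∧ u ≠ Shape.zz x y} (m.ez n σ q) lab

/-- **the existence of a closed wall does not depend on the end in the room** (statement) -/
def WallStat : Prop := ∀ (S : Shape), S.Ok → ∀ m : S.Marks, m.Ok → ∀ n : ℕ, 8 ≤ n → ∀ (q : S.Q) (a : Shape.Sh S n)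
  (x y x' y' : ℤ), S.In n a.s q x y → S.In n a.s q x' y' →
    ((∃ w, Shape.IsWz m n q x y a w) ↔ ∃ w, Shape.IsWz m n q x' y' a w)

theorem labZStat : LabZStat := fun S hS m hm n s hs σ hσ q _ y h =>
  ⟨S.labz m n s σ q y, Shape.labCyc_z (σ := σ) hS hm hs hσ h⟩

theorem wallStat : WallStat := fun _ hS m hm _ hn q a _ _ _ _ h h' => Shape.wall_indep hS m hm hn q a h h'

/-- **the geometry of the rows of a shape** -/
theorem s1Geo_aux (h1 : LabStat) (h2 : LabZStat) (h3 : WallStat) : S1Geo := by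
  intro S hS m hm A hA hCh r
  filter_upwards [eventually_ge_atTop 8] with n hn
  intro a hadm D hD a' ha8 ha'
  have hs : S.Small n a.s := a.small hn
  obtain rfl := hD.eq hS hs.two
  set D := S.zslab hS hs.two (Shape.tree hS) (.inl r) with hDdef
  have hσ : ∀ j, 4 * a.σ j ≤ n := by
    intro j
    have : (a.2 j : ℕ) < n / 4 := (a.2 j).2
    show 4 * (a.2 j : ℕ) ≤ n
    omega
  by_cases hwide : D.l + a' ≤ D.r - a'
  swap
  · exact ⟨⟨fun _ => 0, fun _ => 0, 0⟩, 0, 0, 0, fun k _ _ _ x y hx hx' _ _ => absurd (hx.trans hx') hwide⟩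
  have hl : D.l = S.fl n a.s (.inl r) := rfl
  have hr : D.r = S.fr n a.s (.inl r) := rfl
  have hb : D.b = S.fb n (.inl r) := rfl
  have ht : D.t = S.ft n (.inl r) := rfl
  have hdead : D.DeadEnd a' := deadEnd hS hs.two (Shape.tree hS) hCh r (by linarith) (by omega)
  obtain ⟨W, nL, nU, hW, hgc⟩ := h1 S hS n a.s hs r a' ha8 hdead hwide
  have hbt := fb_lt_ft (n := n) hS hs.1 (.inl r)
  -- the marks at one position of `z`
  obtain ⟨x₀, y₀, hin₀, hw₀⟩ := hadm
  have hmark : ∀ j : Fin 4, D.IsW (m.ez n a.σ (.inl r) j) := by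
    intro j
    obtain ⟨lab, hlab⟩ := h2 S hS m hm n a.s hs a.σ hσ (.inl r) x₀ y₀ hin₀
    have hj := hlab.mem j
    refine (hgc x₀ y₀ hin₀ _).1 ⟨⟨hj.1.1, ?_⟩, hj.2⟩
    have h5 := hj.1.2
    rcases ez_cases (n := n) (σ := a.σ) hm (.inl r) j with h6 | h6
    · rw [h6] at h5 ⊢
      exact h5
    · rw [h6] at h5 ⊢
      exact h5
  obtain ⟨lab, hlab⟩ := h2 S hS m hm n a.s hs a.σ hσ (.inl r) x₀ y₀ hin₀
  obtain ⟨s, hM⟩ := Slab.exists_marksOk (D := D) (e := m.ez n a.σ (.inl r)) hW (by omega) hin₀.1.1 hin₀.1.2 hin₀.2.1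
    hin₀.2.2 hlab (fun i => hmark _) (fun i => outDead_ez hS hs hm hσ hCh (by linarith) _ (by omega))
  refine ⟨W, nL, nU, s, fun k hk hkt hak x y hx hx' hy hy' => ?_⟩
  have hin : S.In n a.s (.inl r) x y := ⟨⟨by omega, by omega⟩, hy, hy'⟩
  have hrange : (Set.range fun i : Fin 3 => m.ez n a.σ (.inl r) (i + s).castSucc) =
      Set.range fun j : Fin 3 => m.ez n a.σ (.inl r) j.castSucc := by
    ext u
    constructor
    · rintro ⟨i, rfl⟩
      exact ⟨i + s, rfl⟩
    · rintro ⟨i, rfl⟩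
      exact ⟨i - s, by simp⟩
  exact
    { good := ⟨hdead, by omega, by omega, hx, hx', hy.le, hy'.le⟩
      yb := hy
      yt := hy'
      hk := hk
      hkt := hkt
      hak := hak
      go := goOk hS hs hin.1.1.le hin.1.2 hy hy'
      scz := scz hS hs (.inl r) hin.1.1.le hin.1.2.le hy hy'
      conn := fun t ht' u hu => tconn_z hS hs.two (Shape.tree hS) hin ht' hu
      nz := next_z hS hs.two (.inl r) hin.1.1 hin.1.2 hy hy'
      cyc := fun u v hu hv hu' hv' => cycle_z' hS hs (.inl r) hin.1.1.le hin.1.2.le hy hy' hu hv hu' hv'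
        (tconn_z hS hs.two (Shape.tree hS) hin hu.1 hv.1)
      isW_gc := fun u => hgc x y hin u
      ok := hW
      marks := hM
      wall := by
        rw [hrange]
        exact (h3 S hS m hm n hn (.inl r) a x₀ y₀ x y hin₀ hin).1 hw₀ }

/-- **the geometry of the rows of a shape**, from the labels of the walls of the rows -/
theorem s1Geo (h1 : LabStat) : S1Geo := s1Geo_aux h1 labZStat wallStat

end Full
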