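import Pool.Agent.Full.Asm.S1Main
import Pool.Agent.Full.Asm.S1Geo
import Pool.Agent.Full.Geo.WallsF
import Pool.Agent.Full.Bad.SlabAmp
import Pool.Agent.Full.X3.Fin
import Pool.Agent.Full.X3.ThShape

/-!
# (S1) from the blocks

`s1_of_blocks : AmpGood → AmpSq → NormOk → S1Geo → S1`, where the dependence on the end inside the room is
`Shape.wall_indep`; `ampGood : AmpGood` (X3b), `ampSq : AmpSq` (X2b) and `s1Geo labStat : S1Geo` (the geometry) are
plugged in by `s1_of`.
-/

set_option autoImplicit false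

namespace Full

/-- **(S1)** from X3b, X2b, N8 and the geometry of the rows -/
theorem s1_of_blocks (hA : AmpGood) (hB : AmpSq) (hN : NormOk) (hG : S1Geo) : S1 :=
  s1_of_slab (slabS1_of hA hB hN hG) fun hS m hm _ hn q a _ _ _ _ h h' => Shape.wall_indep hS m hm hn q a h h'

/-- **X2b** -/
theorem ampSq : AmpSq := by
  obtain ⟨B, hB⟩ := Slab.ampE_sq
  exact ⟨B, fun D W a nL nU k E x y h => hB D W a nL nU k E x y h h.go h.hkt⟩

/-- **(S1)** from N8 -/
theorem s1_of (hN : NormOk) : S1 := s1_of_blocks ampGood ampSq hN (s1Geo labStat)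

end Full
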