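import Pool.Agent.Full.Asm.SixD
import Pool.Agent.Full.Dict3.NetSix
import Pool.Agent.Full.Def.Stat
import Pool.Agent.Full.Geo.Free
import Pool.Agent.Full.Geo.Slab
import Pool.Agent.Full.Disc.SlabSC
import Pool.Agent.Full.Geo.WallsF

/-!
# FULL, assembly: from the slabs of one shift to the averaged observable of a shape

`Slab.Amp D M K A`: the function `A` of the integer points of the row rectangle of `D` is a six vertex amplitude, `K` bounds
the norms of the environments after at least `M` rows.  `Slab.MixA`: a constant plus a mixture.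
`Asm.s1_aux`: the average over the admissible shifts of such mixtures is an `EngMix`.
-/

set_option autoImplicit false

namespace Full

open Complex Set Filter Topology Metric Matrix Eng SixV

open scoped Matrix.Norms.L2Operator

/-- the function `A` of the integer points is an amplitude of the row rectangle of `D`; `K` bounds the norms of the
environments after at least `M` rows -/
def Slab.Amp (D : Slab) (M K : ℝ) (A : ℤ → ℤ → ℂ) : Prop :=
  ∃ (d : Bool → ℂ) (O : Cfg (D.n + 1) → ℂ) (Iv : Cfg (D.n + 2) → ℂ), Tw d ∧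
    (∀ p q : ℕ, M ≤ p → M ≤ q → (p : ℤ) ≤ D.t - D.b - 2 → (q : ℤ) ≤ D.t - D.b - 2 →
      ‖WithLp.toLp 2 (O ᵥ* TupD (D.n + 1) d ((Real.pi / 6 : ℝ) : ℂ) ^ p)‖ *
        ‖WithLp.toLp 2 (TlowD (D.n + 1) d ((Real.pi / 6 : ℝ) : ℂ) ^ q *ᵥ Iv)‖ ≤ K) ∧
    ∀ x y : ℤ, D.l ≤ x → x ≤ D.r → D.b < y → y < D.t →
      A x y = sixFD (D.n + 1) d O Iv (x - D.l).toNat (D.t - 1 - y).toNat (y - 1 - D.b).toNat

/-- a constant plus a mixture of amplitudes of the row rectangle of `D` -/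
def Slab.MixA (D : Slab) (M K : ℝ) (A : ℤ → ℤ → ℂ) : Prop :=
  ∃ (I : Type) (s : Finset I) (c : ℂ) (w : I → ℂ) (As : I → ℤ → ℤ → ℂ), ∑ j ∈ s, ‖w j‖ ≤ 1 ∧
    (∀ j ∈ s, D.Amp M K (As j)) ∧
    ∀ x y : ℤ, D.l ≤ x → x ≤ D.r → D.b < y → y < D.t → A x y = c + ∑ j ∈ s, w j * As j x y

/-- the coarse function of a function of the integer points, mesh `1 / n` -/
noncomputable def coarse (n : ℕ) (A : ℤ → ℤ → ℂ) (z : ℂ) : ℂ := A ⌊n * z.re⌋ (⌊n * z.im⌋ + 1)

lemma Slab.n_eq (D : Slab) : ((D.n + 1 : ℕ) : ℤ) = D.r - D.l := by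
  have := D.r_eq
  push_cast
  omega

/-- **scaling**: an amplitude of a slab is an amplitude of the engine on every set of points which are inside the slab -/
theorem Slab.Amp.eng {D : Slab} {M K κ : ℝ} {A : ℤ → ℤ → ℂ} {n : ℕ} (hn : 0 < n) (h : D.Amp M K A) {S : Set ℂ}
    (hκ : M ≤ κ / 4 * n) (hN : κ ≤ (D.r - D.l) / n)
    (hS : ∀ z ∈ S, ((D.l : ℝ) ≤ n * z.re ∧ n * z.re < D.r) ∧ (D.b : ℝ) + κ * n + 1 ≤ n * z.im ∧
      n * z.im ≤ D.t - κ * n - 2) (hκ0 : 0 ≤ κ) (hK0 : 0 ≤ K) :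
    EngAmp 6 κ K (1 / n) S (coarse n A) := by
  obtain ⟨d, O, Iv, hd, hK, hA⟩ := h
  have hn' : (0 : ℝ) < n := by exact_mod_cast hn
  have hN' : κ ≤ ((D.n + 1 : ℕ) : ℝ) * (1 / n) := by
    have := D.n_eq
    have h2 : ((D.n + 1 : ℕ) : ℝ) = D.r - D.l := by exact_mod_cast this
    rw [h2, mul_one_div]
    exact hN
  rcases S.eq_empty_or_nonempty with rfl | ⟨z₀, hz₀⟩
  · refine SixAmpD.eng ⟨D.n + 1, d, 0, 0, 0, 0, 0, 0, hd, hN', ?_, ?_⟩
    · intro p q _ _ _ _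
      simpa using hK0
    · intro z hz
      exact absurd hz (Set.notMem_empty z)
  obtain ⟨⟨g1, g2⟩, g3, g4⟩ := hS z₀ hz₀
  have hbt : (D.b : ℝ) + 3 ≤ D.t := by nlinarith
  have hbt' : D.b + 3 ≤ D.t := by exact_mod_cast hbt
  refine SixAmpD.eng ⟨D.n + 1, d, O, Iv, D.l / n, D.b / n, (D.t - D.b - 2).toNat, 0, hd, hN', ?_, ?_⟩
  · intro p q hp hq hp' hq'
    rw [mul_one_div, le_div_iff₀ hn'] at hp hq
    exact hK p q (hκ.trans hp) (hκ.trans hq) (by omega) (by omega)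
  · intro z hz
    obtain ⟨⟨f1, f2⟩, f3, f4⟩ := hS z hz
    have hkn : 0 ≤ κ * n := by positivity
    have e1 : (z.re - D.l / n) / (1 / n) = n * z.re - D.l := by field_simp
    have e2 : (z.im - D.b / n) / (1 / n) = n * z.im - D.b := by field_simp
    have e3 : ⌊n * z.re - (D.l : ℝ)⌋ = ⌊n * z.re⌋ - D.l := Int.floor_sub_intCast _ _
    have e4 : ⌊n * z.im - (D.b : ℝ)⌋ = ⌊n * z.im⌋ - D.b := Int.floor_sub_intCast _ _
    have k1 : D.l ≤ ⌊n * z.re⌋ := Int.le_floor.2 f1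
    have k2 : ⌊n * z.re⌋ < D.r := Int.floor_lt.2 f2
    have k3 : D.b + 1 ≤ ⌊n * z.im⌋ := Int.le_floor.2 (by push_cast; linarith)
    have k4 : ⌊n * z.im⌋ ≤ D.t - 2 := by
      have : (⌊n * z.im⌋ : ℝ) ≤ D.t - 2 := (Int.floor_le _).trans (by linarith)
      exact_mod_cast this
    have e5 : ⌊(z.re - D.l / n) / (1 / n)⌋₊ = (⌊n * z.re⌋ - D.l).toNat := by
      rw [e1, ← Int.floor_toNat, e3]
    have e6 : ⌊(z.im - D.b / n) / (1 / n)⌋₊ = (⌊n * z.im⌋ - D.b).toNat := by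
      rw [e2, ← Int.floor_toNat, e4]
    have e7 : (((⌊n * z.im⌋ - D.b).toNat : ℕ) : ℝ) = ⌊n * z.im⌋ - D.b := by
      have : (((⌊n * z.im⌋ - D.b).toNat : ℕ) : ℤ) = ⌊n * z.im⌋ - D.b := Int.toNat_of_nonneg (by omega)
      exact_mod_cast this
    have e8 : (((D.t - D.b - 2).toNat : ℕ) : ℝ) = D.t - D.b - 2 := by
      have : (((D.t - D.b - 2).toNat : ℕ) : ℤ) = D.t - D.b - 2 := Int.toNat_of_nonneg (by omega)
      exact_mod_cast this
    have f5 : (⌊n * z.im⌋ : ℝ) ≤ n * z.im := Int.floor_le _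
    have f6 : n * z.im - 1 < ⌊n * z.im⌋ := Int.sub_one_lt_floor _
    refine ⟨?_, ?_, ?_, ?_, ?_, ?_⟩
    · rw [div_le_iff₀ hn', mul_comm]
      exact f1
    · rw [div_le_iff₀ hn', mul_comm]
      linarith
    · rw [e6]
      omega
    · rw [e6, e7, e8, mul_one_div, le_div_iff₀ hn']
      linarith
    · rw [e6, e7, mul_one_div, le_div_iff₀ hn']
      push_cast
      linarith
    · unfold coarse
      rw [hA _ _ k1 k2.le (by omega) (by omega), e5, e6]
      congr 1 <;> omega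

lemma Slab.MixA.eng {D : Slab} {M K κ : ℝ} {A : ℤ → ℤ → ℂ} {n : ℕ} (hn : 0 < n) (h : D.MixA M K A) {S : Set ℂ}
    (hκ : M ≤ κ / 4 * n) (hN : κ ≤ (D.r - D.l) / n)
    (hS : ∀ z ∈ S, ((D.l : ℝ) ≤ n * z.re ∧ n * z.re < D.r) ∧ (D.b : ℝ) + κ * n + 1 ≤ n * z.im ∧
      n * z.im ≤ D.t - κ * n - 2) (hκ0 : 0 ≤ κ) (hK0 : 0 ≤ K) :
    EngMix 6 κ K (1 / n) S (coarse n A) := by
  obtain ⟨I, s, c, w, As, hw, hs, hA⟩ := h
  refine ⟨I, s, c, w, fun j => coarse n (As j), hw, fun j hj => (hs j hj).eng hn hκ hN hS hκ0 hK0, fun z hz => ?_⟩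
  obtain ⟨⟨f1, f2⟩, f3, f4⟩ := hS z hz
  have hkn : 0 ≤ κ * n := by positivity
  have k1 : D.l ≤ ⌊n * z.re⌋ := Int.le_floor.2 f1
  have k2 : ⌊n * z.re⌋ < D.r := Int.floor_lt.2 f2
  have k3 : D.b + 1 ≤ ⌊n * z.im⌋ := Int.le_floor.2 (by push_cast; linarith)
  have k4 : ⌊n * z.im⌋ ≤ D.t - 2 := by
    have : (⌊n * z.im⌋ : ℝ) ≤ D.t - 2 := (Int.floor_le _).trans (by linarith)
    exact_mod_cast this
  exact hA _ _ k1 k2.le (by omega) (by omega)

/-- a zero function is a mixture -/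
lemma Slab.MixA.zero (D : Slab) (M K : ℝ) : D.MixA M K fun _ _ => 0 :=
  ⟨Unit, ∅, 0, fun _ => 0, fun _ _ _ => 0, by simp, by simp, by simp⟩

/-- averages of mixtures are mixtures -/
lemma EngMix.avg {C₀ κ K δ : ℝ} {S : Set ℂ} {α : Type} (t : Finset α) {A : α → ℂ → ℂ}
    (h : ∀ a ∈ t, EngMix C₀ κ K δ S (A a)) : EngMix C₀ κ K δ S fun z => (∑ a ∈ t, A a z) / (t.card : ℂ) := by
  classical
  rcases t.eq_empty_or_nonempty with rfl | ht
  · exact ⟨Unit, ∅, 0, fun _ => 0, fun _ _ => 0, by simp, by simp, by simp⟩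
  have hc : (0 : ℝ) < t.card := by exact_mod_cast ht.card_pos
  choose! I s c w As hw hs hA using h
  refine ⟨(a : α) × I a, t.sigma s, (∑ a ∈ t, c a) / (t.card : ℂ), fun p => w p.1 p.2 / (t.card : ℂ), fun p => As p.1 p.2, ?_, ?_, ?_⟩
  · rw [Finset.sum_sigma]
    have h1 : ∀ a ∈ t, ∑ j ∈ s a, ‖w a j / (t.card : ℂ)‖ ≤ 1 / t.card := by
      intro a ha
      have h2 : ∀ j, ‖w a j / (t.card : ℂ)‖ = ‖w a j‖ / t.card := fun j => by
        rw [norm_div, Complex.norm_natCast]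
      simp only [h2]
      rw [← Finset.sum_div]
      exact div_le_div_of_nonneg_right (hw a ha) hc.le
    refine (Finset.sum_le_sum h1).trans ?_
    rw [Finset.sum_const, nsmul_eq_mul]
    field_simp
    exact le_rfl
  · intro p hp
    rw [Finset.mem_sigma] at hp
    exact hs p.1 hp.1 p.2 hp.2
  · intro z hz
    show (∑ a ∈ t, A a z) / (t.card : ℂ) = _
    rw [Finset.sum_sigma, Finset.sum_congr rfl fun a ha => hA a ha z hz, Finset.sum_add_distrib, add_div]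
    congr 1
    rw [Finset.sum_div]
    refine Finset.sum_congr rfl fun a _ => ?_
    rw [Finset.sum_div]
    exact Finset.sum_congr rfl fun j _ => by ring

namespace Shape

variable {S : Shape}

/-- a coarse point is in at most one room -/
theorem Ok.room_unique (hS : S.Ok) {z : ℂ} {p q : S.Q}
    (hp : ((S.xl p : ℝ) < z.re ∧ z.re < S.xr p) ∧ (S.yb p : ℝ) ≤ z.im ∧ z.im < S.yt p)
    (hq : ((S.xl q : ℝ) < z.re ∧ z.re < S.xr q) ∧ (S.yb q : ℝ) ≤ z.im ∧ z.im < S.yt q) : p = q := by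
  by_contra hne
  obtain ⟨⟨p1, p2⟩, p3, p4⟩ := hp
  obtain ⟨⟨q1, q2⟩, q3, q4⟩ := hq
  by_cases h1 : S.On p q
  · have := hS.on_y _ _ h1
    rw [this] at p4
    linarith
  by_cases h2 : S.On q p
  · have := hS.on_y _ _ h2
    rw [this] at q4
    linarith
  have key : ∀ u v : ℤ, u < v → (u : ℝ) < v := fun u v h => by exact_mod_cast h
  rcases hS.sep p q hne h1 h2 with h | h | h | h
  · have := key _ _ h; linarith
  · have := key _ _ h; linarith
  · have := key _ _ h; linarith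
  · have := key _ _ h; linarith

/-- the observable in a room -/
theorem F_eq_room (hS : S.Ok) (m : S.Marks) (n : ℕ) {z : ℂ} {q : S.Q}
    (hq : ((S.xl q : ℝ) < z.re ∧ z.re < S.xr q) ∧ (S.yb q : ℝ) ≤ z.im ∧ z.im < S.yt q) :
    F m n z = Fav m n q ⌊n * z.re⌋ (min (⌊n * z.im⌋ + 1) (S.ft n q - 1)) := by
  have h : ∃ q : S.Q, ((S.xl q : ℝ) < z.re ∧ z.re < S.xr q) ∧ (S.yb q : ℝ) ≤ z.im ∧ z.im < S.yt q := ⟨q, hq⟩
  unfold F
  rw [dif_pos h, hS.room_unique h.choose_spec hq]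

/-- the shift `a` is admissible for the room `q` -/
def AdmSh (m : S.Marks) (n : ℕ) (q : S.Q) (a : Sh S n) : Prop :=
  ∃ x y : ℤ, S.In n a.s q x y ∧ ∃ w, IsWz m n q x y a w

/-- `D` is the slab of the row rectangle of the room `q` -/
structure IsSlab (n : ℕ) (s : S.Q × Bool → ℕ) (q : S.Q) (D : Slab) : Prop where
  L : D.L = S.side n s q false
  U : D.U = S.side n s q true
  l : D.l = S.fl n s q
  r : D.r = S.fr n s q
  b : D.b = S.fb n q
  t : D.t = S.ft n q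

/-- the rooms form a tree -/
theorem Ok.tree (hS : S.Ok) : S.Tree := by
  have hs : S.Small2 8 (fun _ => 0) := ⟨le_rfl, fun _ => by simp⟩
  exact tree_of_sc hS hs (isPlane_plane.sc fun c hc => free hS hs c hc)

theorem isSlab_zslab (hS : S.Ok) {n : ℕ} {s : S.Q × Bool → ℕ} (hs : S.Small2 n s) (q : S.Q) :
    IsSlab n s q (S.zslab hS hs hS.tree q) := ⟨rfl, rfl, rfl, rfl, rfl, rfl⟩

end Shape

/-- **the slab statement**: for every admissible shift -/
def SlabS1 : Prop := ∃ C c : ℝ, 0 < c ∧ ∀ (S : Shape), S.Ok → ∀ m : S.Marks, m.Ok → ∀ A : ℝ, 1 ≤ A →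
  S.Chan m A → ∀ r : S.R, ∀ κ > 0, ∃ (K : ℕ → ℝ), (∀ n, 0 ≤ K n) ∧
    Tendsto (fun n : ℕ => K n * (1 / (n : ℝ)) ^ (1 / 5 : ℝ)) atTop (𝓝 0) ∧
    ∀ ε > 0, ∀ᶠ n : ℕ in atTop, ∀ a : Shape.Sh S n, Shape.AdmSh m n (.inl r) a → ∀ D : Slab,
      Shape.IsSlab n a.s (.inl r) D → ∃ B : ℤ → ℤ → ℂ, D.MixA (min κ 1 / 8 * n) (K n) B ∧
        ∀ x y : ℤ, (n * (S.xl (.inl r) + A * (S.yt (.inl r) - S.yb (.inl r))) - 1 ≤ (x : ℝ) ∧
            (x : ℝ) ≤ n * (S.xr (.inl r) - A * (S.yt (.inl r) - S.yb (.inl r)))) →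
          (n * (S.yb (.inl r) + κ) ≤ (y : ℝ) ∧ (y : ℝ) ≤ n * (S.yt (.inl r) - κ) + 1) →
          ‖Shape.Fz m n (.inl r) x y a - B x y‖ ≤ C * Fintype.card S.R * Real.exp (-(c * A)) + ε

/-- **the averaged observable is a mixture of amplitudes of the engine**: average over the admissible shifts and scaling;
`hind`: whether there is a closed wall does not depend on the position of `z` in the room -/
theorem s1_of_slab (h : SlabS1)
    (hind : ∀ {S : Shape}, S.Ok → ∀ m : S.Marks, m.Ok → ∀ {n : ℕ}, 8 ≤ n → ∀ (q : S.Q) (a : Shape.Sh S n) {x y x' y' : ℤ},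
      S.In n a.s q x y → S.In n a.s q x' y' → ((∃ w, Shape.IsWz m n q x y a w) ↔ ∃ w, Shape.IsWz m n q x' y' a w)) :
    S1 := by
  classical
  obtain ⟨C, c, hc, h⟩ := h
  refine ⟨6, |C|, c, by norm_num, hc, fun S hS m hm A hA hCh r κ hκ => ?_⟩
  obtain ⟨K, hK0, hKt, hK⟩ := h S hS m hm A hA hCh r κ hκ
  set h0 : ℝ := S.yt (.inl r) - S.yb (.inl r) with hh0
  have hh : 1 ≤ h0 := by
    have := hS.y_lt (.inl r)
    have : ((S.yb (.inl r) + 1 : ℤ) : ℝ) ≤ S.yt (.inl r) := by exact_mod_cast this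
    push_cast at this
    linarith
  have hw : (1 : ℝ) ≤ S.xr (.inl r) - S.xl (.inl r) := by
    have := hS.x_lt (.inl r)
    have : ((S.xl (.inl r) + 1 : ℤ) : ℝ) ≤ S.xr (.inl r) := by exact_mod_cast this
    push_cast at this
    linarith
  set κ' : ℝ := min (κ / 2) (1 / 2) with hκ'
  have hκ'0 : 0 < κ' := by positivity
  have hκ'1 : κ' ≤ κ / 2 := min_le_left _ _
  have hκ'2 : κ' ≤ 1 / 2 := min_le_right _ _
  have hκ'3 : κ' = min κ 1 / 2 := by
    rw [hκ', min_div_div_right (by norm_num)]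
  have hAh : 1 ≤ A * h0 := by nlinarith
  refine ⟨K, κ', hκ'0, hK0, hKt, fun ε hε => ?_⟩
  filter_upwards [hK ε hε, eventually_ge_atTop 8, eventually_ge_atTop ⌈4 / κ⌉₊] with n hKn hn8 hnκ
  have hn0 : 0 < n := by omega
  have hnR : (0 : ℝ) < n := by exact_mod_cast hn0
  have hn8R : (8 : ℝ) ≤ n := by exact_mod_cast hn8
  have hκ'n : κ' * n ≤ κ * n / 2 := by
    have := mul_le_mul_of_nonneg_right hκ'1 hnR.le
    linarith
  have hκ'n2 : κ' * n ≤ n / 2 := by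
    have := mul_le_mul_of_nonneg_right hκ'2 hnR.le
    linarith
  have hwn : (n : ℝ) ≤ n * S.xr (.inl r) - n * S.xl (.inl r) := by
    have := mul_le_mul_of_nonneg_left hw hnR.le
    linarith
  have hκn : 4 ≤ κ * n := by
    have := (Nat.le_ceil (4 / κ)).trans (by exact_mod_cast hnκ : (⌈4 / κ⌉₊ : ℝ) ≤ n)
    rw [div_le_iff₀ hκ] at this
    linarith
  have hs : ∀ (a : Shape.Sh S n) (v : S.Q × Bool), (0 : ℝ) ≤ (a.s v : ℝ) ∧ 4 * (a.s v : ℝ) ≤ n := by
    intro a v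
    refine ⟨by positivity, ?_⟩
    have : (a.1 v : ℕ) < n / 4 := (a.1 v).2
    have h2 : 4 * a.s v ≤ n := by
      show 4 * (a.1 v : ℕ) ≤ n
      omega
    exact_mod_cast h2
  -- inside the slab
  have hz1 : ∀ z ∈ S.mid r A κ, (((S.xl (.inl r) : ℝ) * n + n ≤ n * z.re) ∧ n * z.re ≤ (S.xr (.inl r) : ℝ) * n - n) ∧
      ((S.yb (.inl r) : ℝ) * n + κ * n ≤ n * z.im) ∧ n * z.im ≤ (S.yt (.inl r) : ℝ) * n - κ * n := by
    rintro z ⟨⟨z1, z2⟩, z3, z4⟩
    rw [← hh0] at z1 z2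
    have g1 := mul_le_mul_of_nonneg_left z1 hnR.le
    have g2 := mul_le_mul_of_nonneg_left z2 hnR.le
    have g3 := mul_le_mul_of_nonneg_left z3 hnR.le
    have g4 := mul_le_mul_of_nonneg_left z4 hnR.le
    have g5 := mul_le_mul_of_nonneg_left hAh hnR.le
    refine ⟨⟨?_, ?_⟩, ?_, ?_⟩ <;> linarith
  have hin : ∀ z ∈ S.mid r A κ, ∀ a : Shape.Sh S n, S.In n a.s (.inl r) ⌊n * z.re⌋ (⌊n * z.im⌋ + 1) := by
    intro z hz a
    obtain ⟨⟨z1, z2⟩, z3, z4⟩ := hz1 z hz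
    obtain ⟨s1, s2⟩ := hs a (.inl r, false)
    obtain ⟨s3, s4⟩ := hs a (.inl r, true)
    have e1 : (S.fl n a.s (.inl r) : ℝ) = n * S.xl (.inl r) + a.s (.inl r, false) := by
      unfold Shape.fl; push_cast; ring
    have e2 : (S.fr n a.s (.inl r) : ℝ) = n * S.xr (.inl r) + a.s (.inl r, true) := by
      unfold Shape.fr; push_cast; ring
    have e3 : (S.fb n (.inl r) : ℝ) = n * S.yb (.inl r) := by
      unfold Shape.fb; push_cast; ring
    have e4 : (S.ft n (.inl r) : ℝ) = n * S.yt (.inl r) := by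
      unfold Shape.ft; push_cast; ring
    have f5 := Int.floor_le (n * z.im)
    have f6 := Int.sub_one_lt_floor (n * z.im)
    have f7 := Int.floor_le (n * z.re)
    have f8 := Int.sub_one_lt_floor (n * z.re)
    refine ⟨⟨?_, ?_⟩, ?_, ?_⟩
    · have : (S.fl n a.s (.inl r) : ℝ) < ⌊n * z.re⌋ := by rw [e1]; linarith
      exact_mod_cast this
    · have : (⌊n * z.re⌋ : ℝ) < S.fr n a.s (.inl r) := by rw [e2]; linarith
      exact_mod_cast this
    · have : (S.fb n (.inl r) : ℝ) < ⌊n * z.im⌋ + 1 := by rw [e3]; linarith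
      exact_mod_cast this
    · have : (⌊n * z.im⌋ : ℝ) + 1 < S.ft n (.inl r) := by rw [e4]; linarith
      exact_mod_cast this
  have hadm : ∀ z ∈ S.mid r A κ, ∀ a : Shape.Sh S n,
      (∃ w, Shape.IsWz m n (.inl r) ⌊n * z.re⌋ (⌊n * z.im⌋ + 1) a w) ↔ Shape.AdmSh m n (.inl r) a := by
    intro z hz a
    constructor
    · intro hw'
      exact ⟨_, _, hin z hz a, hw'⟩
    · rintro ⟨x, y, h1, h2⟩
      exact (hind hS m hm hn8 (.inl r) a h1 (hin z hz a)).1 h2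
  set t : Finset (Shape.Sh S n) := Finset.univ.filter (Shape.AdmSh m n (.inl r)) with ht
  have hB : ∀ a ∈ t, ∃ B : ℤ → ℤ → ℂ, EngMix 6 κ' (K n) (1 / n) (S.mid r A κ) (coarse n B) ∧
      ∀ z ∈ S.mid r A κ, ‖Shape.Fz m n (.inl r) ⌊n * z.re⌋ (⌊n * z.im⌋ + 1) a - coarse n B z‖ ≤
        C * Fintype.card S.R * Real.exp (-(c * A)) + ε := by
    intro a ha
    have hD := Shape.isSlab_zslab hS (a.small hn8).two (.inl r)
    set D : Slab := S.zslab hS (a.small hn8).two hS.tree (.inl r)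
    obtain ⟨B, hB1, hB2⟩ := hKn a (Finset.mem_filter.1 ha).2 D hD
    obtain ⟨s1, s2⟩ := hs a (.inl r, false)
    obtain ⟨s3, s4⟩ := hs a (.inl r, true)
    have e1 : (D.l : ℝ) = n * S.xl (.inl r) + a.s (.inl r, false) := by
      rw [hD.l]; unfold Shape.fl; push_cast; ring
    have e2 : (D.r : ℝ) = n * S.xr (.inl r) + a.s (.inl r, true) := by
      rw [hD.r]; unfold Shape.fr; push_cast; ring
    have e3 : (D.b : ℝ) = n * S.yb (.inl r) := by
      rw [hD.b]; unfold Shape.fb; push_cast; ring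
    have e4 : (D.t : ℝ) = n * S.yt (.inl r) := by
      rw [hD.t]; unfold Shape.ft; push_cast; ring
    refine ⟨B, hB1.eng hn0 ?_ ?_ ?_ hκ'0.le (hK0 n), fun z hz => hB2 _ _ ?_ ?_⟩
    · rw [hκ'3]; apply le_of_eq; ring
    · rw [le_div_iff₀ hnR, e1, e2]
      linarith
    · intro z hz
      obtain ⟨⟨z1, z2⟩, z3, z4⟩ := hz1 z hz
      rw [e1, e2, e3, e4]
      refine ⟨⟨?_, ?_⟩, ?_, ?_⟩ <;> linarith
    · obtain ⟨⟨z1, z2⟩, z3, z4⟩ := hz
      have f7 := Int.floor_le (n * z.re)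
      have f8 := Int.sub_one_lt_floor (n * z.re)
      have g1 := mul_le_mul_of_nonneg_left z1 hnR.le
      have g2 := mul_le_mul_of_nonneg_left z2 hnR.le
      exact ⟨by linarith, by linarith⟩
    · obtain ⟨⟨z1, z2⟩, z3, z4⟩ := hz
      have f5 := Int.floor_le (n * z.im)
      have f6 := Int.sub_one_lt_floor (n * z.im)
      have g1 := mul_le_mul_of_nonneg_left z3 hnR.le
      have g2 := mul_le_mul_of_nonneg_left z4 hnR.le
      push_cast
      exact ⟨by linarith, by linarith⟩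
  choose! B hB1 hB2 using hB
  refine ⟨fun z => (∑ a ∈ t, coarse n (B a) z) / (t.card : ℂ), EngMix.avg t hB1, fun z hz => ?_⟩
  have hzq : ((S.xl (.inl r) : ℝ) < z.re ∧ z.re < S.xr (.inl r)) ∧ (S.yb (.inl r) : ℝ) ≤ z.im ∧ z.im < S.yt (.inl r) := by
    obtain ⟨⟨z1, z2⟩, z3, z4⟩ := hz
    rw [← hh0] at z1 z2
    exact ⟨⟨by linarith, by linarith⟩, by linarith, by linarith⟩
  have hF : Shape.F m n z = (∑ a ∈ t, Shape.Fz m n (.inl r) ⌊n * z.re⌋ (⌊n * z.im⌋ + 1) a) / (t.card : ℂ) := by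
    have hy : min (⌊n * z.im⌋ + 1) (S.ft n (.inl r) - 1) = ⌊n * z.im⌋ + 1 := by
      obtain ⟨⟨z1, z2⟩, z3, z4⟩ := hz1 z hz
      have e4 : (S.ft n (.inl r) : ℝ) = n * S.yt (.inl r) := by
        unfold Shape.ft; push_cast; ring
      have f5 := Int.floor_le (n * z.im)
      have : (⌊n * z.im⌋ : ℝ) + 1 + 1 ≤ S.ft n (.inl r) := by rw [e4]; linarith
      have : ⌊n * z.im⌋ + 1 + 1 ≤ S.ft n (.inl r) := by exact_mod_cast this
      exact min_eq_left (by omega)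
    rw [Shape.F_eq_room hS m n hzq, hy]
    unfold Shape.Fav Shape.avSh
    have e1 : (Finset.univ.filter fun a : Shape.Sh S n => ∃ w, Shape.IsWz m n (.inl r) ⌊n * z.re⌋ (⌊n * z.im⌋ + 1) a w) = t := by
      rw [ht]
      ext a
      simp only [Finset.mem_filter, Finset.mem_univ, true_and]
      exact hadm z hz a
    rw [← Finset.sum_filter]
    congr 1
    · exact Finset.sum_congr (by convert e1) fun _ _ => rfl
    · congr 2
  have hnn : 0 ≤ |C| * Fintype.card S.R * Real.exp (-(c * A)) := by positivity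
  have hCC : C * Fintype.card S.R * Real.exp (-(c * A)) ≤ |C| * Fintype.card S.R * Real.exp (-(c * A)) := by
    gcongr
    exact le_abs_self C
  rw [hF, ← sub_div, ← Finset.sum_sub_distrib]
  rcases t.eq_empty_or_nonempty with h1 | h1
  · rw [h1]
    simp only [Finset.sum_empty, zero_div, norm_zero]
    linarith
  · have hc0 : (0 : ℝ) < t.card := by exact_mod_cast h1.card_pos
    rw [norm_div, Complex.norm_natCast, div_le_iff₀ hc0]
    calc ‖∑ a ∈ t, (Shape.Fz m n (.inl r) ⌊n * z.re⌋ (⌊n * z.im⌋ + 1) a - coarse n (B a) z)‖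
        ≤ ∑ a ∈ t, (|C| * Fintype.card S.R * Real.exp (-(c * A)) + ε) :=
          (norm_sum_le _ _).trans (Finset.sum_le_sum fun a ha => (hB2 a ha z hz).trans (by linarith))
      _ = _ := by
          rw [Finset.sum_const, nsmul_eq_mul]
          ring

end Full
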