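import Pool.Agent.Full.X3.Stat
import Pool.Agent.Full.Asm.S1Shape

/-!
# The statements from which the engine statement (S1) is composed

`AmpGood` (X3b), `AmpSq` (X2b): `X3/Stat.lean`.  Here: `NormOk` (N8, the norms of the two environments of the row `r` of
a shape) and `S1Geo` (the geometry of the row of a shape: labels, marks after a rotation, topology).
-/

set_option autoImplicit false

namespace Full

open Complex Set Filter Topology Metric Matrix Eng SixV

open scoped Matrix.Norms.L2Operator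

namespace Slab
variable (D : Slab) (W : Lab) (a k : ℤ) (E : Fin 3 → Half ZT)

open Classical in
/-- the vector above for the marks `E`: all positions of the two charges `+2` which are in the upper part are summed -/
noncomputable def OE (s : Cfg (D.n + 1)) : ℂ :=
  if W.pos (E 2) < W.P then D.Olow W (chgOf W E a k) (W.pos (E 1)) (-a + 2 + 3 * k) s
  else D.Oup W (chgOf W E a k) (Finset.Icc (W.pos (E 1)) (W.pos (E 2))) (-a + 2 + 3 * k) s

open Classical in
/-- the vector below for the marks `E` -/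
noncomputable def IE (s : Cfg (D.n + 2)) : ℂ :=
  if W.pos (E 2) < W.P then D.Ilow W (chgOf W E a k) (Finset.Icc (W.pos (E 1)) (W.pos (E 2))) s
  else D.Iup W (chgOf W E a k) (W.pos (E 1)) s

/-- the twist for the marks `E` -/
noncomputable def dE : Bool → ℂ := dw W (chgOf W E a k) (W.pos (E 1))

end Slab

/-- **N8**: the norms of the environments of the row `r` of a shape, at least `κ n` rows after the walls; `a'` is the length of
the dead ends, `k` the length of the boxes of the trio, the marks are rotated by `s` -/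
def NormOk : Prop := ∀ (S : Shape), S.Ok → ∀ m : S.Marks, m.Ok → ∀ A : ℝ, 1 ≤ A → S.Chan m A → ∀ r : S.R,
  ∀ κ : ℝ, 0 < κ → ∀ ε : ℝ, 0 < ε → ∃ C : ℝ, 0 ≤ C ∧ ∀ᶠ n : ℕ in atTop, ∀ (a : Shape.Sh S n) (D : Slab),
    Shape.IsSlab n a.s (.inl r) D → ∀ (W : Lab) (a' nL nU k : ℤ) (s : Fin 3) (x y : ℤ),
    D.Rdy W a' nL nU k (fun i => m.ez n a.σ (.inl r) (i + s).castSucc) x y → (n : ℤ) ≤ 16 * k →
    ∀ p q : ℕ, κ * n ≤ p → κ * n ≤ q → (p : ℤ) ≤ D.t - D.b - 2 → (q : ℤ) ≤ D.t - D.b - 2 →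
      ‖WithLp.toLp 2 (D.OE W a' k (fun i => m.ez n a.σ (.inl r) (i + s).castSucc) ᵥ* TupD (D.n + 1)
          (Slab.dE W a' k fun i => m.ez n a.σ (.inl r) (i + s).castSucc) ((Real.pi / 6 : ℝ) : ℂ) ^ p)‖ *
        ‖WithLp.toLp 2 (TlowD (D.n + 1) (Slab.dE W a' k fun i => m.ez n a.σ (.inl r) (i + s).castSucc)
          ((Real.pi / 6 : ℝ) : ℂ) ^ q *ᵥ D.IE W a' k (fun i => m.ez n a.σ (.inl r) (i + s).castSucc))‖ ≤
      C * (n : ℝ) ^ (1 / 6 + ε) * Real.sqrt 3 ^ Slab.na nL nU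

/-- **the geometry of the row `r`**: dead ends of length `a'`, labels `W`, the marks rotated by `s` -/
def S1Geo : Prop := ∀ (S : Shape), S.Ok → ∀ m : S.Marks, m.Ok → ∀ A : ℝ, 1 ≤ A → S.Chan m A → ∀ r : S.R,
  ∀ᶠ n : ℕ in atTop, ∀ a : Shape.Sh S n, Shape.AdmSh m n (.inl r) a → ∀ D : Slab, Shape.IsSlab n a.s (.inl r) D →
    ∀ a' : ℤ, 8 ≤ a' → (a' : ℝ) + n / 2 + 1 ≤ n * (A * (S.yt (.inl r) - S.yb (.inl r))) →
      ∃ (W : Lab) (nL nU : ℤ) (s : Fin 3), ∀ k : ℤ, 1 ≤ k → 3 * (D.t - D.b) + 1 ≤ k → 4 * k + 4 ≤ a' →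
        ∀ x y : ℤ, D.l + a' ≤ x → x ≤ D.r - a' → D.b < y → y < D.t →
          D.Rdy W a' nL nU k (fun i => m.ez n a.σ (.inl r) (i + s).castSucc) x y

end Full
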