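import Pool.Agent.Full.Asm.Final
import Pool.Agent.Full.Asm.S1Fin
import Pool.Agent.Full.End.GPoly
import Pool.Agent.Full.End.Acc
import Pool.Agent.Full.End.Minus
import Pool.Agent.Full.End.Plus
import Pool.Agent.Full.End.HasAppr
import Pool.Agent.Full.Jordan.Quad
import Pool.Agent.Full.Comb.FitG
import Pool.Agent.Full.Dict.Final
import Pool.Agent.Full.Geo.S2
import Pool.Agent.Full.P5.S3
import Pool.Agent.Full.S4.Main
import Pool.Agent.Full.Norm.NormFin

/-!
# From the lattice part to the literal statement
-/

set_option autoImplicit false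

namespace Full

theorem q1J_of_appr (ha : ∀ q, IsTame q → Pos q → HasAppr q) : Q1J :=
  q1J_of_q1 (q1_of_tame (q1tame_of_appr ha))

theorem q1J_of_lat (h : Lat) : Q1J :=
  q1J_of_appr (hasAppr_of_lat h gpoly gMinus gPlus (gbvp_of_acc gacc))

/-- the statements on shapes imply the literal statement -/
theorem q1J_of_stat (h1 : S1) (h4 : S4) : Q1J :=
  q1J_of_lat (lat_of_combs h1 s2 s3a s3b h4 s5 Coarse.combs)

/-- **Conformal invariance of the crossing probabilities, for all Jordan domains and disjoint arcs.** -/
theorem q1J : Q1J :=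
  q1J_of_stat (s1_of Norm.normOk) s4

end Full
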