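import Pool.Agent.Full.Asm.Slabs

/-!
# FULL, assembly: discrete Cauchy-Riemann in the middle parts of slabs

As `holo_of_discrete_slabs`, but on each slab the approximation is only needed at a positive distance from the two
horizontal sides of the slab.
-/

set_option autoImplicit false

namespace Full

open Complex Set Filter Topology Metric MeasureTheory intervalIntegral
open scoped Interval

/-- the contour integral over a thin rectangle -/
lemma bint_thin {G : ℂ → ℂ} {a b c d ω C : ℝ} (hab : a ≤ b) (hcd : c ≤ d) (hG : ContinuousOn G ([[a, b]] ×ℂ [[c, d]]))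
    (hω : ∀ x ∈ [[a, b]], ‖G (x + c * I) - G (x + d * I)‖ ≤ ω) (hC : ∀ z ∈ [[a, b]] ×ℂ [[c, d]], ‖G z‖ ≤ C) :
    ‖bint G a b c d‖ ≤ (b - a) * ω + 2 * C * (d - c) := by
  have i1 : IntervalIntegrable (fun x : ℝ => G (x + c * I)) volume a b := (hor_cont hG left_mem_uIcc).intervalIntegrable
  have i2 : IntervalIntegrable (fun x : ℝ => G (x + d * I)) volume a b := (hor_cont hG right_mem_uIcc).intervalIntegrable
  have h1 : ‖(∫ x in a..b, G (x + c * I)) - ∫ x in a..b, G (x + d * I)‖ ≤ (b - a) * ω := by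
    rw [← integral_sub i1 i2]
    have := norm_integral_le_of_norm_le_const (a := a) (b := b) (C := ω)
      (f := fun x : ℝ => G (x + c * I) - G (x + d * I)) (fun x hx => hω x (uIoc_subset_uIcc hx))
    rw [abs_of_nonneg (by linarith)] at this
    linarith
  have h2 : ∀ x ∈ [[a, b]], ‖∫ y in c..d, G (x + y * I)‖ ≤ C * (d - c) := by
    intro x hx
    have := norm_integral_le_of_norm_le_const (a := c) (b := d) (C := C)
      (f := fun y : ℝ => G (x + y * I)) (fun y hy => hC _ (mem_rect hx (uIoc_subset_uIcc hy)))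
    rwa [abs_of_nonneg (by linarith)] at this
  have h3 := h2 b right_mem_uIcc
  have h4 := h2 a left_mem_uIcc
  rw [bint]
  calc ‖((∫ x in a..b, G (x + c * I)) - ∫ x in a..b, G (x + d * I)) +
      I * ((∫ y in c..d, G (b + y * I)) - ∫ y in c..d, G (a + y * I))‖
      ≤ ‖(∫ x in a..b, G (x + c * I)) - ∫ x in a..b, G (x + d * I)‖ +
        ‖I * ((∫ y in c..d, G (b + y * I)) - ∫ y in c..d, G (a + y * I))‖ := norm_add_le _ _
    _ ≤ (b - a) * ω + (C * (d - c) + C * (d - c)) := by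
        refine add_le_add h1 ?_
        rw [norm_mul, norm_I, one_mul]
        exact (norm_sub_le _ _).trans (add_le_add h3 h4)
    _ = _ := by ring

/-- three slabs -/
lemma bint_three {G : ℂ → ℂ} {a b c d c' d' : ℝ} (h1 : c ≤ c') (h2 : c' ≤ d') (h3 : d' ≤ d)
    (hG : ContinuousOn G ([[a, b]] ×ℂ [[c, d]])) :
    bint G a b c d = bint G a b c c' + bint G a b c' d' + bint G a b d' d := by
  have hcd : c ≤ d := h1.trans (h2.trans h3)
  have key := bint_slabs hG 3 (v := fun k => if k = 0 then c else if k = 1 then c' else if k = 2 then d' else d)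
    (by simp) (by simp) (by
      intro k hk
      rw [uIcc_of_le hcd]
      interval_cases k
      · simp [hcd]
      · simp [h1, h2.trans h3]
      · simp [h1.trans h2, h3]
      · simp [hcd])
  rw [key]
  simp [Finset.sum_range_succ]

/-- **Discrete Cauchy-Riemann in the middle parts of slabs**: bound for the contour integral over one rectangle.  Some
slabs may be thin: then only the values on the two horizontal sides must be close. -/
theorem bint_le_of_slabs {ι : Type*} {l : Filter ι} [l.NeBot] {F : ι → ℂ → ℂ} {δ : ι → ℝ} (hδ0 : ∀ᶠ i in l, 0 < δ i)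
    (hδ : Tendsto δ l (𝓝 0)) {G : ℂ → ℂ} {a b c d : ℝ} (hab : a ≤ b) (hcd : c ≤ d)
    (heq : AEC l ([[a, b]] ×ℂ [[c, d]]) F) (hG : ∀ z ∈ [[a, b]] ×ℂ [[c, d]], Tendsto (fun i => F i z) l (𝓝 (G z)))
    (hGR : ContinuousOn G ([[a, b]] ×ℂ [[c, d]])) {n : ℕ} {v p : ℕ → ℝ} (v0 : v 0 = c) (vn : v n = d)
    (vmono : ∀ k < n, v k ≤ v (k + 1)) (hp0 : ∀ k < n, 0 ≤ p k)
    {C : ℝ} (hC : ∀ z ∈ [[a, b]] ×ℂ [[c, d]], ‖G z‖ ≤ C)
    (hdisc : ∀ k < n, (v (k + 1) - v k ≤ p k ∧ ∀ x ∈ Icc a b, ‖G (x + v k * I) - G (x + v (k + 1) * I)‖ ≤ p k) ∨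
      ∀ κ > 0, ∀ ε > 0, ∃ᶠ i in l, ∃ H : ℂ → ℂ,
        (∀ z ∈ Icc a b ×ℂ Icc (v k + κ) (v (k + 1) - κ), ‖F i z - H z‖ ≤ p k) ∧
        ∀ z ∈ Icc a b ×ℂ Icc (v k + κ) (v (k + 1) - κ), z + δ i ∈ Icc a b ×ℂ Icc (v k + κ) (v (k + 1) - κ) →
          z + δ i * I ∈ Icc a b ×ℂ Icc (v k + κ) (v (k + 1) - κ) →
          ‖H (z + δ i * I) - H z - I * (H (z + δ i) - H z)‖ ≤ ε * δ i) :
    ‖bint G a b c d‖ ≤ 2 * ((b - a) + (d - c) + C) * ∑ k ∈ Finset.range n, p k := by
  have hK : IsCompact ([[a, b]] ×ℂ [[c, d]]) := isCompact_uIcc.reProdIm isCompact_uIcc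
  have hC0 : 0 ≤ C := (norm_nonneg _).trans (hC _ (mem_rect left_mem_uIcc left_mem_uIcc))
  have hps : 0 ≤ ∑ k ∈ Finset.range n, p k := Finset.sum_nonneg fun k hk => hp0 k (Finset.mem_range.1 hk)
  set L := (b - a) + (d - c) with hL
  have hL0 : 0 ≤ L := by linarith
  rcases hL0.eq_or_lt with hL0' | hL1
  · have e1 : b = a := by linarith
    have e2 : d = c := by linarith
    rw [bint, e1, e2]
    simp
    positivity
  refine le_of_forall_pos_le_add fun η hη => ?_
  -- modulus of continuity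
  set ω := η / (8 * (n + 1) * L) with hω
  have hω0 : 0 < ω := by positivity
  obtain ⟨δ', hδ', h'⟩ : ∃ δ' > 0, ∀ z ∈ [[a, b]] ×ℂ [[c, d]], ∀ w ∈ [[a, b]] ×ℂ [[c, d]], dist z w < δ' →
      dist (G z) (G w) < ω := by
    have := hK.uniformContinuousOn_of_continuous hGR
    rw [Metric.uniformContinuousOn_iff] at this
    obtain ⟨δ', hδ', h'⟩ := this ω (by positivity)
    exact ⟨δ', hδ', fun z hz w hw hzw => h' z hz w hw hzw⟩
  set κ := min (δ' / 2) (η / (16 * (n + 1) * (C + 1))) with hκ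
  have hκ0 : 0 < κ := by positivity
  have hκ1 : κ < δ' := (min_le_left _ _).trans_lt (by linarith)
  have hκ2 : κ ≤ η / (16 * (n + 1) * (C + 1)) := min_le_right _ _
  have vle : ∀ k ≤ n, ∀ j ≤ k, v j ≤ v k := by
    intro k hk
    induction k with
    | zero => intro j hj; rw [Nat.le_zero.1 hj]
    | succ k ih =>
      intro j hj
      rcases Nat.lt_or_ge k j with h1 | h1
      · have : j = k + 1 := by omega
        rw [this]
      · exact (ih (by omega) j h1).trans (vmono k (by omega))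
  have vI : ∀ k ≤ n, v k ∈ Icc c d := fun k hk => ⟨v0 ▸ vle k hk 0 (Nat.zero_le _), vn ▸ vle n le_rfl k hk⟩
  have vm : ∀ k ≤ n, v k ∈ [[c, d]] := fun k hk => by rw [uIcc_of_le hcd]; exact vI k hk
  rw [bint_slabs hGR n v0 vn vm]
  -- thin rectangles
  have thin : ∀ y ∈ [[c, d]], ∀ y' ∈ [[c, d]], y ≤ y' → y' - y ≤ κ → ‖bint G a b y y'‖ ≤ η / (4 * (n + 1)) := by
    intro y hy y' hy' hyy hyκ
    have hsub : [[a, b]] ×ℂ [[y, y']] ⊆ [[a, b]] ×ℂ [[c, d]] :=
      reProdIm_subset_iff.2 (prod_mono (le_refl _) (uIcc_subset_uIcc hy hy'))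
    have h1 := bint_thin (ω := ω) (C := C) hab hyy (hGR.mono hsub) (fun x hx => by
      rw [← dist_eq_norm]
      refine (h' _ (mem_rect hx hy) _ (mem_rect hx hy') ?_).le
      rw [dist_eq_norm, add_sub_add_left_eq_sub, ← sub_mul, ← ofReal_sub, norm_mul, norm_I, mul_one,
        Complex.norm_real, Real.norm_eq_abs, abs_sub_comm, abs_of_nonneg (by linarith)]
      linarith) (fun z hz => hC z (hsub hz))
    refine h1.trans ?_
    have h2 : (b - a) * ω ≤ η / (8 * (n + 1)) := by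
      have : (b - a) ≤ L := by linarith
      calc (b - a) * ω ≤ L * ω := by gcongr
        _ = η / (8 * (n + 1)) := by rw [hω]; field_simp
    have h3 : 2 * C * (y' - y) ≤ η / (8 * (n + 1)) := by
      calc 2 * C * (y' - y) ≤ 2 * (C + 1) * (η / (16 * (n + 1) * (C + 1))) := by
            have : y' - y ≤ η / (16 * (n + 1) * (C + 1)) := hyκ.trans hκ2
            have h0 : 0 ≤ y' - y := by linarith
            gcongr
            linarith
        _ = η / (8 * (n + 1)) := by field_simp; ring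
    calc (b - a) * ω + 2 * C * (y' - y) ≤ η / (8 * (n + 1)) + η / (8 * (n + 1)) := add_le_add h2 h3
      _ = η / (4 * (n + 1)) := by field_simp; ring
  have hcell : ∀ k ∈ Finset.range n, ‖bint G a b (v k) (v (k + 1))‖ ≤ 2 * p k * (L + C) + η / (2 * (n + 1)) := by
    intro k hk
    rw [Finset.mem_range] at hk
    have hvk := vmono k hk
    have hpk := hp0 k hk
    have hsub : [[a, b]] ×ℂ [[v k, v (k + 1)]] ⊆ [[a, b]] ×ℂ [[c, d]] :=
      reProdIm_subset_iff.2 (prod_mono (le_refl _) (uIcc_subset_uIcc (vm k hk.le) (vm (k + 1) hk)))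
    rcases hvk.eq_or_lt with he | hlt
    · rw [← he]
      have : bint G a b (v k) (v k) = 0 := by rw [bint]; simp
      rw [this, norm_zero]
      positivity
    rcases hdisc k hk with ⟨hthin1, hthin2⟩ | hdisc
    · have h1 := bint_thin (ω := p k) (C := C) hab hvk (hGR.mono hsub)
        (fun x hx => hthin2 x (by rwa [uIcc_of_le hab] at hx)) (fun z hz => hC z (hsub hz))
      refine h1.trans ?_
      have h2 : (b - a) ≤ L := by linarith
      have h3 : (b - a) * p k ≤ L * p k := by gcongr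
      have h4 : 2 * C * (v (k + 1) - v k) ≤ 2 * C * p k := by gcongr
      have h5 : 0 ≤ η / (2 * (n + 1)) := by positivity
      nlinarith [mul_nonneg hL1.le hpk]
    set κ' := min κ ((v (k + 1) - v k) / 2) with hκ'
    have hκ'0 : 0 < κ' := lt_min hκ0 (by linarith)
    have hκ'1 : κ' ≤ κ := min_le_left _ _
    have hκ'2 : κ' ≤ (v (k + 1) - v k) / 2 := min_le_right _ _
    set c' := v k + κ' with hc'
    set d' := v (k + 1) - κ' with hd'
    have q1 : v k ≤ c' := by linarith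
    have q2 : c' ≤ d' := by linarith
    have q3 : d' ≤ v (k + 1) := by linarith
    have hcI := vI k hk.le
    have hdI := vI (k + 1) hk
    have mc : c' ∈ [[c, d]] := by rw [uIcc_of_le hcd]; exact ⟨by linarith [hcI.1], by linarith [hdI.2]⟩
    have md : d' ∈ [[c, d]] := by rw [uIcc_of_le hcd]; exact ⟨by linarith [hcI.1], by linarith [hdI.2]⟩
    have hsub' : [[a, b]] ×ℂ [[c', d']] ⊆ [[a, b]] ×ℂ [[c, d]] :=
      reProdIm_subset_iff.2 (prod_mono (le_refl _) (uIcc_subset_uIcc mc md))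
    rw [bint_three q1 q2 q3 (hGR.mono hsub)]
    have t1 := thin _ (vm k hk.le) _ mc q1 (by linarith)
    have t3 := thin _ md _ (vm (k + 1) hk) q3 (by linarith)
    have t2 := bint_approx (l := l) (F := F) (δ := δ) (G := G) hδ0 hδ hab q2
      (heq.mono le_rfl hsub') (fun z hz => hG z (hsub' hz))
      (hGR.mono hsub') hpk (fun ε hε => by
        rw [uIcc_of_le hab, uIcc_of_le q2]
        exact hdisc κ' hκ'0 ε hε)
    have h1 : v (k + 1) - v k ≤ d - c := by linarith [hcI.1, hdI.2]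
    have t2' : ‖bint G a b c' d'‖ ≤ 2 * p k * L := by
      refine t2.trans ?_
      have : (b - a) + (d' - c') ≤ L := by rw [hL]; linarith
      gcongr
    calc ‖bint G a b (v k) c' + bint G a b c' d' + bint G a b d' (v (k + 1))‖
        ≤ ‖bint G a b (v k) c'‖ + ‖bint G a b c' d'‖ + ‖bint G a b d' (v (k + 1))‖ := norm_add₃_le
      _ ≤ η / (4 * (n + 1)) + 2 * p k * L + η / (4 * (n + 1)) := by gcongr
      _ = 2 * p k * L + η / (2 * (n + 1)) := by field_simp; ring
      _ ≤ 2 * p k * (L + C) + η / (2 * (n + 1)) := by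
        have : L ≤ L + C := by linarith
        gcongr
  calc ‖∑ k ∈ Finset.range n, bint G a b (v k) (v (k + 1))‖
      ≤ ∑ k ∈ Finset.range n, (2 * p k * (L + C) + η / (2 * (n + 1))) :=
        (norm_sum_le _ _).trans (Finset.sum_le_sum hcell)
    _ = 2 * (L + C) * ∑ k ∈ Finset.range n, p k + n * (η / (2 * (n + 1))) := by
        rw [Finset.sum_add_distrib, Finset.mul_sum, Finset.sum_const, Finset.card_range, nsmul_eq_mul]
        congr 1
        exact Finset.sum_congr rfl fun _ _ => by ring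
    _ ≤ 2 * (L + C) * ∑ k ∈ Finset.range n, p k + η := by
        have : (n : ℝ) * (η / (2 * (n + 1))) ≤ η := by
          calc (n : ℝ) * (η / (2 * (n + 1))) ≤ (n + 1) * (η / (2 * (n + 1))) := by gcongr; linarith
            _ = η / 2 := by field_simp
            _ ≤ η := by linarith
        linarith

/-- limits of asymptotically equicontinuous families on open sets are continuous -/
lemma contOn_of_AEC {ι : Type*} {l : Filter ι} [l.NeBot] {U : Set ℂ} (hU : IsOpen U) {F : ι → ℂ → ℂ}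
    (heq : ∀ K ⊆ U, IsCompact K → AEC l K F) {G : ℂ → ℂ}
    (hG : ∀ z ∈ U, Tendsto (fun i => F i z) l (𝓝 (G z))) : ContinuousOn G U := by
  intro z hz
  obtain ⟨r, hr, hrU⟩ := Metric.nhds_basis_closedBall.mem_iff.1 (hU.mem_nhds hz)
  have h1 := cont_of_AEC (heq _ hrU (isCompact_closedBall z r)) (fun w hw => hG w (hrU hw))
  exact (h1.continuousAt (closedBall_mem_nhds z hr)).continuousWithinAt

/-- **Discrete Cauchy-Riemann in the middle parts of slabs.** -/
theorem holo_of_discrete_slabs' {ι : Type*} {l : Filter ι} [l.NeBot] {U : Set ℂ} (hU : IsOpen U) {F : ι → ℂ → ℂ}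
    {δ : ι → ℝ} (hδ0 : ∀ᶠ i in l, 0 < δ i) (hδ : Tendsto δ l (𝓝 0))
    (heq : ∀ K ⊆ U, IsCompact K → AEC l K F) {G : ℂ → ℂ}
    (hG : ∀ z ∈ U, Tendsto (fun i => F i z) l (𝓝 (G z)))
    (h : ∀ a b c d : ℝ, a < b → c < d → Icc a b ×ℂ Icc c d ⊆ U → ∀ η > 0, ∃ (n : ℕ) (v : ℕ → ℝ) (p : ℕ → ℝ),
      v 0 = c ∧ v n = d ∧ (∀ k < n, v k ≤ v (k + 1)) ∧ (∀ k < n, 0 ≤ p k) ∧ ∑ k ∈ Finset.range n, p k ≤ η ∧
      ∀ k < n, (v (k + 1) - v k ≤ p k ∧ ∀ x ∈ Icc a b, ‖G (x + v k * I) - G (x + v (k + 1) * I)‖ ≤ p k) ∨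
       ∀ κ > 0, ∀ ε > 0, ∃ᶠ i in l, ∃ H : ℂ → ℂ,
        (∀ z ∈ Icc a b ×ℂ Icc (v k + κ) (v (k + 1) - κ), ‖F i z - H z‖ ≤ p k) ∧
        ∀ z ∈ Icc a b ×ℂ Icc (v k + κ) (v (k + 1) - κ), z + δ i ∈ Icc a b ×ℂ Icc (v k + κ) (v (k + 1) - κ) →
          z + δ i * I ∈ Icc a b ×ℂ Icc (v k + κ) (v (k + 1) - κ) →
          ‖H (z + δ i * I) - H z - I * (H (z + δ i) - H z)‖ ≤ ε * δ i) : DifferentiableOn ℂ G U := by
  have hGc := contOn_of_AEC hU heq hG
  refine holo_of_bint hU hGc fun a b c d hab hcd hR => ?_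
  rcases hab.eq_or_lt with rfl | hab'
  · rw [bint]; simp
  rcases hcd.eq_or_lt with rfl | hcd'
  · rw [bint]; simp
  have hL1 : 0 < (b - a) + (d - c) := by linarith
  have hK : IsCompact ([[a, b]] ×ℂ [[c, d]]) := isCompact_uIcc.reProdIm isCompact_uIcc
  obtain ⟨C, hC⟩ := hK.exists_bound_of_continuousOn (hGc.mono hR)
  have hC0 : 0 ≤ C := (norm_nonneg _).trans (hC _ (mem_rect left_mem_uIcc left_mem_uIcc))
  rw [← norm_eq_zero]
  refine le_antisymm (le_of_forall_pos_le_add fun η hη => ?_) (norm_nonneg _)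
  rw [zero_add]
  have hR' := hR
  rw [uIcc_of_le hab, uIcc_of_le hcd] at hR'
  obtain ⟨n, v, p, v0, vn, vmono, hp0, hsum, hdisc⟩ := h a b c d hab' hcd' hR'
    (η / (2 * ((b - a) + (d - c) + C))) (by positivity)
  have key := bint_le_of_slabs hδ0 hδ hab hcd (heq _ hR hK) (fun z hz => hG z (hR hz)) (hGc.mono hR) v0 vn vmono hp0 hC hdisc
  calc ‖bint G a b c d‖ ≤ 2 * ((b - a) + (d - c) + C) * ∑ k ∈ Finset.range n, p k := key
    _ ≤ 2 * ((b - a) + (d - c) + C) * (η / (2 * ((b - a) + (d - c) + C))) := by gcongr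
    _ = η := by field_simp

end Full
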