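import Pool.Agent.Full.Asm.Final

/-!
# FULL, assembly: tile coordinates

The tile lattice is rotated by 45 degrees: the point `pt ε w` of the plane has the tile coordinates
`w = (1 + i) z / ε`.  Observables are constructed on the rotated domain `(1 + i) D` with the mesh `δ = ε`.
-/

set_option autoImplicit false

namespace Full

open Complex Set Filter Topology Metric ComplexConjugate H47Perc

section

variable {ι : Type*} {l : Filter ι} {D : Set ℂ} {A : ℕ → Set ℂ} {F : ι → ℂ → ℂ}

/-- the asymptotic boundary value problem is invariant under similarities -/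
theorem AsySol.comp_mul {c : ℂ} (hc : c ≠ 0) (h : AsySol l ((fun z => c * z) '' D) (fun j => (fun z => c * z) '' A j) F) :
    AsySol l D A (fun i z => F i (c * z)) where
  bound z hz := h.bound (c * z) (mem_image_of_mem _ hz)
  bdry j ζ hζ η hη := by
    obtain ⟨δ, hδ, h1⟩ := h.bdry j (c * ζ) (mem_image_of_mem _ hζ) η hη
    have hc0 : 0 < ‖c‖ := norm_pos_iff.2 hc
    refine ⟨δ / ‖c‖, by positivity, fun z hz hzζ => h1 (c * z) (mem_image_of_mem _ hz) ?_⟩
    rw [dist_eq_norm, ← mul_sub, norm_mul, ← dist_eq_norm, mul_comm]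
    exact (lt_div_iff₀ hc0).1 hzζ
  hol U hU G hG := by
    have h1 : DifferentiableOn ℂ (fun w => G (c⁻¹ * w)) ((fun z => c * z) '' D) := by
      refine h.hol U hU _ ?_
      rintro _ ⟨z, hz, rfl⟩
      have : c⁻¹ * (c * z) = z := by
        rw [← mul_assoc, inv_mul_cancel₀ hc, one_mul]
      simp only [this]
      exact hG z hz
    have h2 : DifferentiableOn ℂ (fun z => G (c⁻¹ * (c * z))) D :=
      h1.comp (f := fun z => c * z) (by fun_prop) (mapsTo_image _ _)
    refine h2.congr fun z hz => ?_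
    rw [← mul_assoc, inv_mul_cancel₀ hc, one_mul]

end

/-- the rotation to tile coordinates -/
noncomputable def trot (z : ℂ) : ℂ := (1 + I) * z

lemma trot_ne : (1 + I : ℂ) ≠ 0 := by
  intro h
  have := congrArg Complex.re h
  simp at this

/-- observables on the rotated domain; everything else as in `Appr` -/
structure ApprR (q : ℂ → ℂ) {H : Type} (l0 : Filter H) (F : H × ℝ → ℂ → ℂ) (p : H × ℝ → ℝ) : Prop where
  sol : AsySol (iter l0 fun _ => mesh) (trot '' (q '' sqo)) (fun j => trot '' arcs q j) F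
  mark : ∀ η : ℝ, 0 < η → ∃ δ > 0, ∀ z ∈ trot '' (q '' sqo), dist z (trot (q I)) < δ →
    ∀ᶠ i in iter l0 fun _ => mesh, dist (F i z) (cv (p i)) ≤ η

theorem ApprR.appr {q : ℂ → ℂ} {H : Type} {l0 : Filter H} {F : H × ℝ → ℂ → ℂ} {p : H × ℝ → ℝ}
    (h : ApprR q l0 F p) : Appr q l0 (fun i z => F i (trot z)) p where
  sol := h.sol.comp_mul trot_ne
  mark η hη := by
    obtain ⟨δ, hδ, h1⟩ := h.mark η hη
    have hc0 : 0 < ‖(1 + I : ℂ)‖ := norm_pos_iff.2 trot_ne
    refine ⟨δ / ‖(1 + I : ℂ)‖, by positivity, fun z hz hzx => h1 (trot z) (mem_image_of_mem _ hz) ?_⟩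
    rw [dist_eq_norm, trot, trot, ← mul_sub, norm_mul, ← dist_eq_norm, mul_comm]
    exact (lt_div_iff₀ hc0).1 hzx

end Full
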