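import Pool.Agent.Full.Loc1.Err
import Pool.Agent.Full.X3.GoodC

/-!
# The error of one row, final form

`Slab.row_err`: an amplitude which equals `C₁ (val - 1)` on the good event and whose second moment is
bounded by `B` determines the observable up to `C exp (-c A)`; the constants `C`, `c` depend on `B` only.
-/

set_option autoImplicit false

namespace Full
open Function Relation Loc1 Full.Perc Pool.Agent.Helper69.RSW

lemma thB_exp (N : ℕ) {A : ℝ} (hN : A / 16 - 2 ≤ N) :
    thB ^ N ≤ Real.exp (Real.log ((1 + thB) / 2) * (A / 16 - 2)) := by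
  have h0 := thB_nonneg
  have h1 := thB_lt_one
  set θ : ℝ := (1 + thB) / 2 with hθ
  have h2 : 0 < θ := by rw [hθ]; linarith
  have h3 : θ < 1 := by rw [hθ]; linarith
  have h4 : thB ≤ θ := by rw [hθ]; linarith
  have hl : Real.log θ ≤ 0 := Real.log_nonpos h2.le h3.le
  calc thB ^ N ≤ θ ^ N := pow_le_pow_left₀ h0 h4 N
    _ = Real.exp (Real.log θ * N) := by
        rw [← Real.rpow_natCast, Real.rpow_def_of_pos h2]
    _ ≤ _ := Real.exp_le_exp.2 (mul_le_mul_of_nonpos_left hN hl)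

/-- **the error as an exponential** -/
theorem exists_err (B : ℝ) (hB : 0 ≤ B) : ∃ C c : ℝ, 0 ≤ C ∧ 0 < c ∧ ∀ (N : ℕ) (A : ℝ), 0 ≤ A → A / 16 - 2 ≤ N →
    √3 * (√(B * (4 * thB ^ N)) + (1 / √3 + 1 / √3) * (4 * thB ^ N)) ≤ C * Real.exp (-(c * A)) := by
  have h0 := thB_nonneg
  have h1 := thB_lt_one
  set θ : ℝ := (1 + thB) / 2 with hθ
  have h2 : 0 < θ := by rw [hθ]; linarith
  have h3 : θ < 1 := by rw [hθ]; linarith
  have hl : Real.log θ < 0 := Real.log_neg h2 h3
  set c : ℝ := -Real.log θ / 32 with hc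
  have hc0 : 0 < c := by rw [hc]; linarith
  have hlc : Real.log θ = -(32 * c) := by rw [hc]; ring
  have hs3 : 0 < √3 := Real.sqrt_pos.2 (by norm_num)
  refine ⟨√3 * (√(4 * B) * Real.exp (32 * c)) + 8 * Real.exp (64 * c), c, by positivity, hc0, ?_⟩
  intro N A hA hN
  have e1 : thB ^ N ≤ Real.exp (64 * c) * Real.exp (-(2 * (c * A))) := by
    refine (thB_exp N hN).trans (le_of_eq ?_)
    rw [← hθ, hlc, ← Real.exp_add]
    congr 1
    ring
  have e2 : √(B * (4 * thB ^ N)) ≤ √(4 * B) * (Real.exp (32 * c) * Real.exp (-(c * A))) := by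
    have e3 : B * (4 * thB ^ N) ≤ (4 * B) * (Real.exp (32 * c) * Real.exp (-(c * A))) ^ 2 := by
      have e4 : (Real.exp (32 * c) * Real.exp (-(c * A))) ^ 2 =
          Real.exp (64 * c) * Real.exp (-(2 * (c * A))) := by
        rw [mul_pow, ← Real.exp_nat_mul, ← Real.exp_nat_mul]
        congr 2
        · push_cast; ring
        · push_cast; ring
      rw [e4]
      have := mul_le_mul_of_nonneg_left e1 hB
      linarith
    calc √(B * (4 * thB ^ N)) ≤ √((4 * B) * (Real.exp (32 * c) * Real.exp (-(c * A))) ^ 2) :=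
          Real.sqrt_le_sqrt e3
      _ = _ := by
          rw [Real.sqrt_mul (by positivity), Real.sqrt_sq (by positivity)]
  have e5 : Real.exp (-(2 * (c * A))) ≤ Real.exp (-(c * A)) := by
    apply Real.exp_le_exp.2
    have : 0 ≤ c * A := by positivity
    linarith
  have e6 : thB ^ N ≤ Real.exp (64 * c) * Real.exp (-(c * A)) :=
    e1.trans (mul_le_mul_of_nonneg_left e5 (Real.exp_pos _).le)
  have e7 : √3 * ((1 / √3 + 1 / √3) * (4 * thB ^ N)) = 8 * thB ^ N := by
    field_simp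
    ring
  rw [mul_add, e7]
  have e8 := mul_le_mul_of_nonneg_left e2 hs3.le
  calc √3 * √(B * (4 * thB ^ N)) + 8 * thB ^ N
      ≤ √3 * (√(4 * B) * (Real.exp (32 * c) * Real.exp (-(c * A)))) +
        8 * (Real.exp (64 * c) * Real.exp (-(c * A))) :=
        add_le_add e8 (mul_le_mul_of_nonneg_left e6 (by norm_num))
    _ = _ := by ring

/-- the modulus of `tau - 1` -/
lemma norm_tau_sub_one : ‖Complex.exp (2 * Real.pi * Complex.I / 3) - 1‖ = √3 := by
  have h : Complex.exp (2 * Real.pi * Complex.I / 3) = ⟨-1 / 2, √3 / 2⟩ := by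
    have e : (2 * Real.pi * Complex.I / 3 : ℂ) = ((2 * Real.pi / 3 : ℝ) : ℂ) * Complex.I := by
      push_cast; ring
    have c1 : Real.cos (2 * Real.pi / 3) = -1 / 2 := by
      rw [show 2 * Real.pi / 3 = Real.pi - Real.pi / 3 by ring, Real.cos_pi_sub,
        Real.cos_pi_div_three]
      ring
    have c2 : Real.sin (2 * Real.pi / 3) = √3 / 2 := by
      rw [show 2 * Real.pi / 3 = Real.pi - Real.pi / 3 by ring, Real.sin_pi_sub,
        Real.sin_pi_div_three]
    rw [e, Complex.exp_mul_I, ← Complex.ofReal_cos, ← Complex.ofReal_sin, c1, c2]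
    apply Complex.ext <;> simp
  rw [h]
  have h2 : (⟨-1 / 2, √3 / 2⟩ : ℂ) - 1 = ⟨-3 / 2, √3 / 2⟩ := by
    apply Complex.ext
    · simp; norm_num
    · simp
  rw [h2, Complex.norm_def, Complex.normSq_mk]
  congr 1
  have := Real.mul_self_sqrt (show (0 : ℝ) ≤ 3 by norm_num)
  nlinarith

namespace Slab

/-- **the error of one row**: `amp` is the amplitude, `C₁` its normalisation -/
theorem row_err {D : Slab} {x y a k : ℤ} {w : Half ZT → Half ZT} {E : Fin 3 → Half ZT}
    {amp : Finset ZT → ℂ} {C₁ : ℂ} {B : ℝ} (hE : Function.Injective E)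
    (hD : D.Good x y a) (N : ℕ) (hN : N * (D.t - D.b) ≤ k) (hk : 3 * k + 3 ≤ a)
    (hC : ‖C₁‖ = 1 / √3)
    (hG : ∀ ω ⊆ D.T y, D.GoodC y a k ω → amp ω = C₁ * (val E (other (mate ω) w (z x y)) - 1))
    (hB : Ex (D.T y) (fun ω => ‖amp ω‖ ^ 2) ≤ B) :
    ‖obs (D.T y) w (z x y) E - (1 + CEx (D.T y) amp / C₁)‖ ≤
      √3 * (√(B * (4 * thB ^ N)) + (1 / √3 + 1 / √3) * (4 * thB ^ N)) := by
  have hs3 : 0 < √3 := Real.sqrt_pos.2 (by norm_num)
  have hC0 : C₁ ≠ 0 := by
    intro h
    rw [h, norm_zero] at hC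
    have : 0 < 1 / √3 := by positivity
    linarith
  have h1 := norm_amp_sub_obs_le (T := D.T y) (w := w) (z := z x y) hE (A := amp) (c0 := C₁)
    (c1 := -C₁) (G := fun ω => D.GoodC y a k ω) (fun ω hω hg => by rw [hG ω hω hg]; ring) hB
    (P_not_goodC hD N hN hk)
  rw [norm_neg, hC] at h1
  have e : obs (D.T y) w (z x y) E - (1 + CEx (D.T y) amp / C₁) =
      -((CEx (D.T y) amp - (C₁ * obs (D.T y) w (z x y) E + -C₁)) / C₁) := by
    field_simp
    ring
  rw [e, norm_neg, norm_div, hC, div_div_eq_mul_div, div_one, mul_comm]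
  exact mul_le_mul_of_nonneg_left h1 hs3.le

end Slab

end Full
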