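import Pool.Agent.Full.Asm.Six
import Pool.Agent.Full.SixV.HalfD

/-!
# FULL, assembly: amplitudes of the six vertex rows with a common twist

Twist `d` below `z`, `dup * d` above. The twist `(1, 1)` is needed for an even number of columns above,
`SixV.ddn = (e^(-i lam), e^(i lam))` for an odd number (then the chain above has the trivial twist).
-/

set_option autoImplicit false

namespace Full

open Complex Set Filter Topology Metric Matrix Eng SixV

open scoped Matrix.Norms.L2Operator

/-- a unitary twist -/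
structure SixV.Tw (d : Bool → ℂ) : Prop where
  norm : ∀ x, ‖d x‖ ≤ 1
  mul : d true * d false = 1
  star : ∀ x, star (d x) = d (!x)

namespace SixV

lemma Tw.dup_mul {d : Bool → ℂ} (h : Tw d) : Tw fun x => dup x * d x where
  norm := fun x => by
    rw [norm_mul]
    exact mul_le_one₀ (dup_norm x) (norm_nonneg _) (h.norm x)
  mul := by
    have h1 := SixV.dup_mul
    have h2 := h.mul
    calc dup true * d true * (dup false * d false)
        = (dup true * dup false) * (d true * d false) := by ring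
      _ = 1 := by rw [h1, h2, one_mul]
  star := fun x => by
    rw [star_mul', dup_star, h.star]

lemma tw_done : Tw done := ⟨fun x => by simp [done], by simp [done], fun x => by simp [done]⟩

/-- the twist below `z` for an odd number of columns above -/
noncomputable def ddn : Bool → ℂ := fun x => dup (!x)

lemma tw_ddn : Tw ddn := ⟨fun x => dup_norm _, by
    have := SixV.dup_mul
    simp only [ddn, Bool.not_true, Bool.not_false]
    rw [mul_comm]
    exact this, fun x => by
    simp only [ddn]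
    exact dup_star _⟩

/-- above `z` the twist is then trivial -/
lemma dup_mul_ddn : (fun x => dup x * ddn x) = done := by
  funext x
  have h := SixV.dup_mul
  cases x
  · simp only [ddn, done, Bool.not_false]
    rw [mul_comm]
    exact h
  · simp only [ddn, done, Bool.not_true]
    exact h

lemma row_TupD (N : ℕ) {d : Bool → ℂ} (h : Tw d) : Eng.Row N (TupD N d) :=
  row_T N N le_rfl _ h.dup_mul.norm h.dup_mul.mul h.dup_mul.star

lemma row_TlowD (N : ℕ) {d : Bool → ℂ} (h : Tw d) : Eng.Row N (TlowD N d) :=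
  row_T N (N + 1) (Nat.le_succ N) d h.norm h.mul h.star

/-- the two-line bound for the six vertex rows -/
lemma line_boundD (N : ℕ) {d : Bool → ℂ} (hd : Tw d) (u : ℂ) (hu : |u.re - Real.pi / 6| = Real.pi / 6) :
    ‖Wm N false * TlowD N d u - TupD N d u * Wm N false‖ ≤ 6 * min 1 (Real.exp (-u.im)) := by
  have hmin : 6 * Real.exp (-(max u.im 0)) ≤ 6 * min 1 (Real.exp (-u.im)) := by
    refine mul_le_mul_of_nonneg_left ?_ (by norm_num)
    refine le_min ?_ ?_
    · rw [Real.exp_le_one_iff]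
      have := le_max_right u.im 0
      linarith
    · rw [Real.exp_le_exp]
      have := le_max_left u.im 0
      linarith
  refine le_trans ?_ hmin
  rcases abs_eq (by have := Real.pi_pos; positivity) |>.mp hu with h | h
  · have e : u = lam + u.im * Complex.I := by
      apply Complex.ext
      · simp [lam_re]
        linarith
      · simp [lam_im]
    have := norm_GD_right N d hd.norm u.im
    rw [← e] at this
    exact this
  · have e : u = u.im * Complex.I := by
      apply Complex.ext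
      · simp
        linarith
      · simp
    have := norm_GD_left N d hd.norm u.im
    rw [← e] at this
    exact this

end SixV

/-- the observable of the six vertex rows with the common twist `d` -/
noncomputable def sixFD (N : ℕ) (d : Bool → ℂ) (O : Cfg N → ℂ) (Iv : Cfg (N + 1) → ℂ) (x a b : ℕ) : ℂ :=
  O ⬝ᵥ (TupD N d ((Real.pi / 6 : ℝ) : ℂ) ^ a * Wx (TupD N d) (TlowD N d) (Wm N false) x *
    TlowD N d ((Real.pi / 6 : ℝ) : ℂ) ^ b) *ᵥ Iv

/-- on `S` the function `A` is an amplitude of the six vertex rows with the common twist `d`, with at least `κ/δ` rows above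
and below; `K` bounds the product of the norms of the two environments after at least `κ/(4δ)` rows -/
def SixAmpD (κ K δ : ℝ) (S : Set ℂ) (A : ℂ → ℂ) : Prop :=
  ∃ (N : ℕ) (d : Bool → ℂ) (O : Cfg N → ℂ) (Iv : Cfg (N + 1) → ℂ) (x₀ y₀ : ℝ) (top bot : ℕ), Tw d ∧ κ ≤ N * δ ∧
    (∀ p q : ℕ, κ / 4 ≤ p * δ → κ / 4 ≤ q * δ → p ≤ top → q ≤ top + bot →
      ‖WithLp.toLp 2 (O ᵥ* TupD N d ((Real.pi / 6 : ℝ) : ℂ) ^ p)‖ *
        ‖WithLp.toLp 2 (TlowD N d ((Real.pi / 6 : ℝ) : ℂ) ^ q *ᵥ Iv)‖ ≤ K) ∧
    ∀ z ∈ S, x₀ ≤ z.re ∧ y₀ ≤ z.im ∧ ⌊(z.im - y₀) / δ⌋₊ ≤ top ∧ κ ≤ (top - ⌊(z.im - y₀) / δ⌋₊ : ℝ) * δ ∧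
      κ ≤ (bot + ⌊(z.im - y₀) / δ⌋₊ : ℝ) * δ ∧
      A z = sixFD N d O Iv ⌊(z.re - x₀) / δ⌋₊ (top - ⌊(z.im - y₀) / δ⌋₊) (bot + ⌊(z.im - y₀) / δ⌋₊)

/-- six vertex amplitudes with a common twist are engine amplitudes -/
theorem SixAmpD.eng {κ K δ : ℝ} {S : Set ℂ} {A : ℂ → ℂ} (h : SixAmpD κ K δ S A) : EngAmp 6 κ K δ S A := by
  obtain ⟨N, d, O, Iv, x₀, y₀, top, bot, hd, hN, hK, hA⟩ := h
  refine ⟨Cfg N, Cfg (N + 1), inferInstance, inferInstance, inferInstance, inferInstance, N, TupD N d, TlowD N d, Wm N false,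
    Matrix.of fun _ => O, Matrix.of fun i _ => Iv i, x₀, y₀, top, bot, row_TupD N hd, row_TlowD N hd,
    (norm_Wm_le N false).trans (by norm_num), SixV.line_boundD N hd, hN, ?_, ?_⟩
  · intro p q h1 h2 h3 h4
    refine le_trans ?_ (hK p q h1 h2 h3 h4)
    have e1 : (Matrix.of fun _ : Unit => O : Matrix Unit (Cfg N) ℂ) * TupD N d ((Real.pi / 6 : ℝ) : ℂ) ^ p =
        Matrix.of fun _ : Unit => O ᵥ* TupD N d ((Real.pi / 6 : ℝ) : ℂ) ^ p := by
      ext i j; rfl
    have e2 : TlowD N d ((Real.pi / 6 : ℝ) : ℂ) ^ q * (Matrix.of fun i (_ : Unit) => Iv i : Matrix (Cfg (N + 1)) Unit ℂ) =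
        Matrix.of fun i (_ : Unit) => (TlowD N d ((Real.pi / 6 : ℝ) : ℂ) ^ q *ᵥ Iv) i := by
      ext i j; rfl
    rw [e1, e2]
    exact mul_le_mul (norm_row _) (norm_col _) (norm_nonneg _) (norm_nonneg _)
  · intro z hz
    obtain ⟨a1, a2, a3, a4, a5, a6⟩ := hA z hz
    refine ⟨a1, a2, a3, a4, a5, ?_⟩
    rw [a6]
    unfold sixFD Fo
    rw [← row_mul_col]
    simp only [Matrix.mul_assoc]

end Full
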