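import Pool.Agent.Full.Asm.L7
import Pool.Agent.Full.Asm.SixD
import Pool.Agent.Full.Def.Stat

/-!
# FULL, assembly: (S1) from the representation of the observable in a row, for given shifts
-/

set_option autoImplicit false

namespace Full

open Complex Set Filter Topology Metric Matrix Eng Shape SixV

open scoped Matrix.Norms.L2Operator

namespace Shape

variable {S : Shape}

/-- the end `z = (x, y)` is in the middle part of the row `r`, outside the dead ends -/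
def MidRow (S : Shape) (n : ℕ) (r : S.R) (A κ : ℝ) (x y : ℤ) : Prop :=
  ((n : ℝ) * (S.xl (.inl r) + A * (S.yt (.inl r) - S.yb (.inl r))) < x + 1 ∧
      (x : ℝ) ≤ n * (S.xr (.inl r) - A * (S.yt (.inl r) - S.yb (.inl r)))) ∧
    ((n : ℝ) * (S.yb (.inl r) + κ) < y ∧ (y : ℝ) - 1 ≤ n * (S.yt (.inl r) - κ))

/-- the amplitude of the six vertex rows with the end `z = (x, y)` in the row `r`, for given shifts -/
noncomputable def rowA (S : Shape) (n : ℕ) (r : S.R) (a : Sh S n) (N : ℕ) (d : Bool → ℂ) (O : Cfg N → ℂ)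
    (Iv : Cfg (N + 1) → ℂ) (x y : ℤ) : ℂ :=
  sixFD N d O Iv (x - S.fl n a.s (.inl r)).toNat (S.ft n (.inl r) - 1 - y).toNat (y - 1 - S.fb n (.inl r)).toNat

/-- **the observable in the row `r` for given shifts**: up to `err` a constant plus an amplitude of the six vertex rows,
with environments of norm at most `K` -/
def RowRep (m : S.Marks) (n : ℕ) (r : S.R) (A κ : ℝ) (a : Sh S n) (err K : ℝ) : Prop :=
  ∃ (N : ℕ) (d : Bool → ℂ) (O : Cfg N → ℂ) (Iv : Cfg (N + 1) → ℂ) (c : ℂ), Tw d ∧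
    (N : ℤ) = S.fr n a.s (.inl r) - S.fl n a.s (.inl r) ∧
    (∀ p q : ℕ, κ / 8 * n ≤ p → κ / 8 * n ≤ q → (p : ℤ) ≤ S.ft n (.inl r) - 2 - S.fb n (.inl r) →
      (q : ℤ) ≤ S.ft n (.inl r) - 2 - S.fb n (.inl r) →
      ‖WithLp.toLp 2 (O ᵥ* TupD N d ((Real.pi / 6 : ℝ) : ℂ) ^ p)‖ *
        ‖WithLp.toLp 2 (TlowD N d ((Real.pi / 6 : ℝ) : ℂ) ^ q *ᵥ Iv)‖ ≤ K) ∧
    ∀ x y : ℤ, S.MidRow n r A κ x y →
      ‖Fz m n (.inl r) x y a - (c + S.rowA n r a N d O Iv x y)‖ ≤ err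

/-- the room of a point of the slab -/
lemma mid_room_unique (hS : S.Ok) {z : ℂ} {q q' : S.Q} (h : ((S.xl q : ℝ) < z.re ∧ z.re < S.xr q) ∧ (S.yb q : ℝ) ≤ z.im ∧ z.im < S.yt q)
    (h' : ((S.xl q' : ℝ) < z.re ∧ z.re < S.xr q') ∧ (S.yb q' : ℝ) ≤ z.im ∧ z.im < S.yt q') : q = q' := by
  by_contra hne
  by_cases h1 : S.On q q'
  · have := hS.on_y _ _ h1
    have h2 : (S.yt q : ℝ) = S.yb q' := by exact_mod_cast this
    linarith [h.2.2, h'.2.1]
  by_cases h2 : S.On q' q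
  · have := hS.on_y _ _ h2
    have h3 : (S.yt q' : ℝ) = S.yb q := by exact_mod_cast this
    linarith [h'.2.2, h.2.1]
  rcases hS.sep q q' hne h1 h2 with h3 | h3 | h3 | h3
  · have h4 : (S.xr q : ℝ) < S.xl q' := by exact_mod_cast h3
    linarith [h.1.2, h'.1.1]
  · have h4 : (S.xr q' : ℝ) < S.xl q := by exact_mod_cast h3
    linarith [h'.1.2, h.1.1]
  · have h4 : (S.yt q : ℝ) < S.yb q' := by exact_mod_cast h3
    linarith [h.2.2, h'.2.1]
  · have h4 : (S.yt q' : ℝ) < S.yb q := by exact_mod_cast h3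
    linarith [h'.2.2, h.2.1]

/-- the observable in a room -/
lemma F_eq_mid (hS : S.Ok) (m : S.Marks) (n : ℕ) {z : ℂ} {q : S.Q}
    (h : ((S.xl q : ℝ) < z.re ∧ z.re < S.xr q) ∧ (S.yb q : ℝ) ≤ z.im ∧ z.im < S.yt q) :
    F m n z = Fav m n q ⌊n * z.re⌋ (min (⌊n * z.im⌋ + 1) (S.ft n q - 1)) := by
  have hex : ∃ q : S.Q, ((S.xl q : ℝ) < z.re ∧ z.re < S.xr q) ∧ (S.yb q : ℝ) ≤ z.im ∧ z.im < S.yt q := ⟨q, h⟩
  unfold F
  rw [dif_pos hex, mid_room_unique hS hex.choose_spec h]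

lemma avSh_congr_iff {n : ℕ} {p p' : Sh S n → Prop} {f : Sh S n → ℂ} (h : ∀ a, p a ↔ p' a) : avSh n p f = avSh n p' f := by
  have : p = p' := funext fun a => propext (h a)
  rw [this]

/-- the error of an average -/
lemma avSh_sub_le_mid {n : ℕ} {p : Sh S n → Prop} {f g : Sh S n → ℂ} {e : ℝ} (he : 0 ≤ e) (h : ∀ a, p a → ‖f a - g a‖ ≤ e) :
    ‖avSh n p f - avSh n p g‖ ≤ e := by
  classical
  unfold avSh
  rw [← sub_div, ← Finset.sum_sub_distrib, norm_div, Complex.norm_natCast]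
  rcases Nat.eq_zero_or_pos (Finset.univ.filter p).card with h0 | h0
  · rw [h0]; simpa using he
  rw [div_le_iff₀ (by exact_mod_cast h0)]
  calc ‖∑ a, ((if p a then f a else 0) - if p a then g a else 0)‖
      ≤ ∑ a, ‖(if p a then f a else 0) - if p a then g a else 0‖ := norm_sum_le _ _
    _ ≤ ∑ a, (if p a then e else 0) := by
        refine Finset.sum_le_sum fun a _ => ?_
        by_cases ha : p a
        · rw [if_pos ha, if_pos ha, if_pos ha]; exact h a ha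
        · rw [if_neg ha, if_neg ha, if_neg ha]; simp
    _ = e * ((Finset.univ.filter p).card : ℝ) := by
        rw [← Finset.sum_filter, Finset.sum_const, nsmul_eq_mul, mul_comm]

open Classical in
/-- an average is a mixture -/
lemma avSh_eq_mid {n : ℕ} {p : Sh S n → Prop} (c f : Sh S n → ℂ) :
    avSh n p (fun a => c a + f a) = avSh n p c +
      ∑ a ∈ Finset.univ.filter p, (1 / ((Finset.univ.filter p).card : ℂ)) * f a := by
  unfold avSh
  rw [← Finset.mul_sum, ← Finset.sum_filter, ← Finset.sum_filter, Finset.sum_add_distrib, add_div, one_div_mul_eq_div]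

end Shape

/-- floors -/
lemma natFloor_sub_int_mid (x : ℝ) (k : ℤ) : ⌊x - k⌋₊ = (⌊x⌋ - k).toNat := by
  rw [← Int.floor_toNat, Int.floor_sub_intCast]

/-- the amplitude in a row for given shifts -/
theorem sixAmpD_of_row {S : Shape} (hS : S.Ok) {n : ℕ} {r : S.R} {A κ : ℝ} (hA : 1 ≤ A) {a : Sh S n}
    (hn0 : 0 < n) (hn : 16 ≤ κ * n) (hκ1 : κ ≤ 1) {N : ℕ} {d : Bool → ℂ} {O : Cfg N → ℂ} {Iv : Cfg (N + 1) → ℂ} (hd : Tw d)
    (hN : (N : ℤ) = S.fr n a.s (.inl r) - S.fl n a.s (.inl r)) {K : ℝ}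
    (hK : ∀ p q : ℕ, κ / 8 * n ≤ p → κ / 8 * n ≤ q → (p : ℤ) ≤ S.ft n (.inl r) - 2 - S.fb n (.inl r) →
      (q : ℤ) ≤ S.ft n (.inl r) - 2 - S.fb n (.inl r) →
      ‖WithLp.toLp 2 (O ᵥ* TupD N d ((Real.pi / 6 : ℝ) : ℂ) ^ p)‖ *
        ‖WithLp.toLp 2 (TlowD N d ((Real.pi / 6 : ℝ) : ℂ) ^ q *ᵥ Iv)‖ ≤ K) :
    SixAmpD (κ / 2) K (1 / n) (S.mid r A κ) fun z => S.rowA n r a N d O Iv ⌊n * z.re⌋ (⌊n * z.im⌋ + 1) := by
  have hnR : (0 : ℝ) < n := by exact_mod_cast hn0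
  have hx := hS.x_lt (.inl r)
  have hy := hS.y_lt (.inl r)
  have hx' : (S.xl (.inl r) : ℝ) + 1 ≤ S.xr (.inl r) := by exact_mod_cast hx
  have hy' : (S.yb (.inl r) : ℝ) + 1 ≤ S.yt (.inl r) := by exact_mod_cast hy
  have hs0 : ∀ v, 4 * (a.s v : ℝ) ≤ n := by
    intro v
    have h1 := (a.1 v).isLt
    have h2 : a.s v < n / 4 := h1
    have h3 : 4 * a.s v ≤ n := by omega
    exact_mod_cast h3
  have hfl : (S.fl n a.s (.inl r) : ℝ) = n * S.xl (.inl r) + a.s (.inl r, false) := by unfold fl; push_cast; ring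
  have hfr : (S.fr n a.s (.inl r) : ℝ) = n * S.xr (.inl r) + a.s (.inl r, true) := by unfold fr; push_cast; ring
  have hfb : (S.fb n (.inl r) : ℝ) = n * S.yb (.inl r) := by unfold fb; push_cast; ring
  have hft : (S.ft n (.inl r) : ℝ) = n * S.yt (.inl r) := by unfold ft; push_cast; ring
  have hn16 : (16 : ℝ) ≤ n := by nlinarith
  have htop : 0 ≤ S.ft n (.inl r) - 2 - S.fb n (.inl r) := by
    have : (0 : ℝ) ≤ ((S.ft n (.inl r) - 2 - S.fb n (.inl r) : ℤ) : ℝ) := by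
      push_cast
      rw [hfb, hft]
      nlinarith
    exact_mod_cast this
  refine ⟨N, d, O, Iv, S.fl n a.s (.inl r) / n, S.fb n (.inl r) / n, (S.ft n (.inl r) - 2 - S.fb n (.inl r)).toNat, 0, hd,
    ?_, ?_, ?_⟩
  · have h1 : (N : ℝ) = S.fr n a.s (.inl r) - S.fl n a.s (.inl r) := by exact_mod_cast hN
    rw [mul_one_div, le_div_iff₀ hnR, h1, hfl, hfr]
    have h2 := hs0 (.inl r, false)
    have h3 : (0 : ℝ) ≤ a.s (.inl r, true) := Nat.cast_nonneg _
    nlinarith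
  · intro p q h1 h2 h3 h4
    refine hK p q ?_ ?_ ?_ ?_
    · rw [mul_one_div, le_div_iff₀ hnR] at h1; linarith
    · rw [mul_one_div, le_div_iff₀ hnR] at h2; linarith
    · omega
    · omega
  · intro z hz
    obtain ⟨⟨z1, z2⟩, z3, z4⟩ := hz
    have hAh : (1 : ℝ) ≤ A * (S.yt (.inl r) - S.yb (.inl r)) := by nlinarith
    have er : (z.re - S.fl n a.s (.inl r) / n) / (1 / n) = n * z.re - S.fl n a.s (.inl r) := by field_simp
    have ei : (z.im - S.fb n (.inl r) / n) / (1 / n) = n * z.im - S.fb n (.inl r) := by field_simp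
    rw [er, ei, natFloor_sub_int_mid, natFloor_sub_int_mid]
    have f1 : (⌊n * z.im⌋ : ℝ) ≤ n * z.im := Int.floor_le _
    have f2 : (n : ℝ) * z.im < ⌊n * z.im⌋ + 1 := Int.lt_floor_add_one _
    have g1 : (n : ℝ) * (S.yb (.inl r) + κ) ≤ n * z.im := by gcongr
    have g2 : (n : ℝ) * z.im ≤ n * (S.yt (.inl r) - κ) := by gcongr
    have k1 : 0 ≤ ⌊n * z.im⌋ - S.fb n (.inl r) := by
      have : (-1 : ℝ) < ((⌊n * z.im⌋ - S.fb n (.inl r) : ℤ) : ℝ) := by
        push_cast; rw [hfb]; nlinarith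
      have : (-1 : ℤ) < ⌊n * z.im⌋ - S.fb n (.inl r) := by exact_mod_cast this
      omega
    have k2 : ⌊n * z.im⌋ - S.fb n (.inl r) ≤ S.ft n (.inl r) - 2 - S.fb n (.inl r) := by
      have : ((⌊n * z.im⌋ - S.fb n (.inl r) : ℤ) : ℝ) ≤ ((S.ft n (.inl r) - 2 - S.fb n (.inl r) : ℤ) : ℝ) := by
        push_cast; rw [hfb, hft]; nlinarith
      exact_mod_cast this
    have k3 : (((⌊n * z.im⌋ - S.fb n (.inl r)).toNat : ℕ) : ℝ) = ⌊n * z.im⌋ - S.fb n (.inl r) := by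
      have : (((⌊n * z.im⌋ - S.fb n (.inl r)).toNat : ℤ)) = ⌊n * z.im⌋ - S.fb n (.inl r) := Int.toNat_of_nonneg k1
      exact_mod_cast this
    have k4 : (((S.ft n (.inl r) - 2 - S.fb n (.inl r)).toNat : ℕ) : ℝ) = S.ft n (.inl r) - 2 - S.fb n (.inl r) := by
      have : (((S.ft n (.inl r) - 2 - S.fb n (.inl r)).toNat : ℤ)) = S.ft n (.inl r) - 2 - S.fb n (.inl r) :=
        Int.toNat_of_nonneg htop
      exact_mod_cast this
    refine ⟨?_, ?_, by omega, ?_, ?_, ?_⟩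
    · rw [div_le_iff₀ hnR, hfl]
      have h2 := hs0 (.inl r, false)
      nlinarith
    · rw [div_le_iff₀ hnR, hfb]; nlinarith
    · rw [k3, k4, hft, mul_one_div, le_div_iff₀ hnR]
      nlinarith
    · rw [k3, hfb, mul_one_div, le_div_iff₀ hnR]
      push_cast
      nlinarith
    · have e1 : (S.ft n (.inl r) - 2 - S.fb n (.inl r)).toNat - (⌊n * z.im⌋ - S.fb n (.inl r)).toNat =
          (S.ft n (.inl r) - 1 - (⌊n * z.im⌋ + 1)).toNat := by omega
      have e2 : 0 + (⌊n * z.im⌋ - S.fb n (.inl r)).toNat = (⌊n * z.im⌋ + 1 - 1 - S.fb n (.inl r)).toNat := by omega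
      rw [e1, e2]
      rfl

/-- points of the slab -/
lemma midRow_of_slab {S : Shape} {n : ℕ} {r : S.R} {A κ κ₀ : ℝ} (hκ : κ₀ ≤ κ) {z : ℂ} (hz : z ∈ S.mid r A κ) :
    S.MidRow n r A κ₀ ⌊n * z.re⌋ (⌊n * z.im⌋ + 1) := by
  obtain ⟨⟨z1, z2⟩, z3, z4⟩ := hz
  have f1 : (⌊n * z.im⌋ : ℝ) ≤ n * z.im := Int.floor_le _
  have f2 : (n : ℝ) * z.im < ⌊n * z.im⌋ + 1 := Int.lt_floor_add_one _
  have f3 : (⌊n * z.re⌋ : ℝ) ≤ n * z.re := Int.floor_le _
  have f4 : (n : ℝ) * z.re < ⌊n * z.re⌋ + 1 := Int.lt_floor_add_one _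
  have g1 : (n : ℝ) * (S.yb (.inl r) + κ₀) ≤ n * z.im := by gcongr; linarith
  have g2 : (n : ℝ) * z.im ≤ n * (S.yt (.inl r) - κ₀) := by gcongr; linarith
  have g3 : (n : ℝ) * (S.xl (.inl r) + A * (S.yt (.inl r) - S.yb (.inl r))) ≤ n * z.re := by gcongr
  have g4 : (n : ℝ) * z.re ≤ n * (S.xr (.inl r) - A * (S.yt (.inl r) - S.yb (.inl r))) := by gcongr
  refine ⟨⟨by linarith, by linarith⟩, ?_, ?_⟩
  · push_cast; linarith
  · push_cast; linarith

/-- the point is inside the row rectangle -/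
lemma MidRow.bounds {S : Shape} (hS : S.Ok) {n : ℕ} {r : S.R} {A κ : ℝ} (hA : 1 ≤ A) (hn0 : 0 < n)
    (hn : 16 ≤ κ * n) (a : Sh S n) {x y : ℤ} (h : S.MidRow n r A κ x y) :
    S.In n a.s (.inl r) x y := by
  obtain ⟨⟨h1, h2⟩, h3, h4⟩ := h
  have hnR : (0 : ℝ) < n := by exact_mod_cast hn0
  have hn1 : (1 : ℝ) ≤ n := by exact_mod_cast hn0
  have hy := hS.y_lt (.inl r)
  have hy' : (S.yb (.inl r) : ℝ) + 1 ≤ S.yt (.inl r) := by exact_mod_cast hy
  have hAh : (1 : ℝ) ≤ A * (S.yt (.inl r) - S.yb (.inl r)) := by nlinarith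
  have hs0 : 4 * (a.s (.inl r, false) : ℝ) ≤ n := by
    have h1 := (a.1 (.inl r, false)).isLt
    have h2 : a.s (.inl r, false) < n / 4 := h1
    have h3 : 4 * a.s (.inl r, false) ≤ n := by omega
    exact_mod_cast h3
  have hs1 : 4 * (a.s (.inl r, false) : ℝ) ≤ n - 4 := by
    have h1 := (a.1 (.inl r, false)).isLt
    have h2 : a.s (.inl r, false) < n / 4 := h1
    have h3 : 4 * a.s (.inl r, false) + 4 ≤ n := by omega
    have : (4 * a.s (.inl r, false) + 4 : ℝ) ≤ n := by exact_mod_cast h3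
    linarith
  have hfl : (S.fl n a.s (.inl r) : ℝ) = n * S.xl (.inl r) + a.s (.inl r, false) := by unfold fl; push_cast; ring
  have hfr : (S.fr n a.s (.inl r) : ℝ) = n * S.xr (.inl r) + a.s (.inl r, true) := by unfold fr; push_cast; ring
  have hfb : (S.fb n (.inl r) : ℝ) = n * S.yb (.inl r) := by unfold fb; push_cast; ring
  have hft : (S.ft n (.inl r) : ℝ) = n * S.yt (.inl r) := by unfold ft; push_cast; ring
  refine ⟨⟨?_, ?_⟩, ?_, ?_⟩
  · have : (S.fl n a.s (.inl r) : ℝ) + 1 < x + 1 := by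
      rw [hfl]; nlinarith
    have : S.fl n a.s (.inl r) + 1 < x + 1 := by exact_mod_cast this
    omega
  · have h5 : (0 : ℝ) ≤ a.s (.inl r, true) := Nat.cast_nonneg _
    have : (x : ℝ) < S.fr n a.s (.inl r) := by
      rw [hfr]; nlinarith
    exact_mod_cast this
  · have : (S.fb n (.inl r) : ℝ) < y := by
      rw [hfb]; nlinarith
    exact_mod_cast this
  · have : (y : ℝ) < S.ft n (.inl r) := by
      rw [hft]; nlinarith
    exact_mod_cast this

/-- whether there is a closed wall does not depend on the end `z` in the room -/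
def WallIndep : Prop := ∀ (S : Shape), S.Ok → ∀ m : S.Marks, m.Ok → ∀ n : ℕ, 8 ≤ n → ∀ (q : S.Q) (a : Sh S n)
  (x y x' y' : ℤ), S.In n a.s q x y → S.In n a.s q x' y' → ((∃ w, IsWz m n q x y a w) ↔ ∃ w, IsWz m n q x' y' a w)

/-- **the rows for given shifts**: the observable is, up to a small error, an amplitude of the six vertex rows with
environments of norm `o(n^(1/5))` -/
def RowStat : Prop := ∃ C c : ℝ, 0 < c ∧ ∀ (S : Shape), S.Ok → ∀ m : S.Marks, m.Ok → ∀ A : ℝ, 1 ≤ A → S.Chan m A →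
  ∀ r : S.R, ∀ κ > 0, κ ≤ 1 → ∃ K : ℕ → ℝ, (∀ n, 0 ≤ K n) ∧
    Tendsto (fun n : ℕ => K n * (1 / (n : ℝ)) ^ (1 / 5 : ℝ)) atTop (𝓝 0) ∧
    ∀ ε > 0, ∀ᶠ n : ℕ in atTop, ∀ a : Sh S n, (∃ x y w, S.MidRow n r A κ x y ∧ IsWz m n (.inl r) x y a w) →
      RowRep m n r A κ a (C * Fintype.card S.R * Real.exp (-(c * A)) + ε) (K n)

/-- **(S1) from the rows for given shifts** -/
theorem s1_of_rowStat (hW : WallIndep) (h : RowStat) : S1 := by
  obtain ⟨C, c, hc, h⟩ := h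
  refine ⟨6, max C 0, c, by norm_num, hc, fun S hS m hm A hA hch r κ hκ => ?_⟩
  set κ₀ := min κ 1 with hκ₀
  have hκ0 : 0 < κ₀ := lt_min hκ one_pos
  have hκ1 : κ₀ ≤ 1 := min_le_right _ _
  have hκκ : κ₀ ≤ κ := min_le_left _ _
  obtain ⟨K, hK0, hKt, hK⟩ := h S hS m hm A hA hch r κ₀ hκ0 hκ1
  refine ⟨K, κ₀ / 2, by positivity, hK0, hKt, fun ε hε => ?_⟩
  have hbig : ∀ᶠ n : ℕ in atTop, 16 ≤ κ₀ * n := by
    have : Tendsto (fun n : ℕ => κ₀ * (n : ℝ)) atTop atTop := tendsto_natCast_atTop_atTop.const_mul_atTop hκ0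
    exact this.eventually_ge_atTop 16
  filter_upwards [hK ε hε, eventually_ge_atTop 8, hbig] with n hn h8 hn16
  classical
  have hn0 : 0 < n := by omega
  set adm : Sh S n → Prop := fun a => ∃ x y w, S.MidRow n r A κ₀ x y ∧ IsWz m n (.inl r) x y a w with hadm
  have hrep : ∀ a, adm a → RowRep m n r A κ₀ a (C * Fintype.card S.R * Real.exp (-(c * A)) + ε) (K n) := hn
  choose N d O Iv cc p1 p2 p3 p4 using hrep
  set As : Sh S n → ℂ → ℂ := fun a z => if ha : adm a then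
      S.rowA n r a (N a ha) (d a ha) (O a ha) (Iv a ha) ⌊(n : ℝ) * z.re⌋ (⌊(n : ℝ) * z.im⌋ + 1) else 0 with hAs
  set cst : Sh S n → ℂ := fun a => if ha : adm a then cc a ha else 0 with hcst
  refine ⟨fun z => avSh n adm fun a => cst a + As a z, ?_, fun z hz => ?_⟩
  · refine ⟨Sh S n, Finset.univ.filter adm, avSh n adm cst, fun _ => 1 / ((Finset.univ.filter adm).card : ℂ), As, ?_, ?_, ?_⟩
    · rw [Finset.sum_const, nsmul_eq_mul, norm_div, norm_one, Complex.norm_natCast]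
      rcases Nat.eq_zero_or_pos (Finset.univ.filter adm).card with h0 | h0
      · rw [h0]; simp
      · rw [mul_one_div, div_self (by exact_mod_cast h0.ne')]
    · intro a ha
      have ha' : adm a := (Finset.mem_filter.1 ha).2
      have e : As a = fun z : ℂ => S.rowA n r a (N a ha') (d a ha') (O a ha') (Iv a ha') ⌊(n : ℝ) * z.re⌋
          (⌊(n : ℝ) * z.im⌋ + 1) := by
        funext z
        simp only [hAs]
        rw [dif_pos ha']
      rw [e]
      have hsl : S.mid r A κ ⊆ S.mid r A κ₀ := by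
        intro z hz
        exact ⟨hz.1, by linarith [hz.2.1], by linarith [hz.2.2]⟩
      have key := (sixAmpD_of_row hS (r := r) (A := A) hA hn0 hn16 hκ1 (p1 a ha') (p2 a ha') (p3 a ha')).eng
      obtain ⟨J, L, i1, i2, i3, i4, N', Tu, Tl, W, O', Iv', x₀, y₀, top, bot, Ru, Rl, hW', hG, hN', hK', hA'⟩ := key
      exact ⟨J, L, i1, i2, i3, i4, N', Tu, Tl, W, O', Iv', x₀, y₀, top, bot, Ru, Rl, hW', hG, hN', hK',
        fun z hz => hA' z (hsl hz)⟩
    · intro z _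
      exact avSh_eq_mid (p := adm) cst fun a => As a z
  · have hmid := midRow_of_slab (n := n) hκκ hz
    have hin : ((S.xl (.inl r) : ℝ) < z.re ∧ z.re < S.xr (.inl r)) ∧ (S.yb (.inl r) : ℝ) ≤ z.im ∧ z.im < S.yt (.inl r) := by
      obtain ⟨⟨z1, z2⟩, z3, z4⟩ := hz
      have hy := hS.y_lt (.inl r)
      have hy' : (S.yb (.inl r) : ℝ) + 1 ≤ S.yt (.inl r) := by exact_mod_cast hy
      have hAh : (1 : ℝ) ≤ A * (S.yt (.inl r) - S.yb (.inl r)) := by nlinarith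
      exact ⟨⟨by linarith, by linarith⟩, by linarith, by linarith⟩
    have hmin : min (⌊n * z.im⌋ + 1) (S.ft n (.inl r) - 1) = ⌊n * z.im⌋ + 1 := by
      refine min_eq_left ?_
      have f1 : (⌊n * z.im⌋ : ℝ) ≤ n * z.im := Int.floor_le _
      have g2 : (n : ℝ) * z.im ≤ n * (S.yt (.inl r) - κ₀) := by
        have := hz.2.2
        gcongr
        linarith
      have hft : (S.ft n (.inl r) : ℝ) = n * S.yt (.inl r) := by unfold ft; push_cast; ring
      have : ((⌊n * z.im⌋ + 1 : ℤ) : ℝ) ≤ ((S.ft n (.inl r) - 1 : ℤ) : ℝ) := by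
        push_cast; rw [hft]; nlinarith
      exact_mod_cast this
    rw [F_eq_mid hS m n hin, hmin]
    unfold Fav
    have hp : ∀ a, (∃ w, IsWz m n (.inl r) ⌊n * z.re⌋ (⌊n * z.im⌋ + 1) a w) ↔ adm a := by
      intro a
      constructor
      · rintro ⟨w, hw⟩
        exact ⟨_, _, w, hmid, hw⟩
      · rintro ⟨x, y, w, hxy, hw⟩
        exact (hW S hS m hm n h8 (.inl r) a x y _ _ (MidRow.bounds hS hA hn0 hn16 a hxy)
          (MidRow.bounds hS hA hn0 hn16 a hmid)).1 ⟨w, hw⟩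
    rw [avSh_congr_iff hp]
    have hle : C * Fintype.card S.R * Real.exp (-(c * A)) ≤ max C 0 * Fintype.card S.R * Real.exp (-(c * A)) := by
      gcongr
      exact le_max_left _ _
    have he0 : 0 ≤ max C 0 * Fintype.card S.R * Real.exp (-(c * A)) + ε := by positivity
    refine avSh_sub_le_mid he0 fun a ha => ?_
    have h4 := p4 a ha _ _ hmid
    simp only [hAs, hcst]
    rw [dif_pos ha, dif_pos ha]
    exact h4.trans (by linarith)

end Full
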