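import Pool.Agent.Full.Asm.S1Stat

/-!
# (S1) for one shift from X3b, X2b, N8 and the geometry

`slabS1_of : AmpGood → AmpSq → NormOk → S1Geo → SlabS1`.
-/

set_option autoImplicit false

namespace Full

open Complex Set Filter Topology Metric Matrix Eng SixV
open Full.Loc1 Pool.Agent.Helper69.RSW

open scoped Matrix.Norms.L2Operator

namespace Slab

variable {D : Slab} {W : Lab} {a nL nU k : ℤ} {E : Fin 3 → Half ZT} {x y : ℤ}

/-- the marks are different -/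
lemma MarksOk_inj (h : MarksOk D W a nL nU E) : Function.Injective E := by
  have h1 := h.lt
  have h2 := h.cyc
  intro i j hij
  have h3 : W.pos (E i) = W.pos (E j) := by rw [hij]
  fin_cases i <;> fin_cases j <;> first | rfl | (exfalso; simp at h3; omega)

/-- the expectation of the amplitude is an amplitude of the six vertex rows -/
theorem CEx_ampE (h : D.Rdy W a nL nU k E x y) : CEx (D.T y) (D.ampE W a nL nU k E x y) =
    sixFD (D.n + 1) (dE W a k E) (D.OE W a k E) (D.IE W a k E) (x - D.l).toNat (D.t - 1 - y).toNat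
      (y - 1 - D.b).toNat / ((Real.sqrt 3 : ℝ) : ℂ) ^ na nL nU := by
  have hk := h.hk
  have hak := h.hak
  have hx1 := h.good.xl
  have hx2 := h.good.xr
  have hy1 := h.yb
  have hy2 := h.yt
  have hlt := h.marks.lt
  have hG : ∀ u, Bd (D.T y) (D.gc x y) u → u ≠ z x y → D.IsW u := fun u h1 h2 => (h.isW_gc u).1 ⟨h1, h2⟩
  unfold ampE OE IE dE
  by_cases hs : W.pos (E 2) < W.P
  · simp only [if_pos hs]
    exact amp_six_low hG h.ok (by omega) (by omega) hy1 hy2 (by unfold chgOf; simp only; omega) (by omega)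
      (fun j hj => by rw [Finset.mem_Icc] at hj; omega) (by omega)
  · have hs' := h.marks.side.resolve_left hs
    simp only [if_neg hs]
    exact amp_six_up hG h.ok (by omega) (by omega) hy1 hy2 (by unfold chgOf; simp only; omega) (by omega)
      (fun j hj => by rw [Finset.mem_Icc] at hj; omega) hs'

lemma norm_tau_sub_one : ‖Complex.exp (2 * Real.pi * Complex.I / 3) - 1‖ = Real.sqrt 3 := by
  have e : Complex.exp (2 * Real.pi * Complex.I / 3) = ((-1 / 2 : ℝ) : ℂ) + ((Real.sqrt 3 / 2 : ℝ) : ℂ) * Complex.I := by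
    rw [show (2 * Real.pi * Complex.I / 3 : ℂ) = ((2 * Real.pi / 3 : ℝ) : ℂ) * Complex.I by push_cast; ring,
      Complex.exp_mul_I, ← Complex.ofReal_cos, ← Complex.ofReal_sin,
      show 2 * Real.pi / 3 = Real.pi - Real.pi / 3 by ring, Real.cos_pi_sub, Real.sin_pi_sub,
      Real.cos_pi_div_three, Real.sin_pi_div_three]
    push_cast
    ring
  rw [e, show ((-1 / 2 : ℝ) : ℂ) + ((Real.sqrt 3 / 2 : ℝ) : ℂ) * Complex.I - 1 =
    ((-3 / 2 : ℝ) : ℂ) + ((Real.sqrt 3 / 2 : ℝ) : ℂ) * Complex.I by push_cast; ring]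
  rw [← Complex.mk_eq_add_mul_I, Complex.norm_def, Complex.normSq_mk]
  congr 1
  have := Real.mul_self_sqrt (show (0 : ℝ) ≤ 3 by norm_num)
  nlinarith

lemma norm_cE : ‖cE W E‖ = (Real.sqrt 3)⁻¹ := by
  unfold cE
  rw [norm_mul, norm_div, norm_tau_sub_one]
  have e1 : ‖Complex.exp (Complex.I * (Real.pi / 3 * (if W.pos (E 0) < W.pos (E 1) then 0 else 1)))‖ = 1 := by
    split_ifs
    · simp
    · rw [show Complex.I * ((Real.pi : ℂ) / 3 * 1) = ((Real.pi / 3 : ℝ) : ℂ) * Complex.I by push_cast; ring]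
      exact Complex.norm_exp_ofReal_mul_I _
  have e2 : ‖Complex.exp (-(Complex.I * (Real.pi / 3)))‖ = 1 := by
    rw [show -(Complex.I * ((Real.pi : ℂ) / 3)) = ((-(Real.pi / 3) : ℝ) : ℂ) * Complex.I by push_cast; ring]
    exact Complex.norm_exp_ofReal_mul_I _
  rw [e1, e2, one_mul, one_div]

lemma cE_ne : cE W E ≠ 0 := by
  rw [← norm_pos_iff, norm_cE]
  positivity

/-- **the observable of the marks `E`** up to the error of the corridor -/
theorem obs_sub_le (hA : AmpGood) {B : ℝ} (hB : Full.Perc.Ex (D.T y) (fun ω => ‖D.ampE W a nL nU k E x y ω‖ ^ 2) ≤ B)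
    (h : D.Rdy W a nL nU k E x y) {A : ℕ} (hAk : A * (D.t - D.b) ≤ k) {w : Half ZT → Half ZT}
    (hw : Full.IsW (D.T y) (D.go x y) ({z x y} ∪ Set.range E) w) :
    ‖obs (D.T y) w (z x y) E - (1 + (cE W E)⁻¹ * CEx (D.T y) (D.ampE W a nL nU k E x y))‖ ≤
      Real.sqrt 3 * Real.sqrt (B * (4 * thB ^ A)) + 8 * thB ^ A := by
  have hak := h.hak
  have hk := h.hk
  have hp := P_not_goodC (x := x) (y := y) h.good A hAk (by omega)
  have h1 := norm_amp_sub_obs_le (MarksOk_inj h.marks) (A := D.ampE W a nL nU k E x y) (c0 := cE W E) (c1 := -cE W E)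
    (w := w) (z := z x y) (G := D.GoodC y a k) (fun ω hω hG => by
      rw [hA D W a nL nU k E x y h w hw ω hω hG]
      ring) hB hp
  rw [norm_neg, norm_cE] at h1
  have e : obs (D.T y) w (z x y) E - (1 + (cE W E)⁻¹ * CEx (D.T y) (D.ampE W a nL nU k E x y)) =
      -((cE W E)⁻¹ * (CEx (D.T y) (D.ampE W a nL nU k E x y) - (cE W E * obs (D.T y) w (z x y) E + -cE W E))) := by
    have := cE_ne (W := W) (E := E)
    field_simp
    ring
  rw [e, norm_neg, norm_mul, norm_inv, norm_cE, inv_inv]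
  have h3 : (0 : ℝ) < Real.sqrt 3 := by positivity
  calc Real.sqrt 3 * ‖CEx (D.T y) (D.ampE W a nL nU k E x y) - (cE W E * obs (D.T y) w (z x y) E + -cE W E)‖
      ≤ Real.sqrt 3 * (√(B * (4 * thB ^ A)) + ((Real.sqrt 3)⁻¹ + (Real.sqrt 3)⁻¹) * (4 * thB ^ A)) :=
        mul_le_mul_of_nonneg_left h1 h3.le
    _ = _ := by field_simp; ring

end Slab

/-- the observable of the six vertex rows is linear in the vector above -/
lemma sixFD_smul (N : ℕ) (d : Bool → ℂ) (c : ℂ) (O : Cfg N → ℂ) (I : Cfg (N + 1) → ℂ) (x a b : ℕ) :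
    sixFD N d (c • O) I x a b = c * sixFD N d O I x a b := by
  unfold sixFD
  rw [smul_dotProduct, smul_eq_mul]


lemma norm_smul_vecMul {I J : Type*} [Fintype I] [Fintype J] (c : ℂ) (O : I → ℂ) (M : Matrix I J ℂ) :
    ‖WithLp.toLp 2 ((c • O) ᵥ* M)‖ = ‖c‖ * ‖WithLp.toLp 2 (O ᵥ* M)‖ := by
  rw [smul_vecMul, WithLp.toLp_smul, norm_smul]

/-- the amplitude of the marks `E` as an amplitude of the slab -/
theorem Slab.amp_E {D : Slab} {W : Lab} {a nL nU k : ℤ} {E : Fin 3 → Half ZT} {M K : ℝ}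
    (hN : ∀ p q : ℕ, M ≤ p → M ≤ q → (p : ℤ) ≤ D.t - D.b - 2 → (q : ℤ) ≤ D.t - D.b - 2 →
      ‖WithLp.toLp 2 (D.OE W a k E ᵥ* TupD (D.n + 1) (Slab.dE W a k E) ((Real.pi / 6 : ℝ) : ℂ) ^ p)‖ *
        ‖WithLp.toLp 2 (TlowD (D.n + 1) (Slab.dE W a k E) ((Real.pi / 6 : ℝ) : ℂ) ^ q *ᵥ D.IE W a k E)‖ ≤
      K * Real.sqrt 3 ^ Slab.na nL nU) :
    D.Amp M (Real.sqrt 3 * K) fun x y => (Slab.cE W E)⁻¹ *
      (sixFD (D.n + 1) (Slab.dE W a k E) (D.OE W a k E) (D.IE W a k E) (x - D.l).toNat (D.t - 1 - y).toNat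
        (y - 1 - D.b).toNat / ((Real.sqrt 3 : ℝ) : ℂ) ^ Slab.na nL nU) := by
  have h3 : (0 : ℝ) < Real.sqrt 3 := by positivity
  have hpow : (0 : ℝ) < Real.sqrt 3 ^ Slab.na nL nU := by positivity
  refine ⟨Slab.dE W a k E, ((Slab.cE W E)⁻¹ / ((Real.sqrt 3 : ℝ) : ℂ) ^ Slab.na nL nU) • D.OE W a k E, D.IE W a k E,
    tw_dw, fun p q hp hq hp' hq' => ?_, fun x y _ _ _ _ => ?_⟩
  · have h := hN p q hp hq hp' hq'
    rw [norm_smul_vecMul, norm_div, norm_inv, Slab.norm_cE, inv_inv, norm_pow, Complex.norm_real,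
      Real.norm_of_nonneg h3.le, mul_assoc, div_mul_eq_mul_div, div_le_iff₀ hpow]
    calc Real.sqrt 3 * _ ≤ Real.sqrt 3 * (K * Real.sqrt 3 ^ Slab.na nL nU) := mul_le_mul_of_nonneg_left h h3.le
      _ = _ := by ring
  · rw [sixFD_smul]
    ring

/-! ### rotation of the marks -/

lemma tau_three : Complex.exp (2 * Real.pi * Complex.I / 3) ^ 3 = 1 := by
  rw [← Complex.exp_nat_mul, show ((3 : ℕ) : ℂ) * (2 * Real.pi * Complex.I / 3) = 2 * Real.pi * Complex.I by push_cast; ring,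
    Complex.exp_two_pi_mul_I]

/-- the observable of the rotated marks -/
theorem obs_rot {τ : Type*} [DecidableEq τ] (T : Finset τ) (w : Half τ → Half τ) (z : Half τ) (e : Fin 3 → Half τ)
    (s : Fin 3) : obs T w z e = Complex.exp (2 * Real.pi * Complex.I / 3) ^ (s : ℕ) * obs T w z fun i => e (i + s) := by
  unfold obs
  rw [Finset.mul_sum, ← Equiv.sum_comp (Equiv.addRight s) fun j : Fin 3 => Complex.exp (2 * Real.pi * Complex.I / 3) ^ (j : ℕ) *
    ((P T (fun ω => other (mate ω) w z = e j) : ℝ) : ℂ)]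
  refine Finset.sum_congr rfl fun i _ => ?_
  rw [Equiv.coe_addRight, ← mul_assoc, ← pow_add]
  congr 1
  have h3 := tau_three
  fin_cases i <;> fin_cases s <;> simp [Fin.add_def] <;> (try rw [h3]) <;>
    (try rw [show (4 : ℕ) = 3 + 1 from rfl, pow_add, h3]; ring)

lemma norm_tau_pow (s : ℕ) : ‖Complex.exp (2 * Real.pi * Complex.I / 3) ^ s‖ = 1 := by
  rw [norm_pow, Loc1.norm_tau, one_pow]

private lemma norm_obs_le {τ : Type*} [DecidableEq τ] (T : Finset τ) (w : Half τ → Half τ) (z : Half τ) (e : Fin 3 → Half τ) :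
    ‖obs T w z e‖ ≤ 3 := by
  unfold obs
  refine (norm_sum_le _ _).trans ?_
  have h : ∀ j : Fin 3, ‖Complex.exp (2 * Real.pi * Complex.I / 3) ^ (j : ℕ) *
      ((P T (fun ω => other (mate ω) w z = e j) : ℝ) : ℂ)‖ ≤ 1 := by
    intro j
    rw [norm_mul, norm_tau_pow, one_mul, Complex.norm_real, Real.norm_of_nonneg (P_nonneg _ _)]
    exact P_le_one _ _
  calc ∑ j : Fin 3, ‖Complex.exp (2 * Real.pi * Complex.I / 3) ^ (j : ℕ) *
      ((P T (fun ω => other (mate ω) w z = e j) : ℝ) : ℂ)‖ ≤ ∑ _j : Fin 3, (1 : ℝ) := Finset.sum_le_sum fun j _ => h j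
    _ = 3 := by simp


lemma norm_Fz_le {S : Shape} (m : S.Marks) (n : ℕ) (q : S.Q) (x y : ℤ) (a : Shape.Sh S n) :
    ‖Shape.Fz m n q x y a‖ ≤ 3 := by
  unfold Shape.Fz
  split_ifs with h
  · exact norm_obs_le _ _ _ _
  · rw [norm_zero]; norm_num

/-- the norm constant -/
lemma tendsto_K (C : ℝ) : Tendsto (fun n : ℕ => Real.sqrt 3 * (C * (n : ℝ) ^ (1 / 6 + 1 / 60 : ℝ)) *
    (1 / (n : ℝ)) ^ (1 / 5 : ℝ)) atTop (𝓝 0) := by
  have h1 : Tendsto (fun n : ℕ => Real.sqrt 3 * C * (n : ℝ) ^ (-(1 / 60) : ℝ)) atTop (𝓝 0) := by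
    have h2 := (tendsto_rpow_neg_atTop (show (0 : ℝ) < 1 / 60 by norm_num)).comp tendsto_natCast_atTop_atTop
    have := h2.const_mul (Real.sqrt 3 * C)
    rw [mul_zero] at this
    exact this
  refine h1.congr' ?_
  filter_upwards [eventually_gt_atTop 0] with n hn
  have hn' : (0 : ℝ) < n := by exact_mod_cast hn
  rw [one_div (n : ℝ), Real.inv_rpow hn'.le, ← Real.rpow_neg hn'.le, mul_assoc, mul_assoc, mul_assoc, ← Real.rpow_add hn']
  norm_num

/-- the exponential error -/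
lemma err_le {B θ : ℝ} (hB : 0 ≤ B) (h0 : 0 < θ) (h1 : θ < 1) {t : ℝ} (ht0 : 0 ≤ t) (ht : t ≤ θ) {A : ℝ} {A' : ℕ}
    (hA : A / 4 - 5 / 4 ≤ A') :
    Real.sqrt 3 * Real.sqrt (B * (4 * t ^ A')) + 8 * t ^ A' ≤
      (Real.sqrt (12 * B) + 8) * θ ^ (-(5 / 8) : ℝ) * Real.exp (-(-(Real.log θ) / 8 * A)) := by
  have hpow : t ^ A' ≤ θ ^ A' := pow_le_pow_left₀ ht0 ht _
  have hs : Real.sqrt (θ ^ A') ≤ θ ^ (-(5 / 8) : ℝ) * Real.exp (-(-(Real.log θ) / 8 * A)) := by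
    rw [Real.sqrt_eq_rpow, ← Real.rpow_natCast, ← Real.rpow_mul h0.le,
      show -(-(Real.log θ) / 8 * A) = Real.log θ * (A / 8) by ring, ← Real.rpow_def_of_pos h0, ← Real.rpow_add h0]
    exact Real.rpow_le_rpow_of_exponent_ge h0 h1.le (by linarith)
  have hs0 : 0 ≤ Real.sqrt (θ ^ A') := Real.sqrt_nonneg _
  have hle : θ ^ A' ≤ Real.sqrt (θ ^ A') := by
    have h2 : (θ ^ A') ≤ 1 := pow_le_one₀ h0.le h1.le
    have h3 : 0 ≤ θ ^ A' := by positivity
    calc θ ^ A' = Real.sqrt (θ ^ A') * Real.sqrt (θ ^ A') := (Real.mul_self_sqrt h3).symm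
      _ ≤ Real.sqrt (θ ^ A') * 1 := mul_le_mul_of_nonneg_left (Real.sqrt_le_one.2 h2) hs0
      _ = _ := mul_one _
  have e1 : Real.sqrt 3 * Real.sqrt (B * (4 * t ^ A')) ≤ Real.sqrt (12 * B) * Real.sqrt (θ ^ A') := by
    rw [← Real.sqrt_mul (by norm_num), ← Real.sqrt_mul (by positivity)]
    apply Real.sqrt_le_sqrt
    nlinarith [mul_le_mul_of_nonneg_left hpow hB]
  calc Real.sqrt 3 * Real.sqrt (B * (4 * t ^ A')) + 8 * t ^ A'
      ≤ Real.sqrt (12 * B) * Real.sqrt (θ ^ A') + 8 * Real.sqrt (θ ^ A') := by linarith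
    _ = (Real.sqrt (12 * B) + 8) * Real.sqrt (θ ^ A') := by ring
    _ ≤ (Real.sqrt (12 * B) + 8) * (θ ^ (-(5 / 8) : ℝ) * Real.exp (-(-(Real.log θ) / 8 * A))) :=
        mul_le_mul_of_nonneg_left hs (by positivity)
    _ = _ := by ring

/-- **(S1) for one shift** from X3b, X2b, N8 and the geometry of the row -/
theorem slabS1_of (hA : AmpGood) (hB : AmpSq) (hN : NormOk) (hG : S1Geo) : SlabS1 := by
  classical
  obtain ⟨B0, hB⟩ := hB
  set B : ℝ := max B0 0 with hBdef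
  have hB1 : 0 ≤ B := le_max_right _ _
  set θ : ℝ := max thB (1 / 2) with hθ
  have hθ0 : 0 < θ := lt_of_lt_of_le (by norm_num) (le_max_right _ _)
  have hθ1 : θ < 1 := max_lt thB_lt_one (by norm_num)
  have hθt : thB ≤ θ := le_max_left _ _
  set c : ℝ := -(Real.log θ) / 8 with hc
  have hc0 : 0 < c := by
    have := Real.log_neg hθ0 hθ1
    rw [hc]; linarith
  set C : ℝ := (Real.sqrt (12 * B) + 8) * θ ^ (-(5 / 8) : ℝ) + 3 * Real.exp (14 * c) with hC
  have hC1 : 0 ≤ (Real.sqrt (12 * B) + 8) * θ ^ (-(5 / 8) : ℝ) := by positivity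
  refine ⟨C, c, hc0, fun S hS m hm A hA1 hCh r κ hκ => ?_⟩
  have hR : (1 : ℝ) ≤ Fintype.card S.R := by
    have : 0 < Fintype.card S.R := Fintype.card_pos_iff.2 ⟨r⟩
    exact_mod_cast this
  have hCR : ∀ u : ℝ, 0 ≤ u → u ≤ C * Real.exp (-(c * A)) → ∀ ε > 0, u ≤ C * Fintype.card S.R * Real.exp (-(c * A)) + ε := by
    intro u _ hu ε hε
    have h1 : C * Real.exp (-(c * A)) * 1 ≤ C * Real.exp (-(c * A)) * Fintype.card S.R :=
      mul_le_mul_of_nonneg_left hR (by positivity)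
    rw [mul_right_comm]
    linarith
  -- short dead ends
  by_cases hA5 : A < 14
  · refine ⟨fun _ => 0, fun _ => le_rfl, by simp, fun ε hε => Eventually.of_forall fun n a _ D _ =>
      ⟨fun _ _ => 0, Slab.MixA.zero D _ _, fun x y _ _ => ?_⟩⟩
    rw [sub_zero]
    refine hCR _ (norm_nonneg _) ((norm_Fz_le m n _ x y a).trans ?_) ε hε
    have h1 : (1 : ℝ) ≤ Real.exp (14 * c) * Real.exp (-(c * A)) := by
      rw [← Real.exp_add]
      exact Real.one_le_exp (by nlinarith)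
    have h2 : 0 ≤ (Real.sqrt (12 * B) + 8) * θ ^ (-(5 / 8) : ℝ) * Real.exp (-(c * A)) := by positivity
    rw [hC, add_mul, mul_assoc 3]
    linarith
  push Not at hA5
  set h : ℝ := S.yt (.inl r) - S.yb (.inl r) with hh
  have hh1 : 1 ≤ h := by
    have := hS.y_lt (.inl r)
    have : ((S.yb (.inl r) + 1 : ℤ) : ℝ) ≤ S.yt (.inl r) := by exact_mod_cast this
    push_cast at this
    linarith
  obtain ⟨CN, hCN0, hCN⟩ := hN S hS m hm A hA1 hCh r (min κ 1 / 8) (by positivity) (1 / 60) (by norm_num)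
  refine ⟨fun n => Real.sqrt 3 * (CN * (n : ℝ) ^ (1 / 6 + 1 / 60 : ℝ)), fun n => by positivity, tendsto_K CN, fun ε hε => ?_⟩
  filter_upwards [hCN, hG S hS m hm A hA1 hCh r, eventually_ge_atTop 18, eventually_gt_atTop ⌈1 / κ⌉₊]
    with n hn1 hn2 hn3 hn4 a ha D hD
  have hnR : (18 : ℝ) ≤ n := by exact_mod_cast hn3
  have hκn : 1 < κ * n := by
    have h1 : 1 / κ < n := (Nat.le_ceil _).trans_lt (by exact_mod_cast hn4)
    rw [div_lt_iff₀ hκ] at h1
    linarith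
  set a' : ℤ := ⌊(n : ℝ) * (A * h) - n / 2 - 1⌋ with ha'
  set k : ℤ := a' / 4 - 1 with hk
  have f1 : (a' : ℝ) ≤ (n : ℝ) * (A * h) - n / 2 - 1 := Int.floor_le _
  have f2 : (n : ℝ) * (A * h) - n / 2 - 1 - 1 < a' := Int.sub_one_lt_floor _
  have hnh : (n : ℝ) ≤ n * h := by nlinarith
  have hAh : 14 * (n * h) ≤ (n : ℝ) * (A * h) := by
    have h0 : 0 ≤ (n : ℝ) * h := by positivity
    have h1 := mul_le_mul_of_nonneg_right hA5 h0
    have h2 : A * (n * h) = (n : ℝ) * (A * h) := by ring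
    linarith
  have htb : ((D.t - D.b : ℤ) : ℝ) = n * h := by
    rw [hD.t, hD.b, hh]; unfold Shape.ft Shape.fb; push_cast; ring
  have g1 : 12 * (n * h) + 8 ≤ (a' : ℝ) := by linarith
  have g1' : 12 * (D.t - D.b) + 8 ≤ a' := by
    have : ((12 * (D.t - D.b) + 8 : ℤ) : ℝ) ≤ a' := by push_cast at htb ⊢; rw [htb]; exact g1
    exact_mod_cast this
  have g2 : (n : ℤ) ≤ D.t - D.b := by
    have : ((n : ℤ) : ℝ) ≤ ((D.t - D.b : ℤ) : ℝ) := by rw [htb]; exact_mod_cast hnh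
    exact_mod_cast this
  have g3 : 3 * (D.t - D.b) + 1 ≤ k := by omega
  have g4 : 4 * k + 4 ≤ a' := by omega
  have g5 : a' ≤ 4 * k + 7 := by omega
  obtain ⟨W, nL, nU, s, hW⟩ := hn2 a ha D hD a' (by omega) (by rw [hh] at f1; linarith)
  set E : Fin 3 → Half ZT := fun i => m.ez n a.σ (.inl r) (i + s).castSucc with hE
  have hRdy : ∀ x y : ℤ, D.l + a' ≤ x → x ≤ D.r - a' → D.b < y → y < D.t → D.Rdy W a' nL nU k E x y :=
    hW k (by omega) g3 g4
  -- the number of blocks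
  set A' : ℕ := (k / (D.t - D.b)).toNat with hA'
  have hA'1 : (A' : ℤ) * (D.t - D.b) ≤ k := by
    have h0 : 0 ≤ k / (D.t - D.b) := Int.ediv_nonneg (by omega) (by omega)
    rw [hA', Int.toNat_of_nonneg h0]
    exact Int.ediv_mul_le _ (by omega)
  have hA'2 : A / 4 - 5 / 4 ≤ (A' : ℝ) := by
    have h0 : 0 ≤ k / (D.t - D.b) := Int.ediv_nonneg (by omega) (by omega)
    have h1 : k < (A' + 1) * (D.t - D.b) := by
      have := Int.lt_ediv_add_one_mul_self k (show 0 < D.t - D.b by omega)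
      rw [hA', Int.toNat_of_nonneg h0]
      exact this
    have h2 : (k : ℝ) < (A' + 1) * (n * h) := by
      have : ((k : ℤ) : ℝ) < (((A' + 1) * (D.t - D.b) : ℤ) : ℝ) := by exact_mod_cast h1
      push_cast at this htb
      rw [htb] at this
      exact this
    have h3 : (a' : ℝ) ≤ 4 * k + 7 := by exact_mod_cast g5
    have h4 : (0 : ℝ) < n * h := by linarith
    have h5 : (n : ℝ) * (A * h) - n / 2 - 9 < 4 * ((A' + 1) * (n * h)) := by linarith
    have h6 : (A - 1) * (n * h) ≤ (n : ℝ) * (A * h) - n / 2 - 9 := by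
      have e : (A - 1) * (n * h) = (n : ℝ) * (A * h) - n * h := by ring
      rw [e]
      linarith
    have h7 : (A - 1) * (n * h) < (4 * (A' + 1)) * (n * h) := by linarith
    have h8 := lt_of_mul_lt_mul_right h7 h4.le
    linarith
  have hs : ∀ v : S.Q × Bool, (0 : ℝ) ≤ (a.s v : ℝ) ∧ 4 * (a.s v : ℝ) ≤ n := by
    intro v
    refine ⟨by positivity, ?_⟩
    have : (a.1 v : ℕ) < n / 4 := (a.1 v).2
    have h2 : 4 * a.s v ≤ n := by
      show 4 * (a.1 v : ℕ) ≤ n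
      omega
    exact_mod_cast h2
  obtain ⟨s1, s2⟩ := hs (.inl r, false)
  obtain ⟨s3, s4⟩ := hs (.inl r, true)
  have e1 : (D.l : ℝ) = n * S.xl (.inl r) + a.s (.inl r, false) := by
    rw [hD.l]; unfold Shape.fl; push_cast; ring
  have e2 : (D.r : ℝ) = n * S.xr (.inl r) + a.s (.inl r, true) := by
    rw [hD.r]; unfold Shape.fr; push_cast; ring
  have e3 : (D.b : ℝ) = n * S.yb (.inl r) := by
    rw [hD.b]; unfold Shape.fb; push_cast; ring
  have e4 : (D.t : ℝ) = n * S.yt (.inl r) := by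
    rw [hD.t]; unfold Shape.ft; push_cast; ring
  -- the middle part
  have hmid : ∀ x y : ℤ, (n * (S.xl (.inl r) + A * (S.yt (.inl r) - S.yb (.inl r))) - 1 ≤ (x : ℝ) ∧
      (x : ℝ) ≤ n * (S.xr (.inl r) - A * (S.yt (.inl r) - S.yb (.inl r)))) →
      (n * (S.yb (.inl r) + κ) ≤ (y : ℝ) ∧ (y : ℝ) ≤ n * (S.yt (.inl r) - κ) + 1) →
      D.Rdy W a' nL nU k E x y := by
    rintro x y ⟨hx1, hx2⟩ ⟨hy1, hy2⟩
    rw [← hh] at hx1 hx2
    refine hRdy x y ?_ ?_ ?_ ?_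
    · have : ((D.l + a' : ℤ) : ℝ) ≤ x := by push_cast; rw [e1]; linarith
      exact_mod_cast this
    · have : ((x : ℤ) : ℝ) ≤ ((D.r - a' : ℤ) : ℝ) := by push_cast; rw [e2]; linarith
      exact_mod_cast this
    · have : ((D.b : ℤ) : ℝ) < y := by rw [e3]; linarith
      exact_mod_cast this
    · have : ((y : ℤ) : ℝ) < D.t := by rw [e4]; linarith
      exact_mod_cast this
  by_cases hne : ∃ x y : ℤ, (n * (S.xl (.inl r) + A * (S.yt (.inl r) - S.yb (.inl r))) - 1 ≤ (x : ℝ) ∧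
      (x : ℝ) ≤ n * (S.xr (.inl r) - A * (S.yt (.inl r) - S.yb (.inl r)))) ∧
      (n * (S.yb (.inl r) + κ) ≤ (y : ℝ) ∧ (y : ℝ) ≤ n * (S.yt (.inl r) - κ) + 1)
  swap
  · refine ⟨fun _ _ => 0, Slab.MixA.zero D _ _, fun x y hx hy => absurd ⟨x, y, hx, hy⟩ hne⟩
  obtain ⟨x0, y0, hxy, hxy'⟩ := hne
  have hR0 := hmid x0 y0 hxy hxy'
  have hAmp := Slab.amp_E (D := D) (W := W) (a := a') (nL := nL) (nU := nU) (k := k) (E := E)
    (M := min κ 1 / 8 * n) (K := CN * (n : ℝ) ^ (1 / 6 + 1 / 60 : ℝ))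
    (fun p q hp hq hp' hq' => hn1 a D hD W a' nL nU k s x0 y0 hR0 (by omega) p q hp hq hp' hq')
  refine ⟨_, ⟨Unit, {()}, Complex.exp (2 * Real.pi * Complex.I / 3) ^ (s : ℕ),
    fun _ => Complex.exp (2 * Real.pi * Complex.I / 3) ^ (s : ℕ), fun _ => _, ?_, fun _ _ => hAmp, fun x y _ _ _ _ => rfl⟩, ?_⟩
  · rw [Finset.sum_singleton, norm_tau_pow]
  intro x y hx hy
  have hR1 := hmid x y hx hy
  have hzT : D.T y = S.zT n a.s (.inl r) y := by
    unfold Slab.T Slab.TL Slab.TU Shape.zT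
    rw [hD.L, hD.U, hD.l, hD.r, hD.b, hD.t]
  have hzg : D.go x y = S.zg n a.s (.inl r) x y := by
    unfold Slab.go Shape.zg
    rw [hzT, hD.l, hD.r]
  have hzz : Slab.z x y = Shape.zz x y := rfl
  have hrange : Set.range E = Set.range fun j : Fin 3 => m.ez n a.σ (.inl r) j.castSucc := by
    ext u
    constructor
    · rintro ⟨i, rfl⟩
      exact ⟨i + s, rfl⟩
    · rintro ⟨i, rfl⟩
      exact ⟨i - s, by simp only [hE, sub_add_cancel]⟩
  have hex : ∃ w, Shape.IsWz m n (.inl r) x y a w := by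
    obtain ⟨w, hw⟩ := hR1.wall
    refine ⟨w, ?_⟩
    unfold Shape.IsWz
    rw [hzT, hzg, hzz, hrange] at hw
    exact hw
  unfold Shape.Fz
  rw [dif_pos hex]
  have hw0 : Shape.IsWz m n (.inl r) x y a hex.choose := hex.choose_spec
  generalize hex.choose = w at hw0 ⊢
  have hw : IsW (D.T y) (D.go x y) ({Slab.z x y} ∪ Set.range E) w := by
    rw [hzT, hzg, hzz, hrange]
    exact hw0
  have hB2 : Full.Perc.Ex (D.T y) (fun ω => ‖D.ampE W a' nL nU k E x y ω‖ ^ 2) ≤ B :=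
    (hB D W a' nL nU k E x y hR1).trans (le_max_left _ _)
  have key := Slab.obs_sub_le hA hB2 hR1 hA'1 hw
  rw [Slab.CEx_ampE hR1] at key
  have key2 := key.trans (err_le hB1 hθ0 hθ1 thB_nonneg hθt hA'2)
  rw [obs_rot _ _ _ _ s, ← hzT, ← hzz]
  simp only [Finset.sum_singleton]
  have e5 : Complex.exp (2 * Real.pi * Complex.I / 3) ^ (s : ℕ) * obs (D.T y) w (Slab.z x y) E -
      (Complex.exp (2 * Real.pi * Complex.I / 3) ^ (s : ℕ) + Complex.exp (2 * Real.pi * Complex.I / 3) ^ (s : ℕ) *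
        ((Slab.cE W E)⁻¹ * (sixFD (D.n + 1) (Slab.dE W a' k E) (D.OE W a' k E) (D.IE W a' k E) (x - D.l).toNat
          (D.t - 1 - y).toNat (y - 1 - D.b).toNat / ((Real.sqrt 3 : ℝ) : ℂ) ^ Slab.na nL nU))) =
      Complex.exp (2 * Real.pi * Complex.I / 3) ^ (s : ℕ) * (obs (D.T y) w (Slab.z x y) E - (1 + (Slab.cE W E)⁻¹ *
        (sixFD (D.n + 1) (Slab.dE W a' k E) (D.OE W a' k E) (D.IE W a' k E) (x - D.l).toNat
          (D.t - 1 - y).toNat (y - 1 - D.b).toNat / ((Real.sqrt 3 : ℝ) : ℂ) ^ Slab.na nL nU))) := by ring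
  refine hCR _ (norm_nonneg _) ?_ ε hε
  rw [e5, norm_mul, norm_tau_pow, one_mul]
  refine key2.trans ?_
  rw [hC, hc]
  have h2 : 0 ≤ 3 * Real.exp (14 * (-(Real.log θ) / 8)) * Real.exp (-(-(Real.log θ) / 8 * A)) := by positivity
  rw [add_mul]
  linarith

end Full
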