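import Pool.Agent.Full.Asm.Engine
import Pool.Agent.Full.SixV.Input

/-!
# FULL, assembly: amplitudes of the six vertex rows
-/

set_option autoImplicit false

namespace Full

open Complex Set Filter Topology Metric Matrix Eng SixV

open scoped Matrix.Norms.L2Operator

/-- the two-line bound for the six vertex rows -/
lemma SixV.line_bound (N : ℕ) (u : ℂ) (hu : |u.re - Real.pi / 6| = Real.pi / 6) :
    ‖Wm N false * Tlow N u - Tup N u * Wm N false‖ ≤ 6 * min 1 (Real.exp (-u.im)) := by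
  have hmin : 6 * Real.exp (-(max u.im 0)) ≤ 6 * min 1 (Real.exp (-u.im)) := by
    refine mul_le_mul_of_nonneg_left ?_ (by norm_num)
    refine le_min ?_ ?_
    · rw [Real.exp_le_one_iff]
      have := le_max_right u.im 0
      linarith
    · rw [Real.exp_le_exp]
      have := le_max_left u.im 0
      linarith
  refine le_trans ?_ hmin
  rcases abs_eq (by have := Real.pi_pos; positivity) |>.mp hu with h | h
  · have e : u = lam + u.im * Complex.I := by
      apply Complex.ext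
      · simp [lam_re]
        linarith
      · simp [lam_im]
    have := norm_G_right N u.im
    rw [← e] at this
    exact this
  · have e : u = u.im * Complex.I := by
      apply Complex.ext
      · simp
        linarith
      · simp
    have := norm_G_left N u.im
    rw [← e] at this
    exact this

/-- the observable of the six vertex rows: `z` in column `x`, `a` rows above, `b` rows below; `O` (upper environment)
on `N` columns, `Iv` (lower environment) on `N + 1` columns -/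
noncomputable def sixF (N : ℕ) (O : Cfg N → ℂ) (Iv : Cfg (N + 1) → ℂ) (x a b : ℕ) : ℂ :=
  O ⬝ᵥ (Tup N ((Real.pi / 6 : ℝ) : ℂ) ^ a * Wx (Tup N) (Tlow N) (Wm N false) x * Tlow N ((Real.pi / 6 : ℝ) : ℂ) ^ b) *ᵥ Iv

/-- on `S` the function `A` is an amplitude of the six vertex rows, with at least `κ/δ` rows above and below; `K` bounds the
product of the norms of the two environments after at least `κ/(4δ)` rows -/
def SixAmp (κ K δ : ℝ) (S : Set ℂ) (A : ℂ → ℂ) : Prop :=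
  ∃ (N : ℕ) (O : Cfg N → ℂ) (Iv : Cfg (N + 1) → ℂ) (x₀ y₀ : ℝ) (top bot : ℕ), κ ≤ N * δ ∧
    (∀ p q : ℕ, κ / 4 ≤ p * δ → κ / 4 ≤ q * δ → p ≤ top → q ≤ top + bot →
      ‖WithLp.toLp 2 (O ᵥ* Tup N ((Real.pi / 6 : ℝ) : ℂ) ^ p)‖ *
        ‖WithLp.toLp 2 (Tlow N ((Real.pi / 6 : ℝ) : ℂ) ^ q *ᵥ Iv)‖ ≤ K) ∧
    ∀ z ∈ S, x₀ ≤ z.re ∧ y₀ ≤ z.im ∧ ⌊(z.im - y₀) / δ⌋₊ ≤ top ∧ κ ≤ (top - ⌊(z.im - y₀) / δ⌋₊ : ℝ) * δ ∧
      κ ≤ (bot + ⌊(z.im - y₀) / δ⌋₊ : ℝ) * δ ∧
      A z = sixF N O Iv ⌊(z.re - x₀) / δ⌋₊ (top - ⌊(z.im - y₀) / δ⌋₊) (bot + ⌊(z.im - y₀) / δ⌋₊)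

/-- the norm of a row -/
lemma norm_row {J : Type*} [Fintype J] [DecidableEq J] (v : J → ℂ) :
    ‖(Matrix.of fun _ : Unit => v : Matrix Unit J ℂ)‖ ≤ ‖WithLp.toLp 2 v‖ := by
  rw [← nr_eq_norm]
  refine Bd.norm_le ?_ (nr_nonneg v)
  intro α β
  have h1 : Bf (fun i j => (Matrix.of fun _ : Unit => v : Matrix Unit J ℂ) i j) α β = α () * ∑ l, v l * β l := by
    unfold Bf
    simp only [Finset.univ_unique, Finset.sum_singleton, Matrix.of_apply, PUnit.default_eq_unit]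
    rw [Finset.mul_sum]
    exact Finset.sum_congr rfl fun _ _ => by ring
  have h2 : nr α = ‖α ()‖ := by
    unfold nr
    simp [Real.sqrt_sq (norm_nonneg _)]
  rw [h1, norm_mul, h2]
  have := norm_sum_mul_le v β
  calc ‖α ()‖ * ‖∑ l, v l * β l‖ ≤ ‖α ()‖ * (nr v * nr β) := by gcongr
    _ = nr v * ‖α ()‖ * nr β := by ring

/-- the norm of a column -/
lemma norm_col {J : Type*} [Fintype J] [DecidableEq J] (v : J → ℂ) :
    ‖(Matrix.of fun i (_ : Unit) => v i : Matrix J Unit ℂ)‖ ≤ ‖WithLp.toLp 2 v‖ := by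
  rw [← nr_eq_norm]
  refine Bd.norm_le ?_ (nr_nonneg v)
  intro α β
  have h1 : Bf (fun i j => (Matrix.of fun i (_ : Unit) => v i : Matrix J Unit ℂ) i j) α β = (∑ l, α l * v l) * β () := by
    unfold Bf
    simp only [Finset.univ_unique, Finset.sum_singleton, Matrix.of_apply, PUnit.default_eq_unit]
    rw [Finset.sum_mul]
  have h2 : nr β = ‖β ()‖ := by
    unfold nr
    simp [Real.sqrt_sq (norm_nonneg _)]
  rw [h1, norm_mul, h2]
  have := norm_sum_mul_le α v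
  calc ‖∑ l, α l * v l‖ * ‖β ()‖ ≤ (nr α * nr v) * ‖β ()‖ := by gcongr
    _ = nr v * nr α * ‖β ()‖ := by ring

lemma row_mul_col {J L : Type*} [Fintype J] [Fintype L] (O : J → ℂ) (M : Matrix J L ℂ) (Iv : L → ℂ) :
    ((Matrix.of fun _ : Unit => O : Matrix Unit J ℂ) * M * (Matrix.of fun i (_ : Unit) => Iv i : Matrix L Unit ℂ)) () () =
      O ⬝ᵥ M *ᵥ Iv := by
  rw [Matrix.mul_assoc]
  rfl

/-- six vertex amplitudes are engine amplitudes -/
theorem SixAmp.eng {κ K δ : ℝ} {S : Set ℂ} {A : ℂ → ℂ} (h : SixAmp κ K δ S A) : EngAmp 6 κ K δ S A := by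
  obtain ⟨N, O, Iv, x₀, y₀, top, bot, hN, hK, hA⟩ := h
  refine ⟨Cfg N, Cfg (N + 1), inferInstance, inferInstance, inferInstance, inferInstance, N, Tup N, Tlow N, Wm N false,
    Matrix.of fun _ => O, Matrix.of fun i _ => Iv i, x₀, y₀, top, bot, row_Tup N, row_Tlow N,
    (norm_Wm_le N false).trans (by norm_num), SixV.line_bound N, hN, ?_, ?_⟩
  · intro p q h1 h2 h3 h4
    refine le_trans ?_ (hK p q h1 h2 h3 h4)
    have e1 : (Matrix.of fun _ : Unit => O : Matrix Unit (Cfg N) ℂ) * Tup N ((Real.pi / 6 : ℝ) : ℂ) ^ p =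
        Matrix.of fun _ : Unit => O ᵥ* Tup N ((Real.pi / 6 : ℝ) : ℂ) ^ p := by
      ext i j; rfl
    have e2 : Tlow N ((Real.pi / 6 : ℝ) : ℂ) ^ q * (Matrix.of fun i (_ : Unit) => Iv i : Matrix (Cfg (N + 1)) Unit ℂ) =
        Matrix.of fun i (_ : Unit) => (Tlow N ((Real.pi / 6 : ℝ) : ℂ) ^ q *ᵥ Iv) i := by
      ext i j; rfl
    rw [e1, e2]
    exact mul_le_mul (norm_row _) (norm_col _) (norm_nonneg _) (norm_nonneg _)
  · intro z hz
    obtain ⟨a1, a2, a3, a4, a5, a6⟩ := hA z hz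
    refine ⟨a1, a2, a3, a4, a5, ?_⟩
    rw [a6]
    unfold sixF Fo
    rw [← row_mul_col]
    simp only [Matrix.mul_assoc]

end Full
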