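import Pool.Agent.Full.End.MoreraSlab

/-!
# FULL, assembly: discrete Cauchy-Riemann on slabs implies holomorphy

`F i → G`, `F` asymptotically equicontinuous.  Every rectangle is cut into finitely many horizontal slabs; on the `k`-th
slab `F i` is within `p k` of a function `H` (which may depend on `i` and `k`) with small discrete Cauchy-Riemann
defect; the sum of the `p k` is small.  Then `G` is holomorphic.
-/

set_option autoImplicit false

namespace Full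

open Complex Set Filter Topology Metric MeasureTheory intervalIntegral
open scoped Interval

/-- the contour integral of a limit of functions which are close to functions with small discrete
Cauchy-Riemann defect -/
theorem bint_approx {ι : Type*} {l : Filter ι} [l.NeBot] {F : ι → ℂ → ℂ} {δ : ι → ℝ} (hδ0 : ∀ᶠ i in l, 0 < δ i)
    (hδ : Tendsto δ l (𝓝 0)) {G : ℂ → ℂ} {a b c d : ℝ} (hab : a ≤ b) (hcd : c ≤ d)
    (heq : AEC l ([[a, b]] ×ℂ [[c, d]]) F) (hG : ∀ z ∈ [[a, b]] ×ℂ [[c, d]], Tendsto (fun i => F i z) l (𝓝 (G z)))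
    (hGR : ContinuousOn G ([[a, b]] ×ℂ [[c, d]])) {p : ℝ} (hp : 0 ≤ p)
    (h : ∀ ε > 0, ∃ᶠ i in l, ∃ H : ℂ → ℂ, (∀ z ∈ [[a, b]] ×ℂ [[c, d]], ‖F i z - H z‖ ≤ p) ∧
      ∀ z ∈ [[a, b]] ×ℂ [[c, d]], z + δ i ∈ [[a, b]] ×ℂ [[c, d]] → z + δ i * I ∈ [[a, b]] ×ℂ [[c, d]] →
        ‖H (z + δ i * I) - H z - I * (H (z + δ i) - H z)‖ ≤ ε * δ i) :
    ‖bint G a b c d‖ ≤ 2 * p * ((b - a) + (d - c)) := by
  have hK : IsCompact ([[a, b]] ×ℂ [[c, d]]) := isCompact_uIcc.reProdIm isCompact_uIcc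
  obtain ⟨C, hC⟩ := hK.exists_bound_of_continuousOn hGR
  set L := (b - a) + (d - c) with hL
  have hL0 : 0 ≤ L := by linarith
  refine le_of_forall_pos_le_add fun η hη => ?_
  have hC0 : 0 ≤ C := (norm_nonneg _).trans (hC _ (mem_rect left_mem_uIcc left_mem_uIcc))
  -- parameters
  set ε := η / (8 * (L + 1)) with hε
  have hε0 : 0 < ε := by positivity
  have hunif := unif_of_AEC hK heq (fun z hz => hG z hz) hGR (ε := ε / 2) (by positivity)
  obtain ⟨δ', hδ', h'⟩ : ∃ δ' > 0, ∀ z ∈ [[a, b]] ×ℂ [[c, d]], ∀ w ∈ [[a, b]] ×ℂ [[c, d]], dist z w < δ' →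
      dist (G z) (G w) < ε / 2 := by
    have := hK.uniformContinuousOn_of_continuous hGR
    rw [Metric.uniformContinuousOn_iff] at this
    obtain ⟨δ', hδ', h'⟩ := this (ε / 2) (by positivity)
    exact ⟨δ', hδ', fun z hz w hw hzw => h' z hz w hw hzw⟩
  have hsmall : ∀ᶠ i in l, δ i < min δ' (η / (16 * (C + 1))) := by
    have : 0 < min δ' (η / (16 * (C + 1))) := by positivity
    exact hδ.eventually (gt_mem_nhds this)
  have hdd := h (η / (4 * (L + 1) ^ 2)) (by positivity)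
  obtain ⟨i, ⟨H, hH1, h4⟩, h1, h2, h3⟩ := (hdd.and_eventually (hδ0.and (hunif.and hsmall))).exists
  set t := δ i with ht
  have ht1 : t < δ' := h3.trans_le (min_le_left _ _)
  have ht2 : t < η / (16 * (C + 1)) := h3.trans_le (min_le_right _ _)
  set M := ⌊(b - a) / t⌋₊ with hM
  set M' := ⌊(d - c) / t⌋₊ with hM'
  have hba : 0 ≤ (b - a) / t := div_nonneg (by linarith) h1.le
  have hdc : 0 ≤ (d - c) / t := div_nonneg (by linarith) h1.le
  have m1 : (M : ℝ) * t ≤ b - a := by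
    have := Nat.floor_le hba
    rwa [le_div_iff₀ h1] at this
  have m2 : b - a ≤ ((M : ℝ) + 1) * t := by
    have := (Nat.lt_floor_add_one ((b - a) / t)).le
    rwa [div_le_iff₀ h1] at this
  have m3 : (M' : ℝ) * t ≤ d - c := by
    have := Nat.floor_le hdc
    rwa [le_div_iff₀ h1] at this
  have m4 : d - c ≤ ((M' : ℝ) + 1) * t := by
    have := (Nat.lt_floor_add_one ((d - c) / t)).le
    rwa [div_le_iff₀ h1] at this
  have inx : ∀ j : ℕ, j ≤ M → a + j * t ∈ [[a, b]] := by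
    intro j hj
    have h5 : (j : ℝ) * t ≤ M * t := by
      have : (j : ℝ) ≤ M := by exact_mod_cast hj
      gcongr
    rw [uIcc_of_le hab]
    constructor
    · have : 0 ≤ (j : ℝ) * t := by positivity
      linarith
    · linarith
  have iny : ∀ k : ℕ, k ≤ M' → c + k * t ∈ [[c, d]] := by
    intro j hj
    have h5 : (j : ℝ) * t ≤ M' * t := by
      have : (j : ℝ) ≤ M' := by exact_mod_cast hj
      gcongr
    rw [uIcc_of_le hcd]
    constructor
    · have : 0 ≤ (j : ℝ) * t := by positivity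
      linarith
    · linarith
  -- the double sum is small
  have hsum : ‖t * ((∑ j ∈ Finset.range M, H (((a + j * t : ℝ) : ℂ) + ((c + M' * t : ℝ) : ℂ) * I) -
      ∑ j ∈ Finset.range M, H (((a + j * t : ℝ) : ℂ) + (c : ℂ) * I)) -
    I * (∑ k ∈ Finset.range M', H (((a + M * t : ℝ) : ℂ) + ((c + k * t : ℝ) : ℂ) * I) -
      ∑ k ∈ Finset.range M', H ((a : ℂ) + ((c + k * t : ℝ) : ℂ) * I)))‖ ≤ η / 4 := by
    rw [← disc_tele, norm_mul, Complex.norm_real, Real.norm_eq_abs, abs_of_pos h1]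
    have h5 : ‖∑ j ∈ Finset.range M, ∑ k ∈ Finset.range M',
      (H (((a + j * t : ℝ) : ℂ) + ((c + (k + 1 : ℕ) * t : ℝ) : ℂ) * I) -
        H (((a + j * t : ℝ) : ℂ) + ((c + k * t : ℝ) : ℂ) * I) -
        I * (H (((a + (j + 1 : ℕ) * t : ℝ) : ℂ) + ((c + k * t : ℝ) : ℂ) * I) -
          H (((a + j * t : ℝ) : ℂ) + ((c + k * t : ℝ) : ℂ) * I)))‖ ≤
        ∑ j ∈ Finset.range M, ∑ k ∈ Finset.range M', (η / (4 * (L + 1) ^ 2)) * t := by
      refine (norm_sum_le _ _).trans (Finset.sum_le_sum fun j hj => (norm_sum_le _ _).trans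
        (Finset.sum_le_sum fun k hk => ?_))
      rw [Finset.mem_range] at hj hk
      have e1 : ((a + j * t : ℝ) : ℂ) + ((c + (k + 1 : ℕ) * t : ℝ) : ℂ) * I =
          ((a + j * t : ℝ) : ℂ) + ((c + k * t : ℝ) : ℂ) * I + t * I := by push_cast; ring
      have e2 : ((a + (j + 1 : ℕ) * t : ℝ) : ℂ) + ((c + k * t : ℝ) : ℂ) * I =
          ((a + j * t : ℝ) : ℂ) + ((c + k * t : ℝ) : ℂ) * I + t := by push_cast; ring
      have h6 := h4 _ (mem_rect (inx j hj.le) (iny k hk.le))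
        (by rw [← e2]; exact mem_rect (inx (j + 1) hj) (iny k hk.le))
        (by rw [← e1]; exact mem_rect (inx j hj.le) (iny (k + 1) hk))
      rw [e1, e2]
      exact h6
    have h7 : t * (∑ j ∈ Finset.range M, ∑ k ∈ Finset.range M', (η / (4 * (L + 1) ^ 2)) * t) ≤ η / 4 := by
      simp only [Finset.sum_const, Finset.card_range, nsmul_eq_mul]
      have h8 : t * (M * (M' * (η / (4 * (L + 1) ^ 2) * t))) = (M * t) * (M' * t) * (η / (4 * (L + 1) ^ 2)) := by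
        ring
      rw [h8]
      have h9 : (M * t) * (M' * t) ≤ (L + 1) ^ 2 := by
        have q1 : (M : ℝ) * t ≤ L + 1 := by linarith
        have q2 : (M' : ℝ) * t ≤ L + 1 := by linarith
        rw [sq]
        gcongr
      calc (M * t) * (M' * t) * (η / (4 * (L + 1) ^ 2)) ≤ (L + 1) ^ 2 * (η / (4 * (L + 1) ^ 2)) := by gcongr
        _ = η / 4 := by field_simp
    calc t * _ ≤ t * _ := mul_le_mul_of_nonneg_left h5 h1.le
      _ ≤ η / 4 := h7
  -- passage from `H` to `F`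
  have hsx : ∀ y ∈ [[c, d]], ‖t * ∑ j ∈ Finset.range M, F i (((a + j * t : ℝ) : ℂ) + (y : ℂ) * I) -
      t * ∑ j ∈ Finset.range M, H (((a + j * t : ℝ) : ℂ) + (y : ℂ) * I)‖ ≤ p * (b - a) := by
    intro y hy
    rw [← mul_sub, ← Finset.sum_sub_distrib, norm_mul, Complex.norm_real, Real.norm_eq_abs, abs_of_pos h1]
    have h5 : ‖∑ j ∈ Finset.range M, (F i (((a + j * t : ℝ) : ℂ) + (y : ℂ) * I) - H (((a + j * t : ℝ) : ℂ) + (y : ℂ) * I))‖ ≤
        ∑ j ∈ Finset.range M, p := by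
      refine (norm_sum_le _ _).trans (Finset.sum_le_sum fun j hj => ?_)
      rw [Finset.mem_range] at hj
      exact hH1 _ (mem_rect (inx j hj.le) hy)
    rw [Finset.sum_const, Finset.card_range, nsmul_eq_mul] at h5
    calc t * _ ≤ t * (M * p) := mul_le_mul_of_nonneg_left h5 h1.le
      _ = p * (M * t) := by ring
      _ ≤ p * (b - a) := by gcongr
  have hsy : ∀ x ∈ [[a, b]], ‖t * ∑ k ∈ Finset.range M', F i ((x : ℂ) + ((c + k * t : ℝ) : ℂ) * I) -
      t * ∑ k ∈ Finset.range M', H ((x : ℂ) + ((c + k * t : ℝ) : ℂ) * I)‖ ≤ p * (d - c) := by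
    intro x hx
    rw [← mul_sub, ← Finset.sum_sub_distrib, norm_mul, Complex.norm_real, Real.norm_eq_abs, abs_of_pos h1]
    have h5 : ‖∑ k ∈ Finset.range M', (F i ((x : ℂ) + ((c + k * t : ℝ) : ℂ) * I) - H ((x : ℂ) + ((c + k * t : ℝ) : ℂ) * I))‖ ≤
        ∑ k ∈ Finset.range M', p := by
      refine (norm_sum_le _ _).trans (Finset.sum_le_sum fun k hk => ?_)
      rw [Finset.mem_range] at hk
      exact hH1 _ (mem_rect hx (iny k hk.le))
    rw [Finset.sum_const, Finset.card_range, nsmul_eq_mul] at h5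
    calc t * _ ≤ t * (M' * p) := mul_le_mul_of_nonneg_left h5 h1.le
      _ = p * (M' * t) := by ring
      _ ≤ p * (d - c) := by gcongr
  -- the four sides
  have hω : ∀ z ∈ [[a, b]] ×ℂ [[c, d]], ∀ w ∈ [[a, b]] ×ℂ [[c, d]], dist z w ≤ t → ‖G z - G w‖ ≤ ε / 2 := by
    intro z hz w hw hzw
    rw [← dist_eq_norm]
    exact (h' z hz w hw (hzw.trans_lt ht1)).le
  have bd : ∀ z ∈ [[a, b]] ×ℂ [[c, d]], ∀ w ∈ [[a, b]] ×ℂ [[c, d]], dist z w ≤ t → ‖F i z - G w‖ ≤ ε := by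
    intro z hz w hw hzw
    have q1 := h2 z hz
    have q2 := hω z hz w hw hzw
    calc ‖F i z - G w‖ = ‖(F i z - G z) + (G z - G w)‖ := by congr 1; ring
      _ ≤ ε / 2 + ε / 2 := (norm_add_le _ _).trans (add_le_add q1 q2)
      _ = ε := by ring
  have icc1 : Icc a b = [[a, b]] := (uIcc_of_le hab).symm
  have icc2 : Icc c d = [[c, d]] := (uIcc_of_le hcd).symm
  have dx : ∀ x x' : ℝ, ∀ y : ℝ, dist ((x : ℂ) + y * I) ((x' : ℂ) + y * I) = |x - x'| := by
    intro x x' y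
    rw [dist_eq_norm, add_sub_add_right_eq_sub, ← ofReal_sub, Complex.norm_real, Real.norm_eq_abs]
  have dy : ∀ x : ℝ, ∀ y y' : ℝ, dist ((x : ℂ) + y * I) ((x : ℂ) + y' * I) = |y - y'| := by
    intro x y y'
    rw [dist_eq_norm, add_sub_add_left_eq_sub, ← sub_mul, ← ofReal_sub, norm_mul, norm_I, mul_one,
      Complex.norm_real, Real.norm_eq_abs]
  have hor : ∀ y ∈ [[c, d]], ∀ y' ∈ [[c, d]], |y' - y| ≤ t →
      ‖t * ∑ j ∈ Finset.range M, F i (((a + j * t : ℝ) : ℂ) + (y' : ℂ) * I) - ∫ x in a..b, G (x + y * I)‖ ≤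
        (b - a) * (ε + ε / 2) + C * t := by
    intro y hy y' hy' hyy
    refine row_sum (g := fun x => G (x + y * I)) (φ := fun x => F i (x + y' * I)) h1 hε0.le
      (by linarith) (by linarith) ?_ ?_ ?_ ?_
    · rw [icc1]; exact hor_cont hGR hy
    · intro x hx x' hx' hxx
      rw [icc1] at hx hx'
      exact hω _ (mem_rect hx hy) _ (mem_rect hx' hy) (by rw [dx]; exact hxx)
    · intro x hx
      rw [icc1] at hx
      exact hC _ (mem_rect hx hy)
    · intro j hj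
      exact bd _ (mem_rect (inx j hj.le) hy') _ (mem_rect (inx j hj.le) hy) (by rw [dy]; exact hyy)
  have ver : ∀ x ∈ [[a, b]], ∀ x' ∈ [[a, b]], |x' - x| ≤ t →
      ‖t * ∑ k ∈ Finset.range M', F i ((x' : ℂ) + ((c + k * t : ℝ) : ℂ) * I) - ∫ y in c..d, G (x + y * I)‖ ≤
        (d - c) * (ε + ε / 2) + C * t := by
    intro x hx x' hx' hxx
    refine row_sum (g := fun y => G (x + y * I)) (φ := fun y => F i (x' + y * I)) h1 hε0.le
      (by linarith) (by linarith) ?_ ?_ ?_ ?_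
    · rw [icc2]; exact ver_cont hGR hx
    · intro y hy y' hy' hyy
      rw [icc2] at hy hy'
      exact hω _ (mem_rect hx hy) _ (mem_rect hx hy') (by rw [dy]; exact hyy)
    · intro y hy
      rw [icc2] at hy
      exact hC _ (mem_rect hx hy)
    · intro j hj
      exact bd _ (mem_rect hx' (iny j hj.le)) _ (mem_rect hx (iny j hj.le)) (by rw [dx]; exact hxx)
  have q1 := hor c left_mem_uIcc c left_mem_uIcc (by simpa using h1.le)
  have q2 := hor d right_mem_uIcc (c + M' * t) (iny M' le_rfl) (by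
    rw [abs_sub_comm, abs_of_nonneg (by linarith)]; linarith)
  have q3 := ver b right_mem_uIcc (a + M * t) (inx M le_rfl) (by
    rw [abs_sub_comm, abs_of_nonneg (by linarith)]; linarith)
  have q4 := ver a left_mem_uIcc a left_mem_uIcc (by simpa using h1.le)
  have r1 := hsx c left_mem_uIcc
  have r2 := hsx (c + M' * t) (iny M' le_rfl)
  have r3 := hsy (a + M * t) (inx M le_rfl)
  have r4 := hsy a left_mem_uIcc
  set S1 := ∑ j ∈ Finset.range M, F i (((a + j * t : ℝ) : ℂ) + (c : ℂ) * I)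
  set S2 := ∑ j ∈ Finset.range M, F i (((a + j * t : ℝ) : ℂ) + ((c + M' * t : ℝ) : ℂ) * I)
  set S3 := ∑ k ∈ Finset.range M', F i (((a + M * t : ℝ) : ℂ) + ((c + k * t : ℝ) : ℂ) * I)
  set S4 := ∑ k ∈ Finset.range M', F i ((a : ℂ) + ((c + k * t : ℝ) : ℂ) * I)
  set R1 := ∑ j ∈ Finset.range M, H (((a + j * t : ℝ) : ℂ) + (c : ℂ) * I)
  set R2 := ∑ j ∈ Finset.range M, H (((a + j * t : ℝ) : ℂ) + ((c + M' * t : ℝ) : ℂ) * I)
  set R3 := ∑ k ∈ Finset.range M', H (((a + M * t : ℝ) : ℂ) + ((c + k * t : ℝ) : ℂ) * I)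
  set R4 := ∑ k ∈ Finset.range M', H ((a : ℂ) + ((c + k * t : ℝ) : ℂ) * I)
  have e : bint G a b c d = -(t * ((R2 - R1) - I * (R3 - R4))) - (t * S1 - ∫ x in a..b, G (x + c * I)) +
      (t * S2 - ∫ x in a..b, G (x + d * I)) - I * (t * S3 - ∫ y in c..d, G (b + y * I)) +
      I * (t * S4 - ∫ y in c..d, G (a + y * I)) + ((t * S1 - t * R1) - (t * S2 - t * R2) + I * (t * S3 - t * R3)
        - I * (t * S4 - t * R4)) := by
    rw [bint]; ring
  rw [e]
  have n1 : ∀ x y z u v : ℂ, ‖-x - y + z - I * u + I * v‖ ≤ ‖x‖ + ‖y‖ + ‖z‖ + ‖u‖ + ‖v‖ := by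
    intro x y z u v
    calc ‖-x - y + z - I * u + I * v‖ ≤ ‖-x - y + z - I * u‖ + ‖I * v‖ := norm_add_le _ _
      _ ≤ ‖-x - y + z‖ + ‖I * u‖ + ‖I * v‖ := by gcongr; exact norm_sub_le _ _
      _ ≤ ‖-x - y‖ + ‖z‖ + ‖I * u‖ + ‖I * v‖ := by gcongr; exact norm_add_le _ _
      _ ≤ ‖-x‖ + ‖y‖ + ‖z‖ + ‖I * u‖ + ‖I * v‖ := by gcongr; exact norm_sub_le _ _
      _ = _ := by rw [norm_neg, norm_mul, norm_mul, norm_I, one_mul, one_mul]
  have n2 : ∀ y z u v : ℂ, ‖y - z + I * u - I * v‖ ≤ ‖y‖ + ‖z‖ + ‖u‖ + ‖v‖ := by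
    intro y z u v
    calc ‖y - z + I * u - I * v‖ ≤ ‖y - z + I * u‖ + ‖I * v‖ := norm_sub_le _ _
      _ ≤ ‖y - z‖ + ‖I * u‖ + ‖I * v‖ := by gcongr; exact norm_add_le _ _
      _ ≤ ‖y‖ + ‖z‖ + ‖I * u‖ + ‖I * v‖ := by gcongr; exact norm_sub_le _ _
      _ = _ := by rw [norm_mul, norm_mul, norm_I, one_mul, one_mul]
  refine ((norm_add_le _ _).trans (add_le_add (n1 _ _ _ _ _) (n2 _ _ _ _))).trans ?_
  have hCt : C * t ≤ η / 16 := by
    have : (C + 1) * t ≤ η / 16 := by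
      rw [lt_div_iff₀ (by positivity)] at ht2
      linarith
    nlinarith
  have hεL : 2 * (L * (ε + ε / 2)) ≤ 3 * η / 8 := by
    rw [hε]
    have : L / (L + 1) ≤ 1 := (div_le_one (by positivity)).2 (by linarith)
    calc 2 * (L * (η / (8 * (L + 1)) + η / (8 * (L + 1)) / 2)) = 3 * η / 8 * (L / (L + 1)) := by
          field_simp; ring
      _ ≤ 3 * η / 8 * 1 := by gcongr
      _ = 3 * η / 8 := by ring
  have hLL : L * (ε + ε / 2) = (b - a) * (ε + ε / 2) + (d - c) * (ε + ε / 2) := by rw [hL]; ring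
  have hpL : 2 * p * L = 2 * (p * (b - a)) + 2 * (p * (d - c)) := by rw [hL]; ring
  linarith

/-- **Discrete Cauchy-Riemann on slabs.** -/
theorem holo_of_discrete_slabs {ι : Type*} {l : Filter ι} [l.NeBot] {U : Set ℂ} (hU : IsOpen U) {F : ι → ℂ → ℂ}
    {δ : ι → ℝ} (hδ0 : ∀ᶠ i in l, 0 < δ i) (hδ : Tendsto δ l (𝓝 0))
    (heq : ∀ K ⊆ U, IsCompact K → AEC l K F) {G : ℂ → ℂ}
    (hG : ∀ z ∈ U, Tendsto (fun i => F i z) l (𝓝 (G z)))
    (h : ∀ a b c d : ℝ, a < b → c < d → Icc a b ×ℂ Icc c d ⊆ U → ∀ η > 0, ∃ (n : ℕ) (v : ℕ → ℝ) (p : ℕ → ℝ),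
      v 0 = c ∧ v n = d ∧ (∀ k < n, v k ≤ v (k + 1)) ∧ (∀ k < n, 0 ≤ p k) ∧ ∑ k ∈ Finset.range n, p k ≤ η ∧
      ∀ k < n, ∀ ε > 0, ∃ᶠ i in l, ∃ H : ℂ → ℂ,
        (∀ z ∈ Icc a b ×ℂ Icc (v k) (v (k + 1)), ‖F i z - H z‖ ≤ p k) ∧
        ∀ z ∈ Icc a b ×ℂ Icc (v k) (v (k + 1)), z + δ i ∈ Icc a b ×ℂ Icc (v k) (v (k + 1)) →
          z + δ i * I ∈ Icc a b ×ℂ Icc (v k) (v (k + 1)) →
          ‖H (z + δ i * I) - H z - I * (H (z + δ i) - H z)‖ ≤ ε * δ i) : DifferentiableOn ℂ G U := by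
  have hGc : ContinuousOn G U := by
    intro z hz
    obtain ⟨r, hr, hrU⟩ := Metric.nhds_basis_closedBall.mem_iff.1 (hU.mem_nhds hz)
    have h1 := cont_of_AEC (heq _ hrU (isCompact_closedBall z r)) (fun w hw => hG w (hrU hw))
    exact (h1.continuousAt (closedBall_mem_nhds z hr)).continuousWithinAt
  refine holo_of_bint hU hGc fun a b c d hab hcd hR => ?_
  rcases hab.eq_or_lt with rfl | hab'
  · rw [bint]; simp
  rcases hcd.eq_or_lt with rfl | hcd'
  · rw [bint]; simp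
  set L := (b - a) + (d - c) with hL
  have hL1 : 0 < L := by linarith
  rw [← norm_eq_zero]
  refine le_antisymm (le_of_forall_pos_le_add fun η hη => ?_) (norm_nonneg _)
  rw [zero_add]
  have hR' := hR
  rw [uIcc_of_le hab, uIcc_of_le hcd] at hR'
  obtain ⟨n, v, p, v0, vn, vmono, hp0, hsum, hdisc⟩ := h a b c d hab' hcd' hR' (η / (2 * L)) (by positivity)
  have hGR : ContinuousOn G ([[a, b]] ×ℂ [[c, d]]) := hGc.mono hR
  have vle : ∀ k ≤ n, ∀ j ≤ k, v j ≤ v k := by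
    intro k hk
    induction k with
    | zero => intro j hj; rw [Nat.le_zero.1 hj]
    | succ k ih =>
      intro j hj
      rcases Nat.lt_or_ge k j with h1 | h1
      · have : j = k + 1 := by omega
        rw [this]
      · exact (ih (by omega) j h1).trans (vmono k (by omega))
  have vI : ∀ k ≤ n, v k ∈ Icc c d := fun k hk => ⟨v0 ▸ vle k hk 0 (Nat.zero_le _), vn ▸ vle n le_rfl k hk⟩
  have vm : ∀ k ≤ n, v k ∈ [[c, d]] := fun k hk => by rw [uIcc_of_le hcd]; exact vI k hk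
  rw [bint_slabs hGR n v0 vn vm]
  have hcell : ∀ k ∈ Finset.range n, ‖bint G a b (v k) (v (k + 1))‖ ≤ 2 * p k * L := by
    intro k hk
    rw [Finset.mem_range] at hk
    have hvk := vmono k hk
    have hsub : [[a, b]] ×ℂ [[v k, v (k + 1)]] ⊆ [[a, b]] ×ℂ [[c, d]] := by
      refine reProdIm_subset_iff.2 (prod_mono (le_refl _) ?_)
      exact uIcc_subset_uIcc (vm k hk.le) (vm (k + 1) hk)
    have key := bint_approx (l := l) (F := F) (δ := δ) (G := G) hδ0 hδ hab hvk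
      ((heq _ hR (isCompact_uIcc.reProdIm isCompact_uIcc)).mono le_rfl hsub) (fun z hz => hG z (hR (hsub hz)))
      (hGR.mono hsub) (hp0 k hk) (fun ε hε => by
        rw [uIcc_of_le hab, uIcc_of_le hvk]
        exact hdisc k hk ε hε)
    refine key.trans ?_
    have h1 : v (k + 1) - v k ≤ d - c := by linarith [(vI k hk.le).1, (vI (k + 1) hk).2]
    have h2 : (b - a) + (v (k + 1) - v k) ≤ L := by rw [hL]; linarith
    have := hp0 k hk
    gcongr
  calc ‖∑ k ∈ Finset.range n, bint G a b (v k) (v (k + 1))‖ ≤ ∑ k ∈ Finset.range n, 2 * p k * L :=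
        (norm_sum_le _ _).trans (Finset.sum_le_sum hcell)
    _ = 2 * L * ∑ k ∈ Finset.range n, p k := by rw [Finset.mul_sum]; exact Finset.sum_congr rfl fun _ _ => by ring
    _ ≤ 2 * L * (η / (2 * L)) := by gcongr
    _ = η := by field_simp

end Full
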